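import Pool.Agent.Work.MP_0f0f21_an.Defs

set_option autoImplicit false

open MeasureTheory Metric Set Filter Topology
open scoped ENNReal NNReal ContDiff

namespace Pool.Agent.Work.MP_0f0f21_an

/-- metric data of a quasiregular map of polynomial type -/
structure BQ {n : ℕ} (f : E n → E n) (N : ℕ) (C c : ℝ) (w : ℝ → ℝ) : Prop where
  cont : Continuous f
  surj : Function.Surjective f
  fib : ∀ y, (f ⁻¹' {y}).encard ≤ N
  nonconst : ∀ x r, 0 < r → ∃ z ∈ closedBall x r, f z ≠ f x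
  one_le : 1 ≤ C
  dbl : ∀ x r M, 0 < r → (∀ z ∈ closedBall x r, dist (f z) (f x) ≤ M) →
      ∀ z ∈ closedBall x (2 * r), dist (f z) (f x) ≤ C * M
  w_lim : Filter.Tendsto w (nhdsWithin 0 (Ioi 0)) (nhds 0)
  mod : ∀ x r M s, 0 < r → 0 < s → s ≤ 1 → (∀ z ∈ closedBall x r, dist (f z) (f x) ≤ M) →
      ∀ z ∈ closedBall x (s * r), dist (f z) (f x) ≤ w s * M
  c_pos : 0 < c
  opn : ∀ x r M, 0 < r → (∃ z ∈ closedBall x r, M ≤ dist (f z) (f x)) →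
      ball (f x) (c * M) ⊆ f '' ball x r
  cover : ∀ y ρ, 0 < ρ → ∃ (p : Fin N → E n) (r : Fin N → ℝ), (∀ j, 0 < r j) ∧
      (∀ j, f (p j) = y) ∧
      f ⁻¹' closedBall y ρ ⊆ ⋃ j, closedBall (p j) (r j) ∧
      (∀ j, ∀ z ∈ closedBall (p j) (r j), dist (f z) y ≤ C * ρ) ∧
      (∀ j, ∃ z ∈ closedBall (p j) (r j), ρ ≤ dist (f z) y)

end Pool.Agent.Work.MP_0f0f21_an
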