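import Pool.Agent.Work.MP_0f0f21_an.Metric
import Pool.Agent.Work.MP_0f0f21_an.BQ

set_option autoImplicit false

open MeasureTheory Metric Set Filter Topology
open scoped ENNReal NNReal ContDiff

namespace Pool.Agent.Work.MP_0f0f21_an

lemma cube_preconn {n : ℕ} (x : E n) (t : ℝ) : IsPreconnected {z | sd x z ≤ t} := by
  have h1 : {z : E n | sd x z ≤ t} = (@WithLp.toLp 2 (Fin n → ℝ)) ''
      closedBall (WithLp.ofLp x) t := by
    ext z
    constructor
    · intro hz
      refine ⟨WithLp.ofLp z, ?_, rfl⟩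
      rw [mem_closedBall, dist_comm]
      exact hz
    · rintro ⟨w, hw, rfl⟩
      rw [mem_closedBall, dist_comm] at hw
      exact hw
  rw [h1]
  exact ((convex_closedBall _ _).isPreconnected).image _ (PiLp.continuous_toLp 2 _).continuousOn

namespace QR

variable {m : ℕ}

/-- size of a component -/
lemma comp_size (q : QR (m + 1)) (y : E (m + 1)) (ρ : ℝ) (x : E (m + 1))
    (hx : q.f x ∈ ball y ρ) :
    ∃ r : ℝ, 0 < r ∧ (∀ u ∈ q.comp y ρ x, sd x u ≤ r) ∧ ∃ u ∈ q.comp y ρ x, r / 2 ≤ sd x u := by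
  set U := q.comp y ρ x with hU
  have hxU : x ∈ U := q.comp_mem y ρ x hx
  have hUo : IsOpen U := q.comp_open y ρ x
  have hbdd : BddAbove (sd x '' U) := by
    obtain ⟨R, hR⟩ := (q.comp_bdd y ρ x).subset_closedBall x
    refine ⟨R, ?_⟩
    rintro _ ⟨u, hu, rfl⟩
    have := hR hu
    rw [mem_closedBall, dist_comm] at this
    exact (sd_le_dist x u).trans this
  set r := sSup (sd x '' U) with hr
  have hle : ∀ u ∈ U, sd x u ≤ r := fun u hu => le_csSup hbdd ⟨u, hu, rfl⟩
  have hpos : 0 < r := by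
    obtain ⟨ε, hε, hεU⟩ := Metric.isOpen_iff.mp hUo x hxU
    obtain ⟨z, hz⟩ := sd_sphere_nonempty (n := m + 1) (by omega) x
      (ε / (2 * Real.sqrt ((m + 1 : ℕ) : ℝ))) (by positivity)
    have hs : 0 < Real.sqrt ((m + 1 : ℕ) : ℝ) := Real.sqrt_pos.mpr (by positivity)
    have hzU : z ∈ U := by
      apply hεU
      rw [mem_ball, dist_comm]
      refine lt_of_le_of_lt (dist_le_sd x z) ?_
      rw [hz]
      have : Real.sqrt ((m + 1 : ℕ) : ℝ) * (ε / (2 * Real.sqrt ((m + 1 : ℕ) : ℝ))) = ε / 2 := by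
        field_simp
      rw [this]
      linarith
    have := hle z hzU
    rw [hz] at this
    refine lt_of_lt_of_le ?_ this
    positivity
  refine ⟨r, hpos, hle, ?_⟩
  obtain ⟨_, ⟨u, hu, rfl⟩, hlt⟩ := exists_lt_of_lt_csSup
    (show (sd x '' U).Nonempty from ⟨_, ⟨x, hxU, rfl⟩⟩)
    (show r / 2 < sSup (sd x '' U) by rw [← hr]; linarith)
  exact ⟨u, hu, hlt.le⟩

/-- a point of a ball at a given distance of the centre -/
lemma point_at {n : ℕ} (hn : 1 ≤ n) (y : E n) (t : ℝ) (ht : 0 ≤ t) : ∃ w, dist w y = t := by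
  refine ⟨y + EuclideanSpace.single ⟨0, hn⟩ t, ?_⟩
  rw [dist_eq_norm, add_sub_cancel_left]
  simp [abs_of_nonneg ht]

/-- lower bound for the integral of the Jacobian on a component -/
theorem comp_energy (q : QR (m + 1)) (hm : 1 ≤ m) : ∃ c : ℝ, 0 < c ∧
    ∀ (x : E (m + 1)) (ρ : ℝ), 0 < ρ →
      ENNReal.ofReal (c * ρ ^ (m + 1)) ≤
        ∫⁻ z in q.comp (q.f x) ρ x, ENNReal.ofReal (q.J z) := by
  obtain ⟨Cd, hCd2, hCd⟩ := q.doubling hm
  obtain ⟨Cc, hCc2, hCc⟩ := q.compare hm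
  obtain ⟨Cm, hCm0, hCm⟩ := q.modulus hm
  have hK := q.hK
  have hcE := cE_nonneg m
  set σ : ℝ := Real.exp (-(Cm * Cc ^ (m + 1) + 1)) with hσ
  have hσ0 : 0 < σ := Real.exp_pos _
  have hσ1 : σ < 1 := by
    rw [hσ, Real.exp_lt_one_iff]
    have : 0 ≤ Cm * Cc ^ (m + 1) := by positivity
    linarith
  obtain ⟨k, hk⟩ : ∃ k : ℕ, 8 / σ < 2 ^ k := pow_unbounded_of_one_lt _ (by norm_num)
  set c0 : ℝ := (1 / (4 * Cd ^ k)) with hc0
  have hc00 : 0 < c0 := by positivity
  refine ⟨c0 ^ (m + 1) * Real.log 2 / (cE m * q.K + 1), by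
    have := Real.log_pos (by norm_num : (1:ℝ) < 2); positivity, ?_⟩
  intro x ρ hρ
  set U := q.comp (q.f x) ρ x with hU
  have hxb : q.f x ∈ ball (q.f x) ρ := mem_ball_self hρ
  obtain ⟨r, hr0, hrU, u, huU, hur⟩ := q.comp_size (q.f x) ρ x hxb
  rw [← hU] at hrU huU
  have hUρ : ∀ u ∈ U, dist (q.f u) (q.f x) ≤ ρ := by
    intro u hu
    have := q.comp_sub _ _ _ hu
    rw [mem_preimage, mem_ball] at this
    exact this.le
  -- the cube of size r / 4
  have h1 := hCc x (r / 4) ρ U (by positivity) (q.comp_preconn _ _ _)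
    (q.comp_mem _ _ _ hxb) ⟨u, huU, by linarith⟩ hUρ
  -- the small cube is in the component
  have h2 : ∀ z, sd x z ≤ σ * r / 4 → dist (q.f z) (q.f x) < ρ := by
    intro z hz
    have h3 := hCm x (σ * r / 4) (r / 4) (Cc * ρ) (by positivity) (by nlinarith) h1 z hz
    have h4 : Real.log (r / 4 / (σ * r / 4)) = Cm * Cc ^ (m + 1) + 1 := by
      have : r / 4 / (σ * r / 4) = σ⁻¹ := by field_simp
      rw [this, Real.log_inv, hσ, Real.log_exp]
      ring
    rw [h4, mul_pow] at h3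
    by_contra hcon
    push Not at hcon
    have h5 : ρ ^ (m + 1) ≤ dist (q.f z) (q.f x) ^ (m + 1) := by gcongr
    have h6 : 0 < ρ ^ (m + 1) := by positivity
    have h7 : 0 ≤ Cm * Cc ^ (m + 1) := by positivity
    nlinarith
  have h3 : {z | sd x z ≤ σ * r / 4} ⊆ U := by
    apply (cube_preconn x (σ * r / 4)).subset_connectedComponentIn
    · show sd x x ≤ σ * r / 4
      rw [sd_self]; positivity
    · intro z hz
      exact h2 z hz
  -- a point with large displacement
  obtain ⟨z, hz1, hz2⟩ : ∃ z, sd x z ≤ σ * r / 8 ∧ c0 * ρ ≤ dist (q.f z) (q.f x) := by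
    by_contra hcon
    push Not at hcon
    have h4 := q.doubling_iter Cd hCd k x (σ * r / 8) (c0 * ρ) (by positivity)
      (fun z hz => (hcon z hz).le)
    have hsurj := q.comp_surj (q.f x) ρ x hxb
    rw [← hU] at hsurj
    obtain ⟨w, hw⟩ := point_at (n := m + 1) (by omega) (q.f x) (ρ / 2) (by positivity)
    have hwb : w ∈ ball (q.f x) ρ := by rw [mem_ball, hw]; linarith
    rw [← hsurj] at hwb
    obtain ⟨v, hv, hvw⟩ := hwb
    have h5 := h4 v (by
      refine (hrU v hv).trans ?_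
      rw [div_lt_iff₀ hσ0] at hk
      have : r * 8 ≤ 2 ^ k * σ * r := by nlinarith
      linarith)
    rw [hvw, hw, hc0] at h5
    have h6 : Cd ^ k * (1 / (4 * Cd ^ k) * ρ) = ρ / 4 := by field_simp
    rw [h6] at h5
    linarith
  have h4 := q.energy_lower hm x z (σ * r / 8) (σ * r / 4) (by positivity)
    (by have := mul_pos hσ0 hr0; linarith) hz1
  have h5 : Real.log (σ * r / 4 / (σ * r / 8)) = Real.log 2 := by
    congr 1
    field_simp
    norm_num
  rw [h5] at h4
  set I := ∫⁻ z in U, ENNReal.ofReal (q.J z) with hI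
  have h6 : ENNReal.ofReal ((c0 * ρ) ^ (m + 1) * Real.log 2) ≤
      ENNReal.ofReal (cE m * q.K + 1) * I := by
    have hl2 : 0 ≤ Real.log 2 := Real.log_nonneg (by norm_num)
    calc ENNReal.ofReal ((c0 * ρ) ^ (m + 1) * Real.log 2)
        ≤ ENNReal.ofReal (dist (q.f z) (q.f x) ^ (m + 1) * Real.log 2) := by
          apply ENNReal.ofReal_le_ofReal
          gcongr
      _ ≤ ENNReal.ofReal (cE m * q.K) * ∫⁻ w in {w | sd x w ≤ σ * r / 4},
          ENNReal.ofReal (q.J w) := h4
      _ ≤ ENNReal.ofReal (cE m * q.K + 1) * I := by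
          gcongr
          · linarith
          · exact lintegral_mono_set h3
  have hpos : 0 < cE m * q.K + 1 := by positivity
  have h7 : c0 ^ (m + 1) * Real.log 2 / (cE m * q.K + 1) * ρ ^ (m + 1) =
      (cE m * q.K + 1)⁻¹ * ((c0 * ρ) ^ (m + 1) * Real.log 2) := by
    rw [mul_pow]
    field_simp
  rw [h7, ENNReal.ofReal_mul (by positivity), ENNReal.ofReal_inv_of_pos hpos]
  have h8 : ENNReal.ofReal (cE m * q.K + 1) ≠ 0 := by simpa using hpos
  calc (ENNReal.ofReal (cE m * q.K + 1))⁻¹ * ENNReal.ofReal ((c0 * ρ) ^ (m + 1) * Real.log 2)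
      ≤ (ENNReal.ofReal (cE m * q.K + 1))⁻¹ * (ENNReal.ofReal (cE m * q.K + 1) * I) := by gcongr
    _ = I := by rw [← mul_assoc, ENNReal.inv_mul_cancel h8 ENNReal.ofReal_ne_top, one_mul]

/-- `J`-mass of the preimage of a ball -/
lemma mass_ball (q : QR (m + 1)) (d : ℝ)
    (hd : ∀ Θ : E (m + 1) → ℝ≥0∞, Measurable Θ →
      ∫⁻ x, Θ (q.f x) * ENNReal.ofReal (q.J x) = ENNReal.ofReal d * ∫⁻ z, Θ z)
    (hd0 : 0 ≤ d) (y : E (m + 1)) (ρ : ℝ) (hρ : 0 ≤ ρ) :
    ∫⁻ z in q.f ⁻¹' ball y ρ, ENNReal.ofReal (q.J z) =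
      ENNReal.ofReal (d * (volume : Measure (E (m + 1))).real (ball 0 1) * ρ ^ (m + 1)) := by
  have hm1 : MeasurableSet (q.f ⁻¹' ball y ρ) := (isOpen_ball.preimage q.hf).measurableSet
  calc ∫⁻ z in q.f ⁻¹' ball y ρ, ENNReal.ofReal (q.J z)
      = ∫⁻ w, (ball y ρ).indicator (fun _ => (1:ℝ≥0∞)) (q.f w) * ENNReal.ofReal (q.J w) := by
        rw [← lintegral_indicator hm1]
        apply lintegral_congr
        intro w
        by_cases hw : w ∈ q.f ⁻¹' ball y ρ
        · rw [indicator_of_mem hw, indicator_of_mem (by exact hw), one_mul]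
        · rw [indicator_of_notMem hw, indicator_of_notMem (by exact hw), zero_mul]
    _ = ENNReal.ofReal d * ∫⁻ w, (ball y ρ).indicator (fun _ => (1:ℝ≥0∞)) w :=
        hd _ (measurable_const.indicator measurableSet_ball)
    _ = ENNReal.ofReal d * volume (ball y ρ) := by
        rw [lintegral_indicator_const measurableSet_ball, one_mul]
    _ = ENNReal.ofReal d * ENNReal.ofReal
        ((volume : Measure (E (m + 1))).real (ball 0 1) * ρ ^ (m + 1)) := by
        congr 1
        have hnt : Nontrivial (E (m + 1)) := q.nontriv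
        rw [Measure.addHaar_ball _ _ hρ, mul_comm ((volume : Measure (E (m + 1))).real (ball 0 1)),
          ENNReal.ofReal_mul (by positivity)]
        have h3 : Module.finrank ℝ (E (m + 1)) = m + 1 := by simp
        rw [h3, Measure.real, ENNReal.ofReal_toReal measure_ball_lt_top.ne]
    _ = _ := by
        rw [← ENNReal.ofReal_mul hd0, mul_assoc]

/-- multiplicity bound -/
theorem mult (q : QR (m + 1)) (hm : 1 ≤ m) : ∃ N : ℕ, ∀ y, (q.f ⁻¹' {y}).encard ≤ N := by
  obtain ⟨c, hc0, hc⟩ := q.comp_energy hm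
  obtain ⟨Cc, hCc2, hCc⟩ := q.compare hm
  obtain ⟨d, hd0, hd⟩ := q.degree
  set V := (volume : Measure (E (m + 1))).real (ball 0 1) with hV
  obtain ⟨N, hN⟩ := exists_nat_gt (d * V / c)
  refine ⟨N, ?_⟩
  intro y
  by_contra hcon
  push Not at hcon
  -- a finite subset with N + 1 points
  obtain ⟨S, hS1, hS2⟩ : ∃ S : Finset (E (m + 1)), (S : Set (E (m + 1))) ⊆ q.f ⁻¹' {y} ∧
      S.card = N + 1 := by
    have h1 : ((N + 1 : ℕ) : ℕ∞) ≤ (q.f ⁻¹' {y}).encard := by
      push_cast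
      exact Order.add_one_le_of_lt hcon
    obtain ⟨T, hT1, hT2⟩ := Set.exists_subset_encard_eq h1
    have hTf : T.Finite := by
      apply Set.finite_of_encard_eq_coe hT2
    refine ⟨hTf.toFinset, by simpa using hT1, ?_⟩
    rw [hTf.encard_eq_coe_toFinset_card] at hT2
    exact_mod_cast hT2
  -- separation
  obtain ⟨δ, hδ0, hδ⟩ : ∃ δ > 0, ∀ x ∈ S, ∀ x' ∈ S, x ≠ x' → 4 * δ ≤ sd x x' := by
    have h1 : ∀ p ∈ S.offDiag, 0 < sd p.1 p.2 := by
      intro p hp
      rw [Finset.mem_offDiag] at hp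
      unfold sd
      rw [dist_pos]
      intro h
      exact hp.2.2 (WithLp.ofLp_injective 2 h)
    by_cases hne : S.offDiag.Nonempty
    · obtain ⟨p, hp, hpm⟩ := S.offDiag.exists_min_image (fun p => sd p.1 p.2) hne
      refine ⟨sd p.1 p.2 / 4, by have := h1 p hp; positivity, ?_⟩
      intro x hx x' hx' hxx
      have := hpm (x, x') (by rw [Finset.mem_offDiag]; exact ⟨hx, hx', hxx⟩)
      simp only at this
      linarith
    · refine ⟨1, one_pos, ?_⟩
      intro x hx x' hx' hxx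
      exact absurd ⟨(x, x'), by rw [Finset.mem_offDiag]; exact ⟨hx, hx', hxx⟩⟩ hne
  -- small radius
  have h2 : ∀ x : E (m + 1), ∃ ρ > 0, ∀ ρ' > 0, ρ' ≤ ρ → ∀ u ∈ q.comp (q.f x) ρ' x,
      sd x u < 2 * δ := by
    intro x
    obtain ⟨z, hz1, hz2⟩ := q.nonconst hm x δ hδ0
    have hzd : 0 < dist (q.f z) (q.f x) := dist_pos.mpr hz2
    refine ⟨dist (q.f z) (q.f x) / (2 * Cc), by positivity, ?_⟩
    intro ρ' hρ' hρ'2
    apply q.open_cube Cc hCc x z δ ρ' hδ0 hρ' hz1
    calc Cc * ρ' ≤ Cc * (dist (q.f z) (q.f x) / (2 * Cc)) := by gcongr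
      _ = dist (q.f z) (q.f x) / 2 := by field_simp
      _ < dist (q.f z) (q.f x) := by linarith
  choose ρf hρf0 hρf using h2
  have hSne : S.Nonempty := by
    rw [← Finset.card_pos, hS2]; omega
  obtain ⟨x0, hx0, hx0m⟩ := S.exists_min_image ρf hSne
  set ρ := ρf x0 with hρ
  have hρ0 : 0 < ρ := hρf0 x0
  have hfy : ∀ x ∈ S, q.f x = y := fun x hx => hS1 hx
  have hdisj : (S : Set (E (m + 1))).PairwiseDisjoint (fun x => q.comp y ρ x) := by
    intro x hx x' hx' hxx
    rw [Function.onFun, Set.disjoint_left]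
    intro u hu hu'
    have h3 := hρf x ρ hρ0 (hx0m x hx) u (by rw [hfy x hx]; exact hu)
    have h4 := hρf x' ρ hρ0 (hx0m x' hx') u (by rw [hfy x' hx']; exact hu')
    have h5 := hδ x hx x' hx' hxx
    have h6 := sd_triangle x u x'
    rw [sd_comm u x'] at h6
    linarith
  have h3 : ((N + 1 : ℕ) : ℝ≥0∞) * ENNReal.ofReal (c * ρ ^ (m + 1)) ≤
      ENNReal.ofReal (d * V * ρ ^ (m + 1)) := by
    rw [← q.mass_ball d hd hd0 y ρ hρ0.le]
    calc ((N + 1 : ℕ) : ℝ≥0∞) * ENNReal.ofReal (c * ρ ^ (m + 1))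
        = ∑ x ∈ S, ENNReal.ofReal (c * ρ ^ (m + 1)) := by
          rw [Finset.sum_const, hS2, nsmul_eq_mul]
      _ ≤ ∑ x ∈ S, ∫⁻ z in q.comp y ρ x, ENNReal.ofReal (q.J z) := by
          apply Finset.sum_le_sum
          intro x hx
          have := hc x ρ hρ0
          rwa [hfy x hx] at this
      _ = ∫⁻ z in ⋃ x ∈ S, q.comp y ρ x, ENNReal.ofReal (q.J z) := by
          rw [lintegral_biUnion_finset hdisj]
          intro x hx
          exact (q.comp_open y ρ x).measurableSet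
      _ ≤ ∫⁻ z in q.f ⁻¹' ball y ρ, ENNReal.ofReal (q.J z) := by
          apply lintegral_mono_set
          intro z hz
          rw [mem_iUnion₂] at hz
          obtain ⟨x, hx, hz⟩ := hz
          exact q.comp_sub y ρ x hz
  rw [← ENNReal.ofReal_natCast, ← ENNReal.ofReal_mul (by positivity),
    ENNReal.ofReal_le_ofReal_iff (by positivity)] at h3
  rw [div_lt_iff₀ hc0] at hN
  push_cast at h3
  have h4 : 0 < ρ ^ (m + 1) := by positivity
  have h5 : ((N:ℝ) + 1) * c ≤ d * V := by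
    by_contra h6
    push Not at h6
    nlinarith
  nlinarith

/-- **the metric data of a quasiregular map of polynomial type** -/
theorem toBQ (q : QR (m + 1)) (hm : 1 ≤ m) : ∃ (N : ℕ) (C c : ℝ) (w : ℝ → ℝ),
    BQ q.f N C c w := by
  obtain ⟨Cd, hCd2, hCd⟩ := q.doubling hm
  obtain ⟨Cc, hCc2, hCc⟩ := q.compare hm
  obtain ⟨Cm, hCm0, hCm⟩ := q.modulus hm
  obtain ⟨N, hN⟩ := q.mult hm
  set κ : ℝ := Real.sqrt ((m + 1 : ℕ) : ℝ) with hκ
  have hκ1 : 1 ≤ κ := by
    rw [hκ, Real.one_le_sqrt]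
    push_cast
    linarith [(Nat.cast_nonneg m : (0:ℝ) ≤ m)]
  have hκ0 : 0 < κ := by linarith
  obtain ⟨k, hk⟩ : ∃ k : ℕ, 4 * κ < 2 ^ k := pow_unbounded_of_one_lt _ (by norm_num)
  have hin : ∀ (x z : E (m + 1)) (r : ℝ), sd x z ≤ r / κ → z ∈ closedBall x r := by
    intro x z r hz
    rw [mem_closedBall, dist_comm]
    refine (dist_le_sd x z).trans ?_
    rw [← hκ]
    rw [le_div_iff₀ hκ0] at hz
    linarith
  have hout : ∀ (x z : E (m + 1)) (r : ℝ), z ∈ closedBall x r → sd x z ≤ r := by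
    intro x z r hz
    rw [mem_closedBall, dist_comm] at hz
    exact (sd_le_dist x z).trans hz
  set C : ℝ := Cd ^ k * (2 * Cc) with hC
  have hCdk : 1 ≤ Cd ^ k := one_le_pow₀ (by linarith)
  have hsurj : Function.Surjective q.f := by
    intro y
    set x : E (m + 1) := 0 with hx
    have h1 := q.comp_surj (q.f x) (dist y (q.f x) + 1) x
      (mem_ball_self (by positivity))
    have h2 : y ∈ ball (q.f x) (dist y (q.f x) + 1) := by rw [mem_ball]; linarith
    rw [← h1] at h2
    obtain ⟨u, _, hu⟩ := h2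
    exact ⟨u, hu⟩
  refine ⟨N, C, 1 / (2 * Cd ^ k * Cc), fun s => if s < 1 / κ then
    (Cm / Real.log (1 / (κ * s))) ^ ((1:ℝ) / ((m + 1 : ℕ) : ℝ)) else 1, ?_⟩
  refine ⟨q.hf, hsurj, hN, ?_, ?_, ?_, ?_, ?_, by positivity, ?_, ?_⟩
  · -- nonconst
    intro x r hr
    obtain ⟨z, hz1, hz2⟩ := q.nonconst hm x (r / κ) (by positivity)
    exact ⟨z, hin x z r hz1, hz2⟩
  · rw [hC]; nlinarith
  · -- dbl
    intro x r M hr h z hz
    have hM0 : 0 ≤ M := by
      have := h x (mem_closedBall_self hr.le)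
      rwa [dist_self] at this
    have h1 := q.doubling_iter Cd hCd k x (r / κ) M (by positivity)
      (fun z hz => h z (hin x z r hz)) z (by
        refine (hout x z _ hz).trans ?_
        rw [mul_div_assoc', le_div_iff₀ hκ0]
        nlinarith)
    refine h1.trans ?_
    rw [hC]
    have : 0 ≤ Cd ^ k * M := by positivity
    nlinarith
  · -- w_lim
    have h1 : ∀ᶠ s : ℝ in 𝓝[>] 0, s < 1 / κ :=
      (eventually_lt_nhds (by positivity)).filter_mono nhdsWithin_le_nhds
    have h2 : Tendsto (fun s : ℝ => (Cm / Real.log (1 / (κ * s))) ^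
        ((1:ℝ) / ((m + 1 : ℕ) : ℝ))) (𝓝[>] 0) (𝓝 0) := by
      have h3 : Tendsto (fun s : ℝ => Real.log (1 / (κ * s))) (𝓝[>] 0) atTop := by
        apply Real.tendsto_log_atTop.comp
        have h4 : Tendsto (fun s : ℝ => κ⁻¹ * s⁻¹) (𝓝[>] 0) atTop :=
          Tendsto.const_mul_atTop (by positivity) tendsto_inv_nhdsGT_zero
        refine h4.congr fun s => ?_
        rw [one_div, mul_inv]
      have h5 : Tendsto (fun s : ℝ => Cm / Real.log (1 / (κ * s))) (𝓝[>] 0) (𝓝 0) :=
        Tendsto.const_div_atTop h3 Cm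
      have h6 := h5.rpow_const (p := (1:ℝ) / ((m + 1 : ℕ) : ℝ)) (Or.inr (by positivity))
      rwa [Real.zero_rpow (by positivity)] at h6
    refine h2.congr' ?_
    filter_upwards [h1] with s hs
    rw [if_pos hs]
  · -- mod
    intro x r M s hr hs0 hs1 h z hz
    have hM0 : 0 ≤ M := by
      have := h x (mem_closedBall_self hr.le)
      rwa [dist_self] at this
    split_ifs with hs
    · have hlt : s * r < r / κ := by
        rw [lt_div_iff₀ hκ0]
        rw [lt_div_iff₀ hκ0] at hs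
        nlinarith
      have h1 := hCm x (s * r) (r / κ) M (by positivity) hlt
        (fun z hz => h z (hin x z r hz)) z (hout x z _ hz)
      have h2 : r / κ / (s * r) = 1 / (κ * s) := by field_simp
      rw [h2] at h1
      have h3 : 0 < Real.log (1 / (κ * s)) := by
        apply Real.log_pos
        rw [lt_div_iff₀ (by positivity), one_mul]
        rw [lt_div_iff₀ hκ0] at hs
        linarith
      have h4 : dist (q.f z) (q.f x) ^ (m + 1) ≤ Cm / Real.log (1 / (κ * s)) * M ^ (m + 1) := by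
        rw [div_mul_eq_mul_div, le_div_iff₀ h3]
        exact h1
      have h5 : (Cm / Real.log (1 / (κ * s)) * M ^ (m + 1)) =
          ((Cm / Real.log (1 / (κ * s))) ^ ((1:ℝ) / ((m + 1 : ℕ) : ℝ)) * M) ^ (m + 1) := by
        have h6 : ((Cm / Real.log (1 / (κ * s))) ^ ((1:ℝ) / ((m + 1 : ℕ) : ℝ))) ^ (m + 1) =
            Cm / Real.log (1 / (κ * s)) := by
          have h7 : (1:ℝ) / ((m + 1 : ℕ) : ℝ) * ((m + 1 : ℕ) : ℝ) = 1 := by
            field_simp
          rw [← Real.rpow_natCast, ← Real.rpow_mul (by positivity), h7, Real.rpow_one]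
        rw [mul_pow, h6]
      rw [h5] at h4
      exact le_of_pow_le_pow_left₀ (by omega) (by positivity) h4
    · rw [one_mul]
      apply h z
      rw [mem_closedBall] at hz ⊢
      nlinarith
  · -- opn
    intro x r M hr hex
    rcases le_or_gt M 0 with hM | hM
    · intro w hw
      rw [mem_ball] at hw
      have : (1 / (2 * Cd ^ k * Cc)) * M ≤ 0 := mul_nonpos_of_nonneg_of_nonpos (by positivity) hM
      linarith [dist_nonneg (x := w) (y := q.f x)]
    obtain ⟨z0, hz0, hz0M⟩ := hex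
    set r' := r / (4 * κ) with hr'
    have hr'0 : 0 < r' := by positivity
    obtain ⟨z, hz1, hz2⟩ : ∃ z, sd x z ≤ r' ∧ M / (2 * Cd ^ k) < dist (q.f z) (q.f x) := by
      by_contra hcon
      push Not at hcon
      have h1 := q.doubling_iter Cd hCd k x r' (M / (2 * Cd ^ k)) hr'0 hcon z0 (by
        refine (hout x z0 r hz0).trans ?_
        rw [hr', mul_div_assoc', le_div_iff₀ (by positivity)]
        nlinarith)
      have h2 : Cd ^ k * (M / (2 * Cd ^ k)) = M / 2 := by field_simp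
      rw [h2] at h1
      linarith
    set ρ := 1 / (2 * Cd ^ k * Cc) * M with hρ
    have hρ0 : 0 < ρ := by positivity
    have h1 := q.open_cube Cc hCc x z r' ρ hr'0 hρ0 hz1 (by
      have : Cc * ρ = M / (2 * Cd ^ k) := by rw [hρ]; field_simp
      rw [this]
      exact hz2)
    have h2 := q.comp_surj (q.f x) ρ x (mem_ball_self hρ0)
    rw [← h2]
    apply image_mono
    intro u hu
    rw [mem_ball, dist_comm]
    refine lt_of_le_of_lt (dist_le_sd x u) ?_
    have h3 := h1 u hu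
    rw [← hκ]
    calc κ * sd x u ≤ κ * (2 * r') := by gcongr
      _ = r / 2 := by rw [hr']; field_simp; norm_num
      _ < r := by linarith
  · -- cover
    intro y ρ hρ
    have hfin : (q.f ⁻¹' {y}).Finite :=
      Set.finite_of_encard_le_coe (hN y)
    have hne : (q.f ⁻¹' {y}).Nonempty := by
      obtain ⟨x, hx⟩ := hsurj y
      exact ⟨x, hx⟩
    obtain ⟨p, hp⟩ : ∃ p : Fin N → E (m + 1), range p = q.f ⁻¹' {y} := by
      have hcard : (q.f ⁻¹' {y}).ncard ≤ N := by
        have h1 := hN y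
        rw [← hfin.cast_ncard_eq] at h1
        exact_mod_cast h1
      have hpos : 0 < (q.f ⁻¹' {y}).ncard := (Set.ncard_pos hfin).mpr hne
      have := hfin.fintype
      have : Nonempty (q.f ⁻¹' {y}) := hne.to_subtype
      have h2 : Fintype.card (q.f ⁻¹' {y}) ≤ Fintype.card (Fin N) := by
        rw [Fintype.card_fin, ← Nat.card_eq_fintype_card]
        exact hcard
      obtain ⟨e⟩ := Function.Embedding.nonempty_of_card_le h2
      refine ⟨fun j => ((Function.invFun (⇑e) j : ↥(q.f ⁻¹' {y})) : E (m + 1)), ?_⟩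
      ext x
      constructor
      · rintro ⟨j, rfl⟩
        exact (Function.invFun (⇑e) j).2
      · intro hx
        refine ⟨e ⟨x, hx⟩, ?_⟩
        simp only
        rw [Function.leftInverse_invFun e.injective]
    have hpy : ∀ j, q.f (p j) = y := by
      intro j
      have : p j ∈ q.f ⁻¹' {y} := by rw [← hp]; exact ⟨j, rfl⟩
      exact this
    have h2ρ : 0 < 2 * ρ := by positivity
    have hsz : ∀ j, ∃ r : ℝ, 0 < r ∧ (∀ u ∈ q.comp y (2 * ρ) (p j), sd (p j) u ≤ r) ∧
        ∃ u ∈ q.comp y (2 * ρ) (p j), r / 2 ≤ sd (p j) u := by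
      intro j
      apply q.comp_size
      rw [hpy]
      exact mem_ball_self h2ρ
    choose s hs0 hsU hsu using hsz
    refine ⟨p, fun j => κ * s j, fun j => by have := hs0 j; positivity, hpy, ?_, ?_, ?_⟩
    · intro z hz
      have hzb : q.f z ∈ ball y (2 * ρ) := by
        rw [mem_preimage, mem_closedBall] at hz
        rw [mem_ball]
        linarith
      have h1 := q.comp_surj y (2 * ρ) z hzb
      have h2 : y ∈ ball y (2 * ρ) := mem_ball_self h2ρ
      rw [← h1] at h2
      obtain ⟨p0, hp0, hp0y⟩ := h2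
      have h3 : p0 ∈ range p := by rw [hp]; exact hp0y
      obtain ⟨j, rfl⟩ := h3
      have h4 : q.comp y (2 * ρ) z = q.comp y (2 * ρ) (p j) := connectedComponentIn_eq hp0
      have h5 : z ∈ q.comp y (2 * ρ) (p j) := by
        rw [← h4]
        exact q.comp_mem y (2 * ρ) z hzb
      rw [mem_iUnion]
      refine ⟨j, ?_⟩
      rw [mem_closedBall, dist_comm]
      refine (dist_le_sd _ _).trans ?_
      rw [← hκ]
      exact mul_le_mul_of_nonneg_left (hsU j z h5) hκ0.le
    · intro j z hz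
      obtain ⟨u, hu, hus⟩ := hsu j
      have h1 := hCc (p j) (s j / 4) (2 * ρ) (q.comp y (2 * ρ) (p j)) (by have := hs0 j; positivity)
        (q.comp_preconn _ _ _) (q.comp_mem _ _ _ (by rw [hpy]; exact mem_ball_self h2ρ))
        ⟨u, hu, by linarith⟩ (fun u hu => by
          have := q.comp_sub _ _ _ hu
          rw [mem_preimage, mem_ball] at this
          rw [hpy]
          exact this.le)
      have h2 := q.doubling_iter Cd hCd k (p j) (s j / 4) (Cc * (2 * ρ))
        (by have := hs0 j; positivity) h1 z (by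
          refine (hout _ _ _ hz).trans ?_
          have := hs0 j
          nlinarith)
      rw [hpy] at h2
      refine h2.trans (le_of_eq ?_)
      rw [hC]
      ring
    · intro j
      have h1 := q.comp_surj y (2 * ρ) (p j) (by rw [hpy]; exact mem_ball_self h2ρ)
      obtain ⟨w, hw⟩ := point_at (n := m + 1) (by omega) y ρ hρ.le
      have hwb : w ∈ ball y (2 * ρ) := by rw [mem_ball, hw]; linarith
      rw [← h1] at hwb
      obtain ⟨u, hu, huw⟩ := hwb
      refine ⟨u, ?_, by rw [huw, hw]⟩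
      rw [mem_closedBall, dist_comm]
      refine (dist_le_sd _ _).trans ?_
      rw [← hκ]
      exact mul_le_mul_of_nonneg_left (hsU j u hu) hκ0.le

end QR

end Pool.Agent.Work.MP_0f0f21_an
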