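import Mathlib

set_option autoImplicit false
set_option linter.unusedSectionVars false

open MeasureTheory Metric Set Filter Topology
open scoped ENNReal NNReal ContDiff

namespace Pool.Agent.Work.MP_0f0f21_an

section Morrey

variable {m : ℕ} {F : Type} [NormedAddCommGroup F] [NormedSpace ℝ F] [CompleteSpace F]

lemma rpow_lint (m : ℕ) :
    ∫⁻ s in Ioo (0:ℝ) 1, ENNReal.ofReal (s ^ (-((m:ℝ) / ((m:ℝ) + 1)))) =
      ENNReal.ofReal ((m:ℝ) + 1) := by
  have hm : (0:ℝ) ≤ m := Nat.cast_nonneg m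
  have h1 : -1 < -((m:ℝ) / ((m:ℝ) + 1)) := by
    rw [neg_lt_neg_iff, div_lt_one (by positivity)]
    linarith
  have h2 := integral_rpow (a := 0) (b := 1) (r := -((m:ℝ) / ((m:ℝ) + 1))) (Or.inl h1)
  have hint : IntervalIntegrable (fun s : ℝ => s ^ (-((m:ℝ) / ((m:ℝ) + 1)))) volume 0 1 :=
    intervalIntegral.intervalIntegrable_rpow' h1
  rw [intervalIntegrable_iff_integrableOn_Ioo_of_le zero_le_one] at hint
  rw [← ofReal_integral_eq_lintegral_ofReal hint]
  · congr 1
    rw [← integral_Ioc_eq_integral_Ioo, ← intervalIntegral.integral_of_le zero_le_one, h2]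
    rw [Real.one_rpow, Real.zero_rpow (by linarith)]
    have : -((m:ℝ) / ((m:ℝ) + 1)) + 1 = 1 / ((m:ℝ) + 1) := by field_simp; ring
    rw [this]
    simp
  · filter_upwards [ae_restrict_mem measurableSet_Ioo] with s hs
    exact Real.rpow_nonneg hs.1.le _

/-- the average oscillation on a cube, seen from a point -/
lemma morrey_half (h : (Fin m → ℝ) → F) (hh : ContDiff ℝ 1 h) (c p : Fin m → ℝ) (t : ℝ)
    (ht : 0 < t) (hp : p ∈ closedBall c t) :
    ∫⁻ y in closedBall c t, ‖h y - h p‖ₑ ≤ ENNReal.ofReal (2 * t) *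
      (ENNReal.ofReal ((m:ℝ) + 1) *
        ((∫⁻ y in closedBall c t, ‖fderiv ℝ h y‖ₑ ^ (m + 1)) ^ (1 / ((m:ℝ) + 1)) *
          volume (closedBall c t) ^ (1 - 1 / ((m:ℝ) + 1)))) := by
  set Q := closedBall c t with hQ
  set I := ∫⁻ y in Q, ‖fderiv ℝ h y‖ₑ ^ (m + 1) with hI
  have hd : Continuous (fderiv ℝ h) := hh.continuous_fderiv (by norm_num)
  have hQm : MeasurableSet Q := measurableSet_closedBall
  set α : ℝ := (m:ℝ) / ((m:ℝ) + 1) with hα
  have hm1 : (0:ℝ) < (m:ℝ) + 1 := by positivity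
  -- pointwise estimate
  have h1 : ∀ y ∈ Q, ‖h y - h p‖ₑ ≤ ∫⁻ s in Ioo (0:ℝ) 1,
      ENNReal.ofReal (2 * t) * ‖fderiv ℝ h (p + s • (y - p))‖ₑ := by
    intro y hy
    have hder : ∀ s : ℝ, HasDerivAt (fun s : ℝ => h (p + s • (y - p)))
        (fderiv ℝ h (p + s • (y - p)) (y - p)) s := by
      intro s
      have e1 : HasDerivAt (fun s : ℝ => p + s • (y - p)) (y - p) s := by
        have e0 := ((hasDerivAt_id s).smul_const (y - p)).const_add p
        rw [one_smul] at e0
        exact e0
      exact ((hh.differentiable (by norm_num) _).hasFDerivAt).comp_hasDerivAt s e1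
    have hcont : Continuous fun s : ℝ => fderiv ℝ h (p + s • (y - p)) (y - p) :=
      (hd.comp (by fun_prop)).clm_apply continuous_const
    have hftc := intervalIntegral.integral_eq_sub_of_hasDerivAt (a := 0) (b := 1)
      (fun s _ => hder s) (hcont.intervalIntegrable 0 1)
    simp only [one_smul, zero_smul, add_zero, add_sub_cancel] at hftc
    rw [← hftc, intervalIntegral.integral_of_le zero_le_one, integral_Ioc_eq_integral_Ioo]
    refine (enorm_integral_le_lintegral_enorm _).trans ?_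
    apply lintegral_mono
    intro s
    simp only
    have h2 : ‖fderiv ℝ h (p + s • (y - p)) (y - p)‖ ≤
        (2 * t) * ‖fderiv ℝ h (p + s • (y - p))‖ := by
      refine (ContinuousLinearMap.le_opNorm _ _).trans ?_
      rw [mul_comm]
      gcongr
      rw [← dist_eq_norm]
      rw [hQ, mem_closedBall] at hy hp
      have := dist_triangle_right y p c
      linarith
    rw [← ofReal_norm, ← ofReal_norm, ← ENNReal.ofReal_mul (by positivity)]
    exact ENNReal.ofReal_le_ofReal h2
  -- slices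
  have h2 : ∀ s ∈ Ioo (0:ℝ) 1, ∫⁻ y in Q, ‖fderiv ℝ h (p + s • (y - p))‖ₑ ≤
      ENNReal.ofReal (s ^ (-α)) * (I ^ (1 / ((m:ℝ) + 1)) *
        volume Q ^ (1 - 1 / ((m:ℝ) + 1))) := by
    intro s hs
    -- change of variables
    have hcv : ∫⁻ y in Q, ‖fderiv ℝ h (p + s • (y - p))‖ₑ ^ (m + 1) ≤
        ENNReal.ofReal ((s ^ m)⁻¹) * I := by
      set ψ : (Fin m → ℝ) → (Fin m → ℝ) := fun y => p + s • (y - p) with hψ
      have hψd : ∀ y ∈ Q, HasFDerivWithinAt ψ (s • ContinuousLinearMap.id ℝ (Fin m → ℝ)) Q y := by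
        intro y _
        have := ((((hasFDerivAt_id (𝕜 := ℝ) y).sub_const p).const_smul s).const_add p)
        exact this.hasFDerivWithinAt
      have hinj : InjOn ψ Q := by
        intro y _ z _ hyz
        simp only [hψ] at hyz
        have h3 := add_left_cancel hyz
        have h4 := smul_right_injective (Fin m → ℝ) hs.1.ne' h3
        simpa using h4
      have h3 := lintegral_image_eq_lintegral_abs_det_fderiv_mul volume hQm hψd hinj
        (fun z => ‖fderiv ℝ h z‖ₑ ^ (m + 1))
      have hdet : (s • ContinuousLinearMap.id ℝ (Fin m → ℝ)).det = s ^ m := by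
        have e1 : (s • ContinuousLinearMap.id ℝ (Fin m → ℝ)).det =
            LinearMap.det (s • (LinearMap.id : (Fin m → ℝ) →ₗ[ℝ] (Fin m → ℝ))) := rfl
        rw [e1, LinearMap.det_smul, LinearMap.det_id]
        simp
      have h4 : ψ '' Q ⊆ Q := by
        rintro _ ⟨y, hy, rfl⟩
        have h5 := (convex_closedBall c t) hp hy (by linarith [hs.2] : (0:ℝ) ≤ 1 - s) hs.1.le
          (by ring)
        have h6 : ψ y = (1 - s) • p + s • y := by
          simp only [hψ]; module
        rw [h6]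
        exact h5
      have h5 : ∫⁻ y in Q, ENNReal.ofReal (s ^ m) * ‖fderiv ℝ h (ψ y)‖ₑ ^ (m + 1) ≤ I := by
        calc ∫⁻ y in Q, ENNReal.ofReal (s ^ m) * ‖fderiv ℝ h (ψ y)‖ₑ ^ (m + 1)
            = ∫⁻ z in ψ '' Q, ‖fderiv ℝ h z‖ₑ ^ (m + 1) := by
              rw [h3]
              simp only [hdet]
              rw [abs_of_nonneg (by have := hs.1; positivity)]
          _ ≤ I := lintegral_mono_set h4
      rw [lintegral_const_mul' _ _ (by simp)] at h5
      have hsm : 0 < s ^ m := by have := hs.1; positivity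
      have h6 : ENNReal.ofReal (s ^ m) ≠ 0 := by simpa using hsm
      rw [ENNReal.ofReal_inv_of_pos hsm]
      calc ∫⁻ y in Q, ‖fderiv ℝ h (p + s • (y - p))‖ₑ ^ (m + 1)
          = (ENNReal.ofReal (s ^ m))⁻¹ * (ENNReal.ofReal (s ^ m) *
            ∫⁻ y in Q, ‖fderiv ℝ h (ψ y)‖ₑ ^ (m + 1)) := by
            rw [← mul_assoc, ENNReal.inv_mul_cancel h6 (by simp), one_mul]
        _ ≤ _ := by gcongr
    -- Hölder
    have hmeas : AEStronglyMeasurable (fun y => fderiv ℝ h (p + s • (y - p)))
        (volume.restrict Q) := (hd.comp (by fun_prop)).aestronglyMeasurable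
    have h3 := eLpNorm'_le_eLpNorm'_mul_rpow_measure_univ (p := 1) (q := (m:ℝ) + 1)
      zero_lt_one (by linarith [(Nat.cast_nonneg m : (0:ℝ) ≤ m)]) hmeas
    rw [eLpNorm', eLpNorm'] at h3
    simp only [ENNReal.rpow_one, div_one, Measure.restrict_apply_univ] at h3
    refine h3.trans ?_
    rw [← mul_assoc]
    gcongr
    have h4 : ∫⁻ y in Q, ‖fderiv ℝ h (p + s • (y - p))‖ₑ ^ ((m:ℝ) + 1) =
        ∫⁻ y in Q, ‖fderiv ℝ h (p + s • (y - p))‖ₑ ^ (m + 1) := by
      apply lintegral_congr
      intro y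
      rw [← ENNReal.rpow_natCast]
      push_cast
      rfl
    rw [h4]
    calc (∫⁻ y in Q, ‖fderiv ℝ h (p + s • (y - p))‖ₑ ^ (m + 1)) ^ (1 / ((m:ℝ) + 1))
        ≤ (ENNReal.ofReal ((s ^ m)⁻¹) * I) ^ (1 / ((m:ℝ) + 1)) := by
          gcongr
      _ = ENNReal.ofReal (s ^ (-α)) * I ^ (1 / ((m:ℝ) + 1)) := by
          rw [ENNReal.mul_rpow_of_nonneg _ _ (by positivity)]
          congr 1
          have hs0 := hs.1
          rw [ENNReal.ofReal_rpow_of_pos (by positivity)]
          congr 1
          rw [← Real.rpow_natCast, ← Real.rpow_neg hs0.le, ← Real.rpow_mul hs0.le]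
          congr 1
          rw [hα]
          ring
  -- conclusion
  calc ∫⁻ y in Q, ‖h y - h p‖ₑ
      ≤ ∫⁻ y in Q, ∫⁻ s in Ioo (0:ℝ) 1,
        ENNReal.ofReal (2 * t) * ‖fderiv ℝ h (p + s • (y - p))‖ₑ :=
        setLIntegral_mono' hQm h1
    _ = ∫⁻ s in Ioo (0:ℝ) 1, ∫⁻ y in Q,
        ENNReal.ofReal (2 * t) * ‖fderiv ℝ h (p + s • (y - p))‖ₑ := by
        apply lintegral_lintegral_swap
        apply Measurable.aemeasurable
        apply Measurable.const_mul
        apply Continuous.measurable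
        apply Continuous.enorm
        apply hd.comp
        fun_prop
    _ ≤ ∫⁻ s in Ioo (0:ℝ) 1, ENNReal.ofReal (2 * t) * (ENNReal.ofReal (s ^ (-α)) *
        (I ^ (1 / ((m:ℝ) + 1)) * volume Q ^ (1 - 1 / ((m:ℝ) + 1)))) := by
        apply setLIntegral_mono' measurableSet_Ioo
        intro s hs
        rw [lintegral_const_mul' _ _ ENNReal.ofReal_ne_top]
        gcongr
        exact h2 s hs
    _ = _ := by
        rw [lintegral_const_mul' _ _ ENNReal.ofReal_ne_top]
        congr 1
        rw [lintegral_mul_const]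
        · rw [rpow_lint]
        · apply ENNReal.measurable_ofReal.comp
          fun_prop

/-- Morrey's inequality on a cube of dimension `m` with exponent `m + 1` -/
lemma morrey (h : (Fin m → ℝ) → F) (hh : ContDiff ℝ 1 h) (c p q : Fin m → ℝ) (t : ℝ)
    (ht : 0 < t) (hp : p ∈ closedBall c t) (hq : q ∈ closedBall c t) :
    ‖h p - h q‖ₑ ^ (m + 1) ≤ ENNReal.ofReal ((4 * ((m:ℝ) + 1)) ^ (m + 1) * t) *
      ∫⁻ y in closedBall c t, ‖fderiv ℝ h y‖ₑ ^ (m + 1) := by
  set Q := closedBall c t with hQ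
  set I := ∫⁻ y in Q, ‖fderiv ℝ h y‖ₑ ^ (m + 1) with hI
  have hm1 : (0:ℝ) < (m:ℝ) + 1 := by positivity
  have hV : volume Q = ENNReal.ofReal ((2 * t) ^ m) := by
    rw [hQ, Real.volume_pi_closedBall _ ht.le]
    simp
  have hV0 : volume Q ≠ 0 := by
    rw [hV]
    simp
    positivity
  have hVt : volume Q ≠ ⊤ := by rw [hV]; simp
  have h1 := morrey_half h hh c p t ht hp
  have h2 := morrey_half h hh c q t ht hq
  rw [← hQ, ← hI] at h1 h2
  set A := ENNReal.ofReal (2 * t) * (ENNReal.ofReal ((m:ℝ) + 1) *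
        (I ^ (1 / ((m:ℝ) + 1)) * volume Q ^ (1 - 1 / ((m:ℝ) + 1)))) with hA
  have h3 : volume Q * ‖h p - h q‖ₑ ≤ 2 * A := by
    calc volume Q * ‖h p - h q‖ₑ = ∫⁻ y in Q, ‖h p - h q‖ₑ := by
          rw [setLIntegral_const, mul_comm]
      _ ≤ ∫⁻ y in Q, (‖h y - h p‖ₑ + ‖h y - h q‖ₑ) := by
          apply lintegral_mono
          intro y
          have : h p - h q = (h y - h q) - (h y - h p) := by abel
          simp only
          rw [this, add_comm ‖h y - h p‖ₑ]
          exact enorm_sub_le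
      _ = (∫⁻ y in Q, ‖h y - h p‖ₑ) + ∫⁻ y in Q, ‖h y - h q‖ₑ := by
          apply lintegral_add_left
          exact (hh.continuous.sub continuous_const).enorm.measurable
      _ ≤ A + A := add_le_add h1 h2
      _ = 2 * A := (two_mul A).symm
  -- raise to the power
  have h4 : (volume Q) ^ (m + 1) * ‖h p - h q‖ₑ ^ (m + 1) ≤
      ENNReal.ofReal ((4 * t * ((m:ℝ) + 1)) ^ (m + 1)) * (I * volume Q ^ m) := by
    rw [← mul_pow]
    refine (pow_le_pow_left' h3 (m + 1)).trans (le_of_eq ?_)
    rw [hA]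
    have e1 : 2 * (ENNReal.ofReal (2 * t) * (ENNReal.ofReal ((m:ℝ) + 1) *
        (I ^ (1 / ((m:ℝ) + 1)) * volume Q ^ (1 - 1 / ((m:ℝ) + 1))))) =
        ENNReal.ofReal (4 * t * ((m:ℝ) + 1)) *
        (I ^ (1 / ((m:ℝ) + 1)) * volume Q ^ (1 - 1 / ((m:ℝ) + 1))) := by
      have e2 : (2:ℝ≥0∞) = ENNReal.ofReal 2 := by simp
      rw [e2, ← mul_assoc, ← mul_assoc, ← ENNReal.ofReal_mul (by positivity),
        ← ENNReal.ofReal_mul (by positivity)]
      congr 2
      ring
    rw [e1, mul_pow, mul_pow, ← ENNReal.ofReal_pow (by positivity)]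
    congr 2
    · rw [← ENNReal.rpow_natCast, ← ENNReal.rpow_mul]
      push_cast
      rw [one_div, inv_mul_cancel₀ hm1.ne', ENNReal.rpow_one]
    · rw [← ENNReal.rpow_natCast, ← ENNReal.rpow_mul, ← ENNReal.rpow_natCast]
      congr 1
      push_cast
      field_simp
      ring
  -- cancel
  have h5 : volume Q * ‖h p - h q‖ₑ ^ (m + 1) ≤
      ENNReal.ofReal ((4 * t * ((m:ℝ) + 1)) ^ (m + 1)) * I := by
    have hVm0 : volume Q ^ m ≠ 0 := pow_ne_zero _ hV0
    have hVmt : volume Q ^ m ≠ ⊤ := ENNReal.pow_ne_top hVt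
    have h6 : volume Q ^ m * (volume Q * ‖h p - h q‖ₑ ^ (m + 1)) ≤
        volume Q ^ m * (ENNReal.ofReal ((4 * t * ((m:ℝ) + 1)) ^ (m + 1)) * I) := by
      calc volume Q ^ m * (volume Q * ‖h p - h q‖ₑ ^ (m + 1))
          = (volume Q) ^ (m + 1) * ‖h p - h q‖ₑ ^ (m + 1) := by rw [pow_succ]; ring
        _ ≤ _ := h4
        _ = _ := by ring
    exact (ENNReal.mul_le_mul_iff_right hVm0 hVmt).mp h6
  rw [hV] at h5
  have h6 : ENNReal.ofReal ((2 * t) ^ m) ≠ 0 := by
    simp
    positivity
  have h7 : ENNReal.ofReal ((2 * t) ^ m) * ‖h p - h q‖ₑ ^ (m + 1) ≤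
      ENNReal.ofReal ((2 * t) ^ m) *
        (ENNReal.ofReal ((4 * ((m:ℝ) + 1)) ^ (m + 1) * t) * I) := by
    refine h5.trans ?_
    rw [← mul_assoc, ← ENNReal.ofReal_mul (by positivity)]
    gcongr
    have h8 : (4 * t * ((m:ℝ) + 1)) ^ (m + 1) = t ^ m * ((4 * ((m:ℝ) + 1)) ^ (m + 1) * t) := by
      have : 4 * t * ((m:ℝ) + 1) = t * (4 * ((m:ℝ) + 1)) := by ring
      rw [this, mul_pow, pow_succ t]
      ring
    rw [h8]
    gcongr
    linarith
  exact (ENNReal.mul_le_mul_iff_right h6 (by simp)).mp h7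

/-- the slice map -/
def slice (i : Fin (m + 1)) (r : ℝ) (w : Fin m → ℝ) : Fin (m + 1) → ℝ := i.insertNth r w

lemma slice_eq (i : Fin (m + 1)) (p : Fin (m + 1) → ℝ) :
    slice i (p i) (i.removeNth p) = p := by
  unfold slice
  exact Fin.insertNth_self_removeNth i p

/-- linear part of the slice map -/
noncomputable def sliceL (i : Fin (m + 1)) : (Fin m → ℝ) →L[ℝ] (Fin (m + 1) → ℝ) :=
  LinearMap.toContinuousLinearMap
    { toFun := fun w => i.insertNth 0 w
      map_add' := by
        intro a b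
        ext j
        refine Fin.succAboveCases i ?_ (fun j => ?_) j
        · simp
        · simp
      map_smul' := by
        intro r a
        ext j
        refine Fin.succAboveCases i ?_ (fun j => ?_) j
        · simp
        · simp }

lemma sliceL_norm (i : Fin (m + 1)) : ‖sliceL (m := m) i‖ ≤ 1 := by
  apply ContinuousLinearMap.opNorm_le_bound _ zero_le_one
  intro w
  rw [one_mul]
  rw [pi_norm_le_iff_of_nonneg (norm_nonneg _)]
  intro j
  refine Fin.succAboveCases i ?_ (fun j => ?_) j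
  · have : (sliceL i w) i = 0 := by simp [sliceL]
    rw [this]; simp
  · have : (sliceL i w) (i.succAbove j) = w j := by simp [sliceL]
    rw [this]
    exact norm_le_pi_norm w j

lemma slice_hasFDerivAt (i : Fin (m + 1)) (r : ℝ) (w : Fin m → ℝ) :
    HasFDerivAt (slice i r) (sliceL i) w := by
  have h1 : slice i r = fun w => (slice i r 0) + sliceL i w := by
    ext w j
    refine Fin.succAboveCases i ?_ (fun j => ?_) j
    · simp [slice, sliceL]
    · simp [slice, sliceL]
  rw [h1]
  exact (sliceL i).hasFDerivAt.const_add _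

lemma slice_contDiff (i : Fin (m + 1)) (r : ℝ) : ContDiff ℝ 1 (slice (m := m) i r) := by
  have h1 : slice i r = fun w => (slice i r 0) + sliceL i w := by
    ext w j
    refine Fin.succAboveCases i ?_ (fun j => ?_) j
    · simp [slice, sliceL]
    · simp [slice, sliceL]
  rw [h1]
  exact contDiff_const.add (sliceL i).contDiff

/-- energy of `u` on the face `p i = r` of the cube of centre `x` and half side `t` -/
noncomputable def faceI (u : (Fin (m + 1) → ℝ) → F) (x : Fin (m + 1) → ℝ) (i : Fin (m + 1))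
    (r t : ℝ) : ℝ≥0∞ :=
  ∫⁻ w in closedBall (i.removeNth x) t, ‖fderiv ℝ u (slice i r w)‖ₑ ^ (m + 1)

lemma face_morrey (u : (Fin (m + 1) → ℝ) → F) (hu : ContDiff ℝ 1 u) (x p q : Fin (m + 1) → ℝ)
    (i : Fin (m + 1)) (r t : ℝ) (ht : 0 < t) (hp : dist p x ≤ t) (hq : dist q x ≤ t)
    (hpi : p i = r) (hqi : q i = r) :
    ‖u p - u q‖ₑ ^ (m + 1) ≤ ENNReal.ofReal ((4 * ((m:ℝ) + 1)) ^ (m + 1) * t) *
      faceI u x i r t := by
  set h : (Fin m → ℝ) → F := fun w => u (slice i r w) with hh
  have hhs : ContDiff ℝ 1 h := hu.comp (slice_contDiff i r)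
  have hmem : ∀ p : Fin (m + 1) → ℝ, dist p x ≤ t →
      i.removeNth p ∈ closedBall (i.removeNth x) t := by
    intro p hp
    rw [mem_closedBall, dist_pi_le_iff ht.le]
    intro j
    exact (dist_le_pi_dist p x (i.succAbove j)).trans hp
  have h1 := morrey h hhs (i.removeNth x) (i.removeNth p) (i.removeNth q) t ht
    (hmem p hp) (hmem q hq)
  have e1 : h (i.removeNth p) = u p := by
    simp only [hh]; rw [← hpi, slice_eq]
  have e2 : h (i.removeNth q) = u q := by
    simp only [hh]; rw [← hqi, slice_eq]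
  rw [e1, e2] at h1
  refine h1.trans ?_
  gcongr
  unfold faceI
  apply lintegral_mono
  intro w
  simp only
  gcongr
  have h2 : HasFDerivAt h ((fderiv ℝ u (slice i r w)).comp (sliceL i)) w :=
    ((hu.differentiable (by norm_num) _).hasFDerivAt).comp w (slice_hasFDerivAt i r w)
  rw [h2.fderiv, ← ofReal_norm, ← ofReal_norm]
  apply ENNReal.ofReal_le_ofReal
  refine (ContinuousLinearMap.opNorm_comp_le _ _).trans ?_
  calc ‖fderiv ℝ u (slice i r w)‖ * ‖sliceL (m := m) i‖
      ≤ ‖fderiv ℝ u (slice i r w)‖ * 1 := by gcongr; exact sliceL_norm i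
    _ = _ := mul_one _

/-- total energy on the faces -/
noncomputable def faceS (u : (Fin (m + 1) → ℝ) → F) (x : Fin (m + 1) → ℝ) (t : ℝ) : ℝ≥0∞ :=
  ∑ i : Fin (m + 1), (faceI u x i (x i + t) t + faceI u x i (x i - t) t)

lemma face_le (u : (Fin (m + 1) → ℝ) → F) (x : Fin (m + 1) → ℝ) (t : ℝ) (i : Fin (m + 1))
    (r : ℝ) (hr : r = x i + t ∨ r = x i - t) : faceI u x i r t ≤ faceS u x t := by
  unfold faceS
  refine le_trans ?_ (Finset.single_le_sum (f := fun i => faceI u x i (x i + t) t +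
    faceI u x i (x i - t) t) (fun _ _ => zero_le) (Finset.mem_univ i))
  rcases hr with rfl | rfl
  · exact le_self_add
  · exact le_add_self

lemma three_pow (a b c d : ℝ≥0∞) (n : ℕ) (M : ℝ≥0∞) (hd : d ≤ a + b + c) (ha : a ^ n ≤ M)
    (hb : b ^ n ≤ M) (hc : c ^ n ≤ M) : d ^ n ≤ 3 ^ n * M := by
  have h1 : d ≤ 3 * max (max a b) c := by
    refine hd.trans ?_
    have e1 : a ≤ max (max a b) c := (le_max_left _ _).trans (le_max_left _ _)
    have e2 : b ≤ max (max a b) c := (le_max_right _ _).trans (le_max_left _ _)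
    have e3 : c ≤ max (max a b) c := le_max_right _ _
    calc a + b + c ≤ max (max a b) c + max (max a b) c + max (max a b) c := by gcongr
      _ = 3 * max (max a b) c := by ring
  calc d ^ n ≤ (3 * max (max a b) c) ^ n := by gcongr
    _ = 3 ^ n * (max (max a b) c) ^ n := mul_pow _ _ _
    _ ≤ 3 ^ n * M := by
        gcongr
        rcases le_total (max a b) c with h | h
        · rw [max_eq_right h]; exact hc
        · rw [max_eq_left h]
          rcases le_total a b with h' | h'
          · rw [max_eq_right h']; exact hb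
          · rw [max_eq_left h']; exact ha

/-- oscillation on the boundary of a cube -/
lemma sphere_morrey (hm : 1 ≤ m) (u : (Fin (m + 1) → ℝ) → F) (hu : ContDiff ℝ 1 u)
    (x p q : Fin (m + 1) → ℝ) (t : ℝ) (ht : 0 < t) (hp : dist p x = t) (hq : dist q x = t) :
    ‖u p - u q‖ₑ ^ (m + 1) ≤ 3 ^ (m + 1) *
      (ENNReal.ofReal ((4 * ((m:ℝ) + 1)) ^ (m + 1) * t) * faceS u x t) := by
  classical
  -- faces of points
  have hface : ∀ p : Fin (m + 1) → ℝ, dist p x = t → ∃ i, p i = x i + t ∨ p i = x i - t := by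
    intro p hp
    obtain ⟨i, hi⟩ : ∃ i, t ≤ dist (p i) (x i) := by
      by_contra hcon
      push Not at hcon
      have := (dist_pi_lt_iff ht).mpr hcon
      linarith
    refine ⟨i, ?_⟩
    have h1 : dist (p i) (x i) = t := le_antisymm ((dist_le_pi_dist p x i).trans hp.le) hi
    rw [Real.dist_eq] at h1
    rcases abs_cases (p i - x i) with ⟨h2, _⟩ | ⟨h2, _⟩
    · left; linarith
    · right; linarith
  have key : ∀ (a b : Fin (m + 1) → ℝ) (i : Fin (m + 1)), dist a x ≤ t → dist b x ≤ t →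
      (a i = x i + t ∨ a i = x i - t) → b i = a i →
      ‖u a - u b‖ₑ ^ (m + 1) ≤
        ENNReal.ofReal ((4 * ((m:ℝ) + 1)) ^ (m + 1) * t) * faceS u x t := by
    intro a b i ha hb hai hbi
    refine (face_morrey u hu x a b i (a i) t ht ha hb rfl hbi).trans ?_
    gcongr
    exact face_le u x t i _ hai
  obtain ⟨i, hi⟩ := hface p hp
  obtain ⟨j, hj⟩ := hface q hq
  have hcorner : ∀ (i j : Fin (m + 1)) (r s : ℝ), i ≠ j → |r - x i| = t → |s - x j| = t →
      ∃ c : Fin (m + 1) → ℝ, dist c x ≤ t ∧ c i = r ∧ c j = s := by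
    intro i j r s hij hr hs
    refine ⟨Function.update (Function.update x i r) j s, ?_, ?_, ?_⟩
    · rw [dist_pi_le_iff ht.le]
      intro k
      by_cases hkj : k = j
      · subst hkj; rw [Function.update_self, Real.dist_eq, hs]
      · rw [Function.update_of_ne hkj]
        by_cases hki : k = i
        · subst hki; rw [Function.update_self, Real.dist_eq, hr]
        · rw [Function.update_of_ne hki, dist_self]; exact ht.le
    · rw [Function.update_of_ne hij, Function.update_self]
    · rw [Function.update_self]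
  have habs : ∀ (i : Fin (m + 1)) (r : ℝ), (r = x i + t ∨ r = x i - t) → |r - x i| = t := by
    intro i r hr
    rcases hr with rfl | rfl
    · rw [add_sub_cancel_left, abs_of_pos ht]
    · rw [sub_sub_cancel_left, abs_neg, abs_of_pos ht]
  by_cases hij : i = j
  · subst hij
    -- third face
    obtain ⟨k, hk⟩ : ∃ k : Fin (m + 1), i ≠ k := by
      have : Nontrivial (Fin (m + 1)) := Fin.nontrivial_iff_two_le.mpr (by omega)
      obtain ⟨k, hk⟩ := exists_ne i
      exact ⟨k, hk.symm⟩
    obtain ⟨c, hc1, hc2, hc3⟩ := hcorner i k (p i) (x k + t) hk (habs i _ hi)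
      (habs k _ (Or.inl rfl))
    obtain ⟨c', hc1', hc2', hc3'⟩ := hcorner i k (q i) (x k + t) hk (habs i _ hj)
      (habs k _ (Or.inl rfl))
    apply three_pow ‖u p - u c‖ₑ ‖u c - u c'‖ₑ ‖u c' - u q‖ₑ
    · have : u p - u q = (u p - u c) + (u c - u c') + (u c' - u q) := by abel
      rw [this]
      exact (enorm_add_le _ _).trans (by gcongr; exact enorm_add_le _ _)
    · exact key p c i hp.le hc1 hi hc2
    · exact key c c' k hc1 hc1' (Or.inl hc3) (by rw [hc3, hc3'])
    · exact key c' q i hc1' hq.le (by rw [hc2']; exact hj) hc2'.symm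
  · obtain ⟨c, hc1, hc2, hc3⟩ := hcorner i j (p i) (q j) hij (habs i _ hi) (habs j _ hj)
    apply three_pow ‖u p - u c‖ₑ ‖u c - u q‖ₑ ‖u q - u q‖ₑ
    · have : u p - u q = (u p - u c) + (u c - u q) + (u q - u q) := by abel
      rw [this]
      exact (enorm_add_le _ _).trans (by gcongr; exact enorm_add_le _ _)
    · exact key p c i hp.le hc1 hi hc2
    · exact key c q j hc1 hq.le (by rw [hc3]; exact hj) hc3.symm
    · exact key q q j hq.le hq.le hj rfl

/-- integral over the faces -/
lemma face_integral (u : (Fin (m + 1) → ℝ) → F) (hu : ContDiff ℝ 1 u)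
    (x : Fin (m + 1) → ℝ) (a b : ℝ) (ha : 0 < a) (i : Fin (m + 1)) (σ : ℝ)
    (hσ : σ = 1 ∨ σ = -1) :
    ∫⁻ t in Ioo a b, faceI u x i (x i + σ * t) t ≤
      ∫⁻ z in closedBall x b, ‖fderiv ℝ u z‖ₑ ^ (m + 1) := by
  classical
  have hd : Continuous (fderiv ℝ u) := hu.continuous_fderiv (by norm_num)
  set G : (Fin (m + 1) → ℝ) → ℝ≥0∞ := (closedBall x b).indicator
    (fun z => ‖fderiv ℝ u z‖ₑ ^ (m + 1)) with hG
  have hGm : Measurable G :=
    (hd.enorm.measurable.pow_const _).indicator measurableSet_closedBall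
  have hsl : Measurable fun p : ℝ × (Fin m → ℝ) => G (slice i p.1 p.2) := by
    have := (MeasurableEquiv.piFinSuccAbove (fun _ : Fin (m + 1) => ℝ) i).symm.measurable
    exact hGm.comp this
  have e1 : ∫⁻ z in closedBall x b, ‖fderiv ℝ u z‖ₑ ^ (m + 1) =
      ∫⁻ r : ℝ, ∫⁻ w : Fin m → ℝ, G (slice i r w) := by
    rw [← lintegral_indicator measurableSet_closedBall]
    have h1 := (volume_preserving_piFinSuccAbove (fun _ : Fin (m + 1) => ℝ) i).symm
    have h7 := lintegral_prod (μ := (volume : Measure ℝ)) (ν := (volume : Measure (Fin m → ℝ)))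
      (fun p => G (slice i p.1 p.2)) hsl.aemeasurable
    rw [← h1.lintegral_comp hGm, Measure.volume_eq_prod]
    exact h7
  rw [e1]
  have e2 : ∫⁻ r : ℝ, ∫⁻ w : Fin m → ℝ, G (slice i r w) =
      ∫⁻ t : ℝ, ∫⁻ w : Fin m → ℝ, G (slice i (x i + σ * t) w) := by
    rcases hσ with rfl | rfl
    · simp only [one_mul]
      exact (lintegral_add_left_eq_self
        (fun r => ∫⁻ w : Fin m → ℝ, G (slice i r w)) (x i)).symm
    · have := (lintegral_sub_left_eq_self (μ := (volume : Measure ℝ))
        (fun r : ℝ => ∫⁻ w : Fin m → ℝ, G (slice i r w)) (x i)).symm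
      rw [this]
      apply lintegral_congr
      intro t
      congr 2
      ring_nf
  rw [e2, ← lintegral_indicator measurableSet_Ioo]
  apply lintegral_mono
  intro t
  by_cases htt : t ∈ Ioo a b
  · simp only [indicator_of_mem htt]
    unfold faceI
    rw [← lintegral_indicator measurableSet_closedBall]
    apply lintegral_mono
    intro w
    by_cases hw : w ∈ closedBall (i.removeNth x) t
    · simp only [indicator_of_mem hw]
      have hmem : slice i (x i + σ * t) w ∈ closedBall x b := by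
        rw [mem_closedBall, dist_pi_le_iff (by linarith [htt.1, htt.2])]
        intro j
        have htb : t ≤ b := htt.2.le
        have ht0 : 0 < t := ha.trans htt.1
        refine Fin.succAboveCases i ?_ (fun j => ?_) j
        · have : slice i (x i + σ * t) w i = x i + σ * t := by simp [slice]
          rw [this, Real.dist_eq, add_sub_cancel_left]
          rcases hσ with rfl | rfl
          · rw [one_mul, abs_of_pos ht0]; exact htb
          · rw [neg_one_mul, abs_neg, abs_of_pos ht0]; exact htb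
        · have : slice i (x i + σ * t) w (i.succAbove j) = w j := by simp [slice]
          rw [this]
          rw [mem_closedBall] at hw
          exact ((dist_le_pi_dist w (i.removeNth x) j).trans hw).trans htb
      rw [hG, indicator_of_mem hmem]
    · simp only [indicator_of_notMem hw]
      exact zero_le
  · simp only [indicator_of_notMem htt]
    exact zero_le

/-- **Lemma E** -/
theorem lemmaE (hm : 1 ≤ m) (u : (Fin (m + 1) → ℝ) → F) (hu : ContDiff ℝ 1 u)
    (x : Fin (m + 1) → ℝ) (a b τ : ℝ) (ha : 0 < a) (hab : a < b) (hτ : 0 ≤ τ)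
    (h : ∀ t ∈ Ioo a b, ∃ p q, dist p x = t ∧ dist q x = t ∧ τ ≤ dist (u p) (u q)) :
    ENNReal.ofReal (τ ^ (m + 1) * Real.log (b / a)) ≤
      ENNReal.ofReal (3 ^ (m + 1) * (4 * ((m:ℝ) + 1)) ^ (m + 1) * (2 * ((m:ℝ) + 1))) *
        ∫⁻ z in closedBall x b, ‖fderiv ℝ u z‖ₑ ^ (m + 1) := by
  set D : ℝ := 3 ^ (m + 1) * (4 * ((m:ℝ) + 1)) ^ (m + 1) with hD
  set I := ∫⁻ z in closedBall x b, ‖fderiv ℝ u z‖ₑ ^ (m + 1) with hI
  -- pointwise
  have h1 : ∀ t ∈ Ioo a b, ENNReal.ofReal (τ ^ (m + 1) * t⁻¹) ≤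
      ENNReal.ofReal D * faceS u x t := by
    intro t ht
    have ht0 : 0 < t := ha.trans ht.1
    obtain ⟨p, q, hp, hq, hpq⟩ := h t ht
    have h2 := sphere_morrey hm u hu x p q t ht0 hp hq
    have h3 : ENNReal.ofReal (τ ^ (m + 1)) ≤ ‖u p - u q‖ₑ ^ (m + 1) := by
      rw [ENNReal.ofReal_pow hτ]
      gcongr
      rw [← ofReal_norm]
      apply ENNReal.ofReal_le_ofReal
      rwa [← dist_eq_norm]
    have h4 := h3.trans h2
    calc ENNReal.ofReal (τ ^ (m + 1) * t⁻¹)
        = ENNReal.ofReal (t⁻¹) * ENNReal.ofReal (τ ^ (m + 1)) := by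
          rw [← ENNReal.ofReal_mul (by positivity), mul_comm]
      _ ≤ ENNReal.ofReal (t⁻¹) * (3 ^ (m + 1) *
        (ENNReal.ofReal ((4 * ((m:ℝ) + 1)) ^ (m + 1) * t) * faceS u x t)) := by gcongr
      _ = ENNReal.ofReal D * faceS u x t := by
          have e3 : (3:ℝ≥0∞) ^ (m + 1) = ENNReal.ofReal (3 ^ (m + 1)) := by
            rw [ENNReal.ofReal_pow (by norm_num)]
            simp
          rw [e3, ← mul_assoc, ← mul_assoc, ← ENNReal.ofReal_mul (by positivity),
            ← ENNReal.ofReal_mul (by positivity)]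
          congr 2
          rw [hD]
          field_simp
  -- integrate
  have h2 : ∫⁻ t in Ioo a b, ENNReal.ofReal (τ ^ (m + 1) * t⁻¹) =
      ENNReal.ofReal (τ ^ (m + 1) * Real.log (b / a)) := by
    have hint : IntegrableOn (fun t : ℝ => τ ^ (m + 1) * t⁻¹) (Ioo a b) volume := by
      have h3 : IntervalIntegrable (fun t : ℝ => t⁻¹) volume a b := by
        apply intervalIntegral.intervalIntegrable_inv
        · intro t ht
          rw [uIcc_of_le hab.le] at ht
          exact (lt_of_lt_of_le ha ht.1).ne'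
        · exact continuousOn_id
      have h4 := (intervalIntegrable_iff_integrableOn_Ioo_of_le hab.le).mp h3
      exact h4.const_mul _
    rw [← ofReal_integral_eq_lintegral_ofReal hint]
    · congr 1
      rw [integral_const_mul, ← integral_Ioc_eq_integral_Ioo,
        ← intervalIntegral.integral_of_le hab.le, integral_inv_of_pos ha (ha.trans hab)]
    · filter_upwards [ae_restrict_mem measurableSet_Ioo] with t ht
      have : 0 < t := ha.trans ht.1
      simp only [Pi.zero_apply]
      positivity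
  have hfm : ∀ (i : Fin (m + 1)) (σ : ℝ), (σ = 1 ∨ σ = -1) →
      Measurable fun t => faceI u x i (x i + σ * t) t := by
    intro i σ _
    unfold faceI
    have e1 : ∀ t, ∫⁻ w in closedBall (i.removeNth x) t,
        ‖fderiv ℝ u (slice i (x i + σ * t) w)‖ₑ ^ (m + 1) =
        ∫⁻ w, (closedBall (i.removeNth x) t).indicator
          (fun w => ‖fderiv ℝ u (slice i (x i + σ * t) w)‖ₑ ^ (m + 1)) w := fun t =>
      (lintegral_indicator measurableSet_closedBall _).symm
    simp only [e1]
    suffices h9 : Measurable fun p : ℝ × (Fin m → ℝ) => (closedBall (i.removeNth x) p.1).indicator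
          (fun w => ‖fderiv ℝ u (slice i (x i + σ * p.1) w)‖ₑ ^ (m + 1)) p.2 from
      h9.lintegral_prod_right'
    have hd : Continuous (fderiv ℝ u) := hu.continuous_fderiv (by norm_num)
    have h5 : (fun p : ℝ × (Fin m → ℝ) => (closedBall (i.removeNth x) p.1).indicator
          (fun w => ‖fderiv ℝ u (slice i (x i + σ * p.1) w)‖ₑ ^ (m + 1)) p.2) =
        ({p : ℝ × (Fin m → ℝ) | dist p.2 (i.removeNth x) ≤ p.1}).indicator
          (fun p => ‖fderiv ℝ u (slice i (x i + σ * p.1) p.2)‖ₑ ^ (m + 1)) := by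
      ext p
      by_cases hp : dist p.2 (i.removeNth x) ≤ p.1
      · rw [indicator_of_mem (by exact hp), indicator_of_mem (by exact hp)]
      · rw [indicator_of_notMem (by exact hp), indicator_of_notMem (by exact hp)]
    rw [h5]
    apply Measurable.indicator
    · apply Measurable.pow_const
      apply Continuous.measurable
      apply Continuous.enorm
      apply hd.comp
      have h6 : (fun p : ℝ × (Fin m → ℝ) => slice i (x i + σ * p.1) p.2) =
          fun p => slice i 0 0 + (x i + σ * p.1) • (Pi.single i (1:ℝ) : Fin (m + 1) → ℝ) +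
            sliceL i p.2 := by
        ext p j
        refine Fin.succAboveCases i ?_ (fun j => ?_) j
        · simp [slice, sliceL]
        · simp [slice, sliceL, Fin.succAbove_ne]
      rw [h6]
      fun_prop
    · exact (isClosed_le (by fun_prop) (by fun_prop)).measurableSet
  have h3 : ∫⁻ t in Ioo a b, faceS u x t ≤ ENNReal.ofReal (2 * ((m:ℝ) + 1)) * I := by
    unfold faceS
    have e1 : ∀ (t : ℝ) (i : Fin (m + 1)), faceI u x i (x i + t) t + faceI u x i (x i - t) t =
        faceI u x i (x i + 1 * t) t + faceI u x i (x i + (-1) * t) t := by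
      intro t i
      congr 2 <;> ring
    simp only [e1]
    rw [lintegral_finsetSum]
    · calc ∑ i : Fin (m + 1), ∫⁻ t in Ioo a b,
          (faceI u x i (x i + 1 * t) t + faceI u x i (x i + (-1) * t) t)
          ≤ ∑ i : Fin (m + 1), (I + I) := by
            apply Finset.sum_le_sum
            intro i _
            rw [lintegral_add_left (hfm i 1 (Or.inl rfl))]
            exact add_le_add (face_integral u hu x a b ha i 1 (Or.inl rfl))
              (face_integral u hu x a b ha i (-1) (Or.inr rfl))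
        _ = ENNReal.ofReal (2 * ((m:ℝ) + 1)) * I := by
            rw [Finset.sum_const, Finset.card_univ, Fintype.card_fin, nsmul_eq_mul,
              ENNReal.ofReal_mul (by norm_num)]
            have : ENNReal.ofReal ((m:ℝ) + 1) = ((m + 1 : ℕ) : ℝ≥0∞) := by
              rw [← ENNReal.ofReal_natCast]; push_cast; rfl
            rw [this]
            simp
            ring
    · intro i _
      exact (hfm i 1 (Or.inl rfl)).add (hfm i (-1) (Or.inr rfl))
  calc ENNReal.ofReal (τ ^ (m + 1) * Real.log (b / a))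
      = ∫⁻ t in Ioo a b, ENNReal.ofReal (τ ^ (m + 1) * t⁻¹) := h2.symm
    _ ≤ ∫⁻ t in Ioo a b, ENNReal.ofReal D * faceS u x t :=
        setLIntegral_mono' measurableSet_Ioo h1
    _ = ENNReal.ofReal D * ∫⁻ t in Ioo a b, faceS u x t :=
        lintegral_const_mul' _ _ ENNReal.ofReal_ne_top
    _ ≤ ENNReal.ofReal D * (ENNReal.ofReal (2 * ((m:ℝ) + 1)) * I) := by gcongr
    _ = _ := by
        rw [← mul_assoc, ← ENNReal.ofReal_mul (by positivity)]

end Morrey

end Pool.Agent.Work.MP_0f0f21_an
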