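import Pool.Agent.Work.MP_0f0f21_an.Comp
import Pool.Agent.Work.MP_0f0f21_an.LemmaE

set_option autoImplicit false

open MeasureTheory Metric Set Filter Topology
open scoped ENNReal NNReal ContDiff

namespace Pool.Agent.Work.MP_0f0f21_an

lemma enorm_add_le' {V : Type*} [NormedAddCommGroup V] (a b : V) :
    ‖a + b‖ₑ ≤ ‖a‖ₑ + ‖b‖ₑ := enorm_add_le a b

/-- the constant of Lemma E in Euclidean space -/
noncomputable def cE (m : ℕ) : ℝ :=
  3 ^ (m + 1) * (4 * ((m:ℝ) + 1)) ^ (m + 1) * (2 * ((m:ℝ) + 1)) *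
    ‖((EuclideanSpace.equiv (Fin (m + 1)) ℝ).symm :
      (Fin (m + 1) → ℝ) →L[ℝ] E (m + 1))‖ ^ (m + 1)

lemma cE_nonneg (m : ℕ) : 0 ≤ cE m := by
  unfold cE
  positivity

/-- Lemma E in Euclidean space, for `C^1` maps -/
lemma lemmaE' {m : ℕ} {F : Type} [NormedAddCommGroup F] [NormedSpace ℝ F] [CompleteSpace F]
    (hm : 1 ≤ m) (u : E (m + 1) → F) (hu : ContDiff ℝ 1 u)
    (x : E (m + 1)) (a b τ : ℝ) (ha : 0 < a) (hab : a < b) (hτ : 0 ≤ τ)
    (h : ∀ t ∈ Ioo a b, ∃ p q, sd x p = t ∧ sd x q = t ∧ τ ≤ dist (u p) (u q)) :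
    ENNReal.ofReal (τ ^ (m + 1) * Real.log (b / a)) ≤
      ENNReal.ofReal (cE m) * ∫⁻ z in {z | sd x z ≤ b}, ‖fderiv ℝ u z‖ₑ ^ (m + 1) := by
  set L : (Fin (m + 1) → ℝ) →L[ℝ] E (m + 1) :=
    ((EuclideanSpace.equiv (Fin (m + 1)) ℝ).symm : (Fin (m + 1) → ℝ) →L[ℝ] E (m + 1)) with hL
  have hLt : ∀ w, L w = WithLp.toLp 2 w := fun w => rfl
  set v : (Fin (m + 1) → ℝ) → F := fun w => u (L w) with hv
  have hvs : ContDiff ℝ 1 v := hu.comp L.contDiff
  have h1 := lemmaE hm v hvs (WithLp.ofLp x) a b τ ha hab hτ (by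
    intro t ht
    obtain ⟨p, q, hp, hq, hpq⟩ := h t ht
    refine ⟨WithLp.ofLp p, WithLp.ofLp q, ?_, ?_, ?_⟩
    · rw [dist_comm]; exact hp
    · rw [dist_comm]; exact hq
    · exact hpq)
  refine h1.trans ?_
  unfold cE
  rw [ENNReal.ofReal_mul (q := ‖L‖ ^ (m + 1)) (by positivity),
    mul_assoc (ENNReal.ofReal (3 ^ (m + 1) * (4 * ((m:ℝ) + 1)) ^ (m + 1) * (2 * ((m:ℝ) + 1))))]
  gcongr
  have h2 : ∫⁻ z in {z | sd x z ≤ b}, ‖fderiv ℝ u z‖ₑ ^ (m + 1) =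
      ∫⁻ w in closedBall (WithLp.ofLp x) b, ‖fderiv ℝ u (WithLp.toLp 2 w)‖ₑ ^ (m + 1) := by
    have hmp := PiLp.volume_preserving_toLp (Fin (m + 1))
    have hme : MeasurableEmbedding (@WithLp.toLp 2 (Fin (m + 1) → ℝ)) :=
      (MeasurableEquiv.toLp 2 (Fin (m + 1) → ℝ)).measurableEmbedding
    rw [← hmp.setLIntegral_comp_preimage_emb hme]
    congr 2
    ext w
    simp only [mem_preimage, mem_ofPred_eq, mem_closedBall, sd]
    rw [dist_comm]
  rw [h2, ← lintegral_const_mul' _ _ ENNReal.ofReal_ne_top]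
  apply lintegral_mono
  intro w
  simp only
  rw [ENNReal.ofReal_pow (norm_nonneg _), ← mul_pow]
  gcongr
  have h3 : HasFDerivAt v ((fderiv ℝ u (L w)).comp L) w :=
    ((hu.differentiable (by norm_num) _).hasFDerivAt).comp w L.hasFDerivAt
  rw [h3.fderiv, ← ofReal_norm, ← ofReal_norm, ← ENNReal.ofReal_mul (norm_nonneg _)]
  apply ENNReal.ofReal_le_ofReal
  rw [mul_comm]
  exact ContinuousLinearMap.opNorm_comp_le _ _

namespace QR

/-- uniform convergence composed with a continuous map -/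
lemma comp_unif {n : ℕ} (q : QR n) {V : Type} [NormedAddCommGroup V] (P : E n → V)
    (hP : Continuous P) (R ε : ℝ) (hε : 0 < ε) :
    ∀ᶠ k in atTop, ∀ x ∈ closedBall (0 : E n) R, dist (P (q.F k x)) (P (q.f x)) ≤ ε := by
  -- the values stay in a compact set
  obtain ⟨ρ, hρ⟩ := ((isCompact_closedBall (0 : E n) R).image q.hf).isBounded.subset_closedBall
    (0 : E n)
  have huc : UniformContinuousOn P (closedBall (0 : E n) (ρ + 1)) :=
    (isCompact_closedBall _ _).uniformContinuousOn_of_continuous hP.continuousOn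
  obtain ⟨δ, hδ, hd⟩ := Metric.uniformContinuousOn_iff.mp huc ε hε
  filter_upwards [q.F_unif R (min (δ / 2) 1) (by positivity)] with k hk x hx
  have h1 := hk x hx
  have h2 : q.f x ∈ closedBall (0 : E n) ρ := hρ ⟨x, hx, rfl⟩
  rw [mem_closedBall, dist_zero_right] at h2
  refine (hd _ ?_ _ ?_ ?_).le
  · rw [mem_closedBall, dist_zero_right]
    have h3 : ‖q.F k x‖ ≤ ‖q.f x‖ + dist (q.F k x) (q.f x) := by
      rw [dist_eq_norm]
      have := norm_add_le (q.f x) (q.F k x - q.f x)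
      simpa using this
    have := min_le_right (δ / 2) 1
    linarith
  · rw [mem_closedBall, dist_zero_right]; linarith
  · have := min_le_left (δ / 2) 1
    linarith

lemma comp_Ln {n : ℕ} (q : QR n) {F : Type} [NormedAddCommGroup F] [NormedSpace ℝ F]
    (Φ : E n → F) (hΦ : ContDiff ℝ 1 Φ) (R : ℝ) :
    Tendsto (fun k => ∫⁻ z in closedBall (0 : E n) R,
      ‖(fderiv ℝ Φ (q.F k z)).comp (fderiv ℝ (q.F k) z) -
        (fderiv ℝ Φ (q.f z)).comp (q.g z)‖ₑ ^ n) atTop (𝓝 0) := by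
  set μ' := volume.restrict (closedBall (0 : E n) R) with hμ'
  have hn := q.hn
  have hdΦ : Continuous (fderiv ℝ Φ) := hΦ.continuous_fderiv (by norm_num)
  obtain ⟨M, hM⟩ : ∃ M : ℝ, ∀ z ∈ closedBall (0 : E n) R, ‖fderiv ℝ Φ (q.f z)‖ ≤ M := by
    obtain ⟨M, hM⟩ := (isCompact_closedBall (0 : E n) R).exists_bound_of_continuousOn
      (hdΦ.comp q.hf).continuousOn
    exact ⟨M, hM⟩
  have hM' : ∀ z ∈ closedBall (0 : E n) R, ‖fderiv ℝ Φ (q.f z)‖ₑ ≤ ENNReal.ofReal M := by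
    intro z hz
    rw [← ofReal_norm]
    exact ENNReal.ofReal_le_ofReal (hM z hz)
  set G := ∫⁻ z in closedBall (0 : E n) R, ‖q.g z‖ₑ ^ n with hG
  have hGt : G ≠ ⊤ := q.g_Ln R
  set A : ℕ → ℝ≥0∞ := fun k => ∫⁻ z in closedBall (0 : E n) R,
    ‖fderiv ℝ (q.F k) z - q.g z‖ₑ ^ n with hA
  have hA0 : Tendsto A atTop (𝓝 0) := q.F_Ln R
  rw [ENNReal.tendsto_nhds_zero]
  intro ε hε
  -- the bound
  have hbd : ∀ δ : ℝ, 0 < δ → ∀ k, (∀ x ∈ closedBall (0 : E n) R,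
      dist (fderiv ℝ Φ (q.F k x)) (fderiv ℝ Φ (q.f x)) ≤ δ) →
      ∫⁻ z in closedBall (0 : E n) R, ‖(fderiv ℝ Φ (q.F k z)).comp (fderiv ℝ (q.F k) z) -
        (fderiv ℝ Φ (q.f z)).comp (q.g z)‖ₑ ^ n ≤
      2 ^ n * (ENNReal.ofReal δ ^ n * (2 ^ n * (A k + G)) + ENNReal.ofReal M ^ n * A k) := by
    intro δ hδ k hk
    have hFs := q.F_smooth k
    have hFd : Continuous (fderiv ℝ (q.F k)) := hFs.continuous_fderiv (by simp)
    have e0 : ∫⁻ z in closedBall (0 : E n) R, ‖(fderiv ℝ Φ (q.F k z)).comp (fderiv ℝ (q.F k) z) -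
        (fderiv ℝ Φ (q.f z)).comp (q.g z)‖ₑ ^ n ≤ ∫⁻ z in closedBall (0 : E n) R,
        (ENNReal.ofReal δ * ‖fderiv ℝ (q.F k) z‖ₑ +
          ENNReal.ofReal M * ‖fderiv ℝ (q.F k) z - q.g z‖ₑ) ^ n := by
      apply setLIntegral_mono' measurableSet_closedBall
      intro z hz
      gcongr
      have e1 : (fderiv ℝ Φ (q.F k z)).comp (fderiv ℝ (q.F k) z) -
        (fderiv ℝ Φ (q.f z)).comp (q.g z) =
        (fderiv ℝ Φ (q.F k z) - fderiv ℝ Φ (q.f z)).comp (fderiv ℝ (q.F k) z) +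
        (fderiv ℝ Φ (q.f z)).comp (fderiv ℝ (q.F k) z - q.g z) := by
        ext v
        simp
      rw [e1]
      refine (enorm_add_le' _ _).trans ?_
      gcongr
      · rw [← ofReal_norm, ← ofReal_norm, ← ENNReal.ofReal_mul hδ.le]
        apply ENNReal.ofReal_le_ofReal
        refine (ContinuousLinearMap.opNorm_comp_le _ _).trans ?_
        gcongr
        rw [← dist_eq_norm]
        exact hk z hz
      · rw [← ofReal_norm, ← ofReal_norm, ← ENNReal.ofReal_mul ((norm_nonneg _).trans (hM z hz))]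
        apply ENNReal.ofReal_le_ofReal
        refine (ContinuousLinearMap.opNorm_comp_le _ _).trans ?_
        gcongr
        exact hM z hz
    refine e0.trans ?_
    refine (lint_add_pow_le (volume.restrict (closedBall (0 : E n) R)) _
      (fun z => ENNReal.ofReal δ * ‖fderiv ℝ (q.F k) z‖ₑ)
      (fun z => ENNReal.ofReal M * ‖fderiv ℝ (q.F k) z - q.g z‖ₑ) n
      (hFd.enorm.measurable.const_mul _).aemeasurable (fun x => le_rfl)).trans ?_
    gcongr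
    · simp only [mul_pow]
      rw [lintegral_const_mul' _ _ (by simp)]
      gcongr
      refine (lint_add_pow_le (volume.restrict (closedBall (0 : E n) R)) _
        (fun z => ‖fderiv ℝ (q.F k) z - q.g z‖ₑ) (fun z => ‖q.g z‖ₑ) n
        (hFd.aestronglyMeasurable.sub q.hg.1.aestronglyMeasurable.restrict).enorm
        (fun x => ?_)).trans ?_
      · have : fderiv ℝ (q.F k) x = (fderiv ℝ (q.F k) x - q.g x) + q.g x := by abel
        conv_lhs => rw [this]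
        exact enorm_add_le' _ _
      · exact le_rfl
    · simp only [mul_pow]
      rw [lintegral_const_mul' _ _ (by simp)]
  -- choose δ
  obtain ⟨δ, hδ, hδε⟩ : ∃ δ : ℝ, 0 < δ ∧
      2 ^ n * (ENNReal.ofReal δ ^ n * (2 ^ n * (1 + G))) ≤ ε / 2 := by
    have ht : Tendsto (fun δ : ℝ => 2 ^ n * (ENNReal.ofReal δ ^ n * (2 ^ n * (1 + G))))
        (𝓝[>] 0) (𝓝 (2 ^ n * (0 ^ n * (2 ^ n * (1 + G))))) := by
      have h1 : Tendsto (fun δ : ℝ => ENNReal.ofReal δ) (𝓝[>] 0) (𝓝 0) := by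
        have := (ENNReal.tendsto_ofReal (tendsto_id (α := ℝ) (x := 𝓝 0))).mono_left
          (nhdsWithin_le_nhds (s := Ioi (0:ℝ)))
        simpa using this
      have h2 : Tendsto (fun δ : ℝ => ENNReal.ofReal δ ^ n) (𝓝[>] 0) (𝓝 (0 ^ n)) :=
        ((ENNReal.continuous_pow n).tendsto 0).comp h1
      have h3 := ENNReal.Tendsto.mul_const h2 (b := 2 ^ n * (1 + G)) (Or.inr (by
        apply ENNReal.mul_ne_top (by simp)
        exact ENNReal.add_ne_top.mpr ⟨by simp, hGt⟩))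
      exact ENNReal.Tendsto.const_mul h3 (Or.inr (by simp))
    rw [zero_pow (by omega)] at ht
    simp only [zero_mul, mul_zero] at ht
    have h1 := (ENNReal.tendsto_nhds_zero.mp ht (ε / 2) (ENNReal.half_pos hε.ne')).and
      self_mem_nhdsWithin
    obtain ⟨δ, h2, h3⟩ := h1.exists
    exact ⟨δ, h3, h2⟩
  have ht2 : Tendsto (fun k => 2 ^ n * (ENNReal.ofReal M ^ n * A k)) atTop (𝓝 0) := by
    have h3 := ENNReal.Tendsto.const_mul (a := ENNReal.ofReal M ^ n) hA0 (Or.inr (by simp))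
    have h4 := ENNReal.Tendsto.const_mul (a := (2:ℝ≥0∞) ^ n) h3 (Or.inr (by simp))
    simpa using h4
  filter_upwards [q.comp_unif (fderiv ℝ Φ) hdΦ R δ hδ,
    ENNReal.tendsto_nhds_zero.mp ht2 (ε / 2) (ENNReal.half_pos hε.ne'),
    ENNReal.tendsto_nhds_zero.mp hA0 1 zero_lt_one] with k hk1 hk2 hk3
  calc _ ≤ 2 ^ n * (ENNReal.ofReal δ ^ n * (2 ^ n * (A k + G)) + ENNReal.ofReal M ^ n * A k) :=
        hbd δ hδ k hk1
    _ = 2 ^ n * (ENNReal.ofReal δ ^ n * (2 ^ n * (A k + G))) +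
        2 ^ n * (ENNReal.ofReal M ^ n * A k) := by ring
    _ ≤ 2 ^ n * (ENNReal.ofReal δ ^ n * (2 ^ n * (1 + G))) + ε / 2 := by gcongr
    _ ≤ ε / 2 + ε / 2 := by gcongr
    _ = ε := ENNReal.add_halves ε

/-- **Lemma E** for `Φ ∘ f` -/
theorem capE {m : ℕ} (q : QR (m + 1)) (hm : 1 ≤ m) {F : Type} [NormedAddCommGroup F]
    [NormedSpace ℝ F] [CompleteSpace F]
    (Φ : E (m + 1) → F) (hΦ : ContDiff ℝ 1 Φ)
    (x : E (m + 1)) (a b τ : ℝ) (ha : 0 < a) (hab : a < b) (hτ : 0 ≤ τ)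
    (h : ∀ t ∈ Ioo a b, ∃ p p', sd x p = t ∧ sd x p' = t ∧ τ ≤ dist (Φ (q.f p)) (Φ (q.f p'))) :
    ENNReal.ofReal (τ ^ (m + 1) * Real.log (b / a)) ≤
      ENNReal.ofReal (cE m) * ∫⁻ z in {z | sd x z ≤ b},
        ‖(fderiv ℝ Φ (q.f z)).comp (q.g z)‖ₑ ^ (m + 1) := by
  set Q := {z | sd x z ≤ b} with hQ
  obtain ⟨R, hR⟩ : ∃ R : ℝ, Q ⊆ closedBall (0 : E (m + 1)) R :=
    (sd_closed x b).isBounded.subset_closedBall 0
  have hQm : MeasurableSet Q := (sd_closed x b).measurableSet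
  have hdΦ : Continuous (fderiv ℝ Φ) := hΦ.continuous_fderiv (by norm_num)
  set A : ℕ → E (m + 1) → (E (m + 1) →L[ℝ] F) := fun k z =>
    (fderiv ℝ Φ (q.F k z)).comp (fderiv ℝ (q.F k) z) with hA
  set B : E (m + 1) → (E (m + 1) →L[ℝ] F) := fun z =>
    (fderiv ℝ Φ (q.f z)).comp (q.g z) with hB
  have hFd : ∀ k, Continuous (fderiv ℝ (q.F k)) := fun k =>
    (q.F_smooth k).continuous_fderiv (by simp)
  have hAc : ∀ k, Continuous (A k) := fun k =>
    (hdΦ.comp (q.F_smooth k).continuous).clm_comp (hFd k)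
  have hBm : AEStronglyMeasurable B volume := by
    have h1 : AEStronglyMeasurable (fun z => fderiv ℝ Φ (q.f z)) volume :=
      (hdΦ.comp q.hf).aestronglyMeasurable
    exact ((ContinuousLinearMap.compL ℝ (E (m + 1)) (E (m + 1)) F).aestronglyMeasurable_comp₂
      h1 q.hg.1.aestronglyMeasurable)
  -- limit of the energies
  have hBfin : ∫⁻ z in Q, ‖B z‖ₑ ^ (m + 1) ≠ ⊤ := by
    obtain ⟨M, hM⟩ : ∃ M : ℝ, ∀ z ∈ closedBall (0 : E (m + 1)) R, ‖fderiv ℝ Φ (q.f z)‖ ≤ M := by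
      obtain ⟨M, hM⟩ := (isCompact_closedBall (0 : E (m + 1)) R).exists_bound_of_continuousOn
        (hdΦ.comp q.hf).continuousOn
      exact ⟨M, hM⟩
    have h1 : ∫⁻ z in Q, ‖B z‖ₑ ^ (m + 1) ≤
        ENNReal.ofReal M ^ (m + 1) * ∫⁻ z in closedBall (0 : E (m + 1)) R,
          ‖q.g z‖ₑ ^ (m + 1) := by
      refine (lintegral_mono_set hR).trans ?_
      rw [← lintegral_const_mul' _ _ (by simp)]
      apply setLIntegral_mono' measurableSet_closedBall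
      intro z hz
      rw [← mul_pow]
      gcongr
      rw [← ofReal_norm, ← ofReal_norm, ← ENNReal.ofReal_mul ((norm_nonneg _).trans (hM z hz))]
      apply ENNReal.ofReal_le_ofReal
      refine (ContinuousLinearMap.opNorm_comp_le _ _).trans ?_
      gcongr
      exact hM z hz
    exact ne_top_of_le_ne_top (ENNReal.mul_ne_top (by simp) (q.g_Ln R)) h1
  have hAB : Tendsto (fun k => ∫⁻ z in Q, ‖A k z - B z‖ₑ ^ (m + 1)) atTop (𝓝 0) := by
    refine tendsto_of_tendsto_of_tendsto_of_le_of_le tendsto_const_nhds (q.comp_Ln Φ hΦ R)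
          (fun _ => zero_le) ?_
    intro k
    exact lintegral_mono_set hR
  have hlim1 := L1conv (volume.restrict Q) (m + 1) (by omega) A B (fun a => ‖a‖ ^ (m + 1))
    ((m + 1 : ℕ) : ℝ) (by positivity) (fun a b => norm_pow_deg (m + 1) (by omega) a b)
    hBm.restrict hBfin hAB
  have hlim : Tendsto (fun k => ∫⁻ z in Q, ‖A k z‖ₑ ^ (m + 1)) atTop
      (𝓝 (∫⁻ z in Q, ‖B z‖ₑ ^ (m + 1))) := by
    have e1 : ∀ k, ∫⁻ z in Q, ‖A k z‖ₑ ^ (m + 1) ≤ (∫⁻ z in Q, ‖B z‖ₑ ^ (m + 1)) +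
        ∫⁻ z in Q, ‖‖A k z‖ ^ (m + 1) - ‖B z‖ ^ (m + 1)‖ₑ := by
      intro k
      rw [← lintegral_add_left' (hBm.restrict.enorm.pow_const _)]
      apply lintegral_mono
      intro z
      simp only
      have h1 : ‖A k z‖ₑ ^ (m + 1) = ‖‖A k z‖ ^ (m + 1)‖ₑ := by rw [enorm_pow, enorm_norm]
      have h2 : ‖B z‖ₑ ^ (m + 1) = ‖‖B z‖ ^ (m + 1)‖ₑ := by rw [enorm_pow, enorm_norm]
      rw [h1, h2]
      have h3 : ‖A k z‖ ^ (m + 1) = ‖B z‖ ^ (m + 1) + (‖A k z‖ ^ (m + 1) - ‖B z‖ ^ (m + 1)) := by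
        ring
      conv_lhs => rw [h3]
      exact enorm_add_le _ _
    have e2 : ∀ k, (∫⁻ z in Q, ‖B z‖ₑ ^ (m + 1)) ≤ (∫⁻ z in Q, ‖A k z‖ₑ ^ (m + 1)) +
        ∫⁻ z in Q, ‖‖A k z‖ ^ (m + 1) - ‖B z‖ ^ (m + 1)‖ₑ := by
      intro k
      rw [← lintegral_add_left' ((hAc k).aestronglyMeasurable.enorm.pow_const _)]
      apply lintegral_mono
      intro z
      simp only
      have h1 : ‖A k z‖ₑ ^ (m + 1) = ‖‖A k z‖ ^ (m + 1)‖ₑ := by rw [enorm_pow, enorm_norm]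
      have h2 : ‖B z‖ₑ ^ (m + 1) = ‖‖B z‖ ^ (m + 1)‖ₑ := by rw [enorm_pow, enorm_norm]
      rw [h1, h2]
      have h3 : ‖B z‖ ^ (m + 1) = ‖A k z‖ ^ (m + 1) - (‖A k z‖ ^ (m + 1) - ‖B z‖ ^ (m + 1)) := by
        ring
      conv_lhs => rw [h3]
      exact enorm_sub_le
    set I := ∫⁻ z in Q, ‖B z‖ₑ ^ (m + 1) with hI
    set D : ℕ → ℝ≥0∞ := fun k => ∫⁻ z in Q, ‖‖A k z‖ ^ (m + 1) - ‖B z‖ ^ (m + 1)‖ₑ with hD
    have hlo : Tendsto (fun k => I - D k) atTop (𝓝 (I - 0)) :=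
      ENNReal.Tendsto.sub tendsto_const_nhds hlim1 (Or.inl hBfin)
    have hhi : Tendsto (fun k => I + D k) atTop (𝓝 (I + 0)) :=
      tendsto_const_nhds.add hlim1
    rw [tsub_zero] at hlo
    rw [add_zero] at hhi
    refine tendsto_of_tendsto_of_tendsto_of_le_of_le hlo hhi ?_ e1
    intro k
    exact tsub_le_iff_right.mpr (e2 k)
  -- the inequality with loss
  have key : ∀ η : ℝ, 0 < η → 2 * η ≤ τ →
      ENNReal.ofReal ((τ - 2 * η) ^ (m + 1) * Real.log (b / a)) ≤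
      ENNReal.ofReal (cE m) * ∫⁻ z in Q, ‖B z‖ₑ ^ (m + 1) := by
    intro η hη hητ
    have hlim2 : Tendsto (fun k => ENNReal.ofReal (cE m) * ∫⁻ z in Q, ‖A k z‖ₑ ^ (m + 1)) atTop
        (𝓝 (ENNReal.ofReal (cE m) * ∫⁻ z in Q, ‖B z‖ₑ ^ (m + 1))) :=
      ENNReal.Tendsto.const_mul hlim (Or.inr ENNReal.ofReal_ne_top)
    refine ge_of_tendsto hlim2 ?_
    filter_upwards [q.comp_unif Φ hΦ.continuous R η hη] with k hk
    set u : E (m + 1) → F := fun z => Φ (q.F k z) with hu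
    have hus : ContDiff ℝ 1 u := hΦ.comp ((q.F_smooth k).of_le
      (WithTop.coe_le_coe.mpr (le_top : (1:ℕ∞) ≤ ⊤)))
    have h1 := lemmaE' hm u hus x a b (τ - 2 * η) ha hab (by linarith) (by
      intro t ht
      obtain ⟨p, p', hp, hp', hpp⟩ := h t ht
      refine ⟨p, p', hp, hp', ?_⟩
      have e1 := hk p (hR (by rw [hQ, mem_ofPred_eq, hp]; exact ht.2.le))
      have e2 := hk p' (hR (by rw [hQ, mem_ofPred_eq, hp']; exact ht.2.le))
      have e3 := dist_triangle4 (Φ (q.f p)) (Φ (q.F k p)) (Φ (q.F k p')) (Φ (q.f p'))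
      rw [dist_comm (Φ (q.f p)) (Φ (q.F k p))] at e3
      simp only [hu]
      linarith)
    refine h1.trans (le_of_eq ?_)
    congr 1
    apply lintegral_congr
    intro z
    have h2 : HasFDerivAt u ((fderiv ℝ Φ (q.F k z)).comp (fderiv ℝ (q.F k) z)) z := by
      have e1 : HasFDerivAt Φ (fderiv ℝ Φ (q.F k z)) (q.F k z) :=
        (hΦ.differentiable (by norm_num) _).hasFDerivAt
      have e2 : HasFDerivAt (q.F k) (fderiv ℝ (q.F k) z) z :=
        ((q.F_smooth k).differentiable (by simp) z).hasFDerivAt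
      exact e1.comp z e2
    rw [h2.fderiv]
  rcases eq_or_lt_of_le hτ with h0 | h0
  · rw [← h0]
    simp
  · have hcont : Tendsto (fun η : ℝ => ENNReal.ofReal ((τ - 2 * η) ^ (m + 1) *
        Real.log (b / a))) (𝓝[>] 0) (𝓝 (ENNReal.ofReal (τ ^ (m + 1) * Real.log (b / a)))) := by
      apply ENNReal.tendsto_ofReal
      have : Continuous fun η : ℝ => (τ - 2 * η) ^ (m + 1) * Real.log (b / a) := by fun_prop
      have h1 := (this.tendsto 0).mono_left (nhdsWithin_le_nhds (s := Ioi (0:ℝ)))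
      simpa using h1
    refine le_of_tendsto hcont ?_
    have h1 : ∀ᶠ η : ℝ in 𝓝[>] 0, η < τ / 2 :=
      (eventually_lt_nhds (by positivity)).filter_mono nhdsWithin_le_nhds
    filter_upwards [h1, self_mem_nhdsWithin] with η hη1 hη2
    exact key η hη2 (by linarith)

end QR

end Pool.Agent.Work.MP_0f0f21_an
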