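import Pool.Agent.Work.MP_0f0f21_an.Defs

set_option autoImplicit false

open Metric Set Filter Topology

namespace Pool.Agent.Work.MP_0f0f21_an

section General

variable {X : Type} [MetricSpace X]

/-- Nagata dimension at most `m` (definition with multiplicity) -/
def NagataLE (A : Set X) (m : ℕ) : Prop :=
  ∃ c > 0, ∀ s > 0, ∃ 𝒰 : Set (Set X), (∀ U ∈ 𝒰, U ⊆ A) ∧ A ⊆ ⋃₀ 𝒰 ∧
    (∀ U ∈ 𝒰, ∀ x ∈ U, ∀ y ∈ U, dist x y ≤ c * s) ∧
    ∀ S ⊆ A, (∀ x ∈ S, ∀ y ∈ S, dist x y ≤ s) → {U ∈ 𝒰 | (U ∩ S).Nonempty}.encard ≤ m + 1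

/-- coloured covers: `κ` colour, `l` label; the classes (same colour and label) have diameter at
most `e` and two different classes of the same colour are at distance at least `d` -/
def Col (A : Set X) (m : ℕ) (d e : ℝ) : Prop :=
  ∃ (κ : X → Fin (m + 1)) (l : X → X), ∀ x ∈ A, ∀ y ∈ A, κ x = κ y →
    (dist x y < d → l x = l y) ∧ (l x = l y → dist x y ≤ e)

/-- any label type is allowed -/
lemma Col.of_label {A : Set X} {m : ℕ} {d e : ℝ} {L : Type} (κ : X → Fin (m + 1)) (l : X → L)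
    (h : ∀ x ∈ A, ∀ y ∈ A, κ x = κ y →
      (dist x y < d → l x = l y) ∧ (l x = l y → dist x y ≤ e)) : Col A m d e := by
  classical
  by_cases hX : Nonempty X
  · -- representatives
    set rep : Fin (m + 1) × L → X := fun p =>
      if hp : ∃ x ∈ A, κ x = p.1 ∧ l x = p.2 then hp.choose else Classical.arbitrary X with hrep
    have hrep' : ∀ x ∈ A, rep (κ x, l x) ∈ A ∧ κ (rep (κ x, l x)) = κ x ∧
        l (rep (κ x, l x)) = l x := by
      intro x hx
      have hp : ∃ z ∈ A, κ z = ((κ x, l x) : Fin (m + 1) × L).1 ∧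
          l z = ((κ x, l x) : Fin (m + 1) × L).2 := ⟨x, hx, rfl, rfl⟩
      have : rep (κ x, l x) = hp.choose := by
        rw [hrep]; exact dif_pos hp
      rw [this]
      exact hp.choose_spec
    refine ⟨κ, fun x => rep (κ x, l x), ?_⟩
    intro x hx y hy hxy
    constructor
    · intro hd
      have := (h x hx y hy hxy).1 hd
      simp only [hxy, this]
    · intro hl
      simp only at hl
      obtain ⟨_, _, h1⟩ := hrep' x hx
      obtain ⟨_, _, h2⟩ := hrep' y hy
      rw [hl] at h1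
      exact (h x hx y hy hxy).2 (h1.symm.trans h2)
  · refine ⟨κ, fun x => x, ?_⟩
    intro x
    exact absurd ⟨x⟩ hX

lemma Col.mono {A B : Set X} {m : ℕ} {d e d' e' : ℝ} (h : Col A m d e) (hB : B ⊆ A)
    (hd : d' ≤ d) (he : e ≤ e') : Col B m d' e' := by
  obtain ⟨κ, l, hkl⟩ := h
  refine ⟨κ, l, ?_⟩
  intro x hx y hy hxy
  obtain ⟨h1, h2⟩ := hkl x (hB hx) y (hB hy) hxy
  exact ⟨fun h => h1 (h.trans_le hd), fun h => (h2 h).trans he⟩

lemma Col.empty (m : ℕ) (d e : ℝ) : Col (∅ : Set X) m d e :=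
  ⟨fun _ => 0, fun x => x, by simp⟩

/-- merging two coloured covers -/
lemma Col.union {A B : Set X} {m : ℕ} {dA eA dB eB : ℝ} (hA : Col A m dA eA)
    (hB : Col B m dB eB) (hdB : 0 < dB) (heA : 0 ≤ eA) (heB : 0 ≤ eB) (h1 : dB ≤ dA)
    (h2 : eB + 2 * dB ≤ dA) : Col (A ∪ B) m dB (eA + 2 * (eB + dB)) := by
  classical
  obtain ⟨κA, lA, hA⟩ := hA
  obtain ⟨κB, lB, hB⟩ := hB
  -- colour
  set κ : X → Fin (m + 1) := fun x => if x ∈ A then κA x else κB x with hκ
  -- a point of `B \ A` is attached to a class of `A`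
  set att : X → X → Prop := fun y a => a ∈ A ∧ κA a = κB y ∧
    ∃ y' ∈ B, κB y' = κB y ∧ lB y' = lB y ∧ dist y' a < dB with hatt
  set l : X → X ⊕ X := fun x => if x ∈ A then Sum.inl (lA x) else
    if h : ∃ a, att x a then Sum.inl (lA h.choose) else Sum.inr (lB x) with hl
  have hlA : ∀ x ∈ A, l x = Sum.inl (lA x) := fun x hx => by rw [hl]; exact if_pos hx
  have hκA : ∀ x ∈ A, κ x = κA x := fun x hx => by rw [hκ]; exact if_pos hx
  have hκB : ∀ x, x ∉ A → κ x = κB x := fun x hx => by rw [hκ]; exact if_neg hx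
  -- uniqueness of the attached class
  have huniq : ∀ y ∈ B, ∀ a a', att y a → att y a' → lA a = lA a' := by
    intro y hy a a' ha ha'
    obtain ⟨ha1, ha2, y1, hy1, hy2, hy3, hy4⟩ := ha
    obtain ⟨ha1', ha2', y1', hy1', hy2', hy3', hy4'⟩ := ha'
    apply (hA a ha1 a' ha1' (by rw [ha2, ha2'])).1
    have h3 : dist y1 y1' ≤ eB := (hB y1 hy1 y1' hy1' (by rw [hy2, hy2'])).2 (by rw [hy3, hy3'])
    have h4 := dist_triangle4 a y1 y1' a'
    rw [dist_comm a y1] at h4
    linarith
  have hl_att : ∀ y ∈ B, y ∉ A → ∀ a, att y a → l y = Sum.inl (lA a) := by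
    intro y hy hyA a ha
    have hex : ∃ a, att y a := ⟨a, ha⟩
    have h3 : l y = Sum.inl (lA hex.choose) := by
      rw [hl]
      simp only
      rw [if_neg hyA, dif_pos hex]
    rw [h3, huniq y hy _ _ hex.choose_spec ha]
  have hl_non : ∀ y, y ∉ A → (¬ ∃ a, att y a) → l y = Sum.inr (lB y) := by
    intro y hyA hne
    rw [hl]
    simp only
    rw [if_neg hyA, dif_neg hne]
  -- points with the same `B`-class have the same attachments
  have hatt_congr : ∀ y y', κB y = κB y' → lB y = lB y' → ∀ a, att y a → att y' a := by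
    intro y y' h3 h4 a ha
    obtain ⟨ha1, ha2, z, hz1, hz2, hz3, hz4⟩ := ha
    exact ⟨ha1, by rw [ha2, h3], z, hz1, by rw [hz2, h3], by rw [hz3, h4], hz4⟩
  -- a point of `B \ A` attached to `a` is near a point of the class
  have hnear : ∀ y ∈ B, ∀ a, att y a → dist y a ≤ eB + dB := by
    intro y hy a ha
    obtain ⟨ha1, ha2, z, hz1, hz2, hz3, hz4⟩ := ha
    have h3 : dist y z ≤ eB := (hB y hy z hz1 hz2.symm).2 hz3.symm
    linarith [dist_triangle y z a]
  apply Col.of_label κ l
  intro x hx y hy hxy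
  -- every point of the union with label `inl` is near a point of `A` with the same colour
  have hrep : ∀ x ∈ A ∪ B, ∀ b, l x = Sum.inl b → ∃ a ∈ A, κA a = κ x ∧ lA a = b ∧
      dist x a ≤ eB + dB := by
    intro x hx b hb
    by_cases hxA : x ∈ A
    · rw [hlA x hxA] at hb
      exact ⟨x, hxA, (hκA x hxA).symm, Sum.inl_injective hb, by rw [dist_self]; linarith⟩
    · have hxB : x ∈ B := hx.resolve_left hxA
      by_cases hex : ∃ a, att x a
      · obtain ⟨a, ha⟩ := hex
        rw [hl_att x hxB hxA a ha] at hb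
        refine ⟨a, ha.1, ?_, Sum.inl_injective hb, hnear x hxB a ha⟩
        rw [hκB x hxA]
        exact ha.2.1
      · rw [hl_non x hxA hex] at hb
        exact absurd hb (by simp)
  constructor
  · intro hd
    by_cases hxA : x ∈ A
    · by_cases hyA : y ∈ A
      · rw [hlA x hxA, hlA y hyA]
        rw [hκA x hxA, hκA y hyA] at hxy
        rw [(hA x hxA y hyA hxy).1 (hd.trans_le h1)]
      · have hyB : y ∈ B := hy.resolve_left hyA
        rw [hκA x hxA, hκB y hyA] at hxy
        have : att y x := ⟨hxA, hxy, y, hyB, rfl, rfl, by rwa [dist_comm]⟩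
        rw [hlA x hxA, hl_att y hyB hyA x this]
    · have hxB : x ∈ B := hx.resolve_left hxA
      by_cases hyA : y ∈ A
      · rw [hκB x hxA, hκA y hyA] at hxy
        have : att x y := ⟨hyA, hxy.symm, x, hxB, rfl, rfl, hd⟩
        rw [hlA y hyA, hl_att x hxB hxA y this]
      · have hyB : y ∈ B := hy.resolve_left hyA
        rw [hκB x hxA, hκB y hyA] at hxy
        have h3 := (hB x hxB y hyB hxy).1 hd
        by_cases hex : ∃ a, att x a
        · obtain ⟨a, ha⟩ := hex
          rw [hl_att x hxB hxA a ha, hl_att y hyB hyA a (hatt_congr x y hxy h3 a ha)]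
        · have hex' : ¬ ∃ a, att y a := fun ⟨a, ha⟩ =>
            hex ⟨a, hatt_congr y x hxy.symm h3.symm a ha⟩
          rw [hl_non x hxA hex, hl_non y hyA hex', h3]
  · intro hll
    rcases hlx : l x with b | b
    · have hly : l y = Sum.inl b := by rw [← hll, hlx]
      obtain ⟨a, ha1, ha2, ha3, ha4⟩ := hrep x hx b hlx
      obtain ⟨a', ha1', ha2', ha3', ha4'⟩ := hrep y hy b hly
      have h3 : dist a a' ≤ eA := (hA a ha1 a' ha1' (by rw [ha2, ha2', hxy])).2 (by
        rw [ha3, ha3'])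
      have h4 := dist_triangle4 x a a' y
      rw [dist_comm a' y] at h4
      linarith
    · have hxA : x ∉ A := by
        intro h; rw [hlA x h] at hlx; exact absurd hlx (by simp)
      have hly : l y = Sum.inr b := by rw [← hll, hlx]
      have hyA : y ∉ A := by
        intro h; rw [hlA y h] at hly; exact absurd hly (by simp)
      have hxB : x ∈ B := hx.resolve_left hxA
      have hyB : y ∈ B := hy.resolve_left hyA
      have hex : ¬ ∃ a, att x a := by
        rintro ⟨a, ha⟩
        rw [hl_att x hxB hxA a ha] at hlx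
        exact absurd hlx (by simp)
      have hey : ¬ ∃ a, att y a := by
        rintro ⟨a, ha⟩
        rw [hl_att y hyB hyA a ha] at hly
        exact absurd hly (by simp)
      rw [hl_non x hxA hex] at hlx
      rw [hl_non y hyA hey] at hly
      rw [hκB x hxA, hκB y hyA] at hxy
      have h3 : lB x = lB y := by
        rw [← hly] at hlx
        exact Sum.inr_injective hlx
      have h4 := (hB x hxB y hyB hxy).2 h3
      linarith

/-- thickening a coloured cover -/
lemma Col.thicken {A B : Set X} {m : ℕ} {d e η : ℝ} (hA : Col A m d e)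
    (hη : ∀ x ∈ B, ∃ a ∈ A, dist x a ≤ η) : Col B m (d - 2 * η) (e + 2 * η) := by
  classical
  obtain ⟨κ, l, h⟩ := hA
  choose! π hπ1 hπ2 using hη
  refine ⟨fun x => κ (π x), fun x => l (π x), ?_⟩
  intro x hx y hy hxy
  obtain ⟨h1, h2⟩ := h (π x) (hπ1 x hx) (π y) (hπ1 y hy) hxy
  have h3 := hπ2 x hx
  have h4 := hπ2 y hy
  constructor
  · intro hd
    apply h1
    have := dist_triangle4 (π x) x y (π y)
    rw [dist_comm (π x) x] at this
    linarith
  · intro hl
    have h5 := h2 hl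
    have := dist_triangle4 x (π x) (π y) y
    rw [dist_comm (π y) y] at this
    linarith

/-- from coloured covers to the definition -/
lemma NagataLE_of_Col {A : Set X} {m : ℕ} (c : ℝ) (hc : 0 < c)
    (h : ∀ s > 0, Col A m s (c * s)) : NagataLE A m := by
  classical
  refine ⟨2 * c, by positivity, ?_⟩
  intro s hs
  obtain ⟨κ, l, hkl⟩ := h (2 * s) (by positivity)
  set cls : Fin (m + 1) × X → Set X := fun p => {x | x ∈ A ∧ κ x = p.1 ∧ l x = p.2} with hcls
  refine ⟨range cls, ?_, ?_, ?_, ?_⟩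
  · rintro _ ⟨p, rfl⟩ x hx
    exact hx.1
  · intro x hx
    exact ⟨cls (κ x, l x), ⟨_, rfl⟩, hx, rfl, rfl⟩
  · rintro _ ⟨p, rfl⟩ x hx y hy
    have h1 := (hkl x hx.1 y hy.1 (by rw [hx.2.1, hy.2.1])).2 (by rw [hx.2.2, hy.2.2])
    linarith
  · intro S hSA hS
    -- at most one class per colour
    have h1 : {U ∈ range cls | (U ∩ S).Nonempty} ⊆
        (fun k : Fin (m + 1) => {x | x ∈ A ∧ κ x = k ∧ ∃ z ∈ S, κ z = k ∧ l x = l z}) ''
          (univ : Set (Fin (m + 1))) := by
      rintro _ ⟨⟨p, rfl⟩, z, hz1, hz2⟩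
      refine ⟨p.1, mem_univ _, ?_⟩
      ext x
      constructor
      · rintro ⟨hx1, hx2, w, hw1, hw2, hw3⟩
        refine ⟨hx1, hx2, ?_⟩
        rw [hw3, ← hz1.2.2]
        apply (hkl w (hSA hw1) z hz1.1 (by rw [hw2, hz1.2.1])).1
        have := hS w hw1 z hz2
        linarith
      · intro hx
        exact ⟨hx.1, hx.2.1, z, hz2, hz1.2.1, by rw [hx.2.2, hz1.2.2]⟩
    refine (encard_le_encard h1).trans ?_
    refine (encard_image_le _ _).trans ?_
    rw [encard_univ]
    simp

/-- from the definition to coloured covers -/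
lemma Col_of_NagataLE {A : Set X} {m : ℕ} (h : NagataLE A m) :
    ∃ C : ℝ, 0 < C ∧ ∀ s > 0, Col A m s (C * s) := by
  classical
  obtain ⟨c, hc, h⟩ := h
  refine ⟨(2 + 2 * c) * (m + 1), by positivity, ?_⟩
  intro s hs
  set s' : ℝ := (m + 1) * s with hs'
  have hs'0 : 0 < s' := by positivity
  obtain ⟨𝒰, h𝒰A, hcov, hmesh, hmult⟩ := h (2 * s') (by positivity)
  -- heights
  set ht : Set X → X → ℝ := fun U x => s' - infDist x U with hht
  have hlip : ∀ U x y, ht U x - ht U y ≤ dist x y := by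
    intro U x y
    have := infDist_le_infDist_add_dist (s := U) (x := y) (y := x)
    simp only [hht]
    rw [dist_comm x y]
    linarith
  set 𝒱 : X → Set (Set X) := fun x => {U | U ∈ 𝒰 ∧ U.Nonempty ∧ 0 < ht U x} with h𝒱
  have hnear : ∀ x U, U ∈ 𝒱 x → ∃ u ∈ U, dist x u < s' := by
    intro x U hU
    have h1 : infDist x U < s' := by have := hU.2.2; simp only [hht] at this; linarith
    exact (infDist_lt_iff hU.2.1).mp h1
  have hcard : ∀ x ∈ A, (𝒱 x).encard ≤ m + 1 := by
    intro x _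
    refine (encard_le_encard ?_).trans (hmult (A ∩ ball x s') inter_subset_left ?_)
    · intro U hU
      refine ⟨hU.1, ?_⟩
      obtain ⟨u, hu, hux⟩ := hnear x U hU
      exact ⟨u, hu, h𝒰A U hU.1 hu, by rwa [mem_ball, dist_comm]⟩
    · intro y hy z hz
      have h1 := hy.2
      have h2 := hz.2
      rw [mem_ball] at h1 h2
      have := dist_triangle_right y z x
      linarith
  -- a gap
  have hgap : ∀ x ∈ A, ∃ k : ℕ, k < m + 1 ∧ (∀ U ∈ 𝒰, U.Nonempty →
      ht U x ≤ k * s ∨ ((k:ℝ) + 1) * s ≤ ht U x) ∧ ∃ U ∈ 𝒰, U.Nonempty ∧ ht U x = s' := by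
    intro x hx
    obtain ⟨U0, hU0, hxU0⟩ := hcov hx
    have hU0t : ht U0 x = s' := by simp only [hht]; rw [infDist_zero_of_mem hxU0, sub_zero]
    have hex : ∃ k : ℕ, k < m + 1 ∧ (∀ U ∈ 𝒰, U.Nonempty →
      ht U x ≤ k * s ∨ ((k:ℝ) + 1) * s ≤ ht U x) := by
      by_contra hcon
      push Not at hcon
      have h1 : ∀ k : Fin (m + 1), ∃ U ∈ 𝒰, U.Nonempty ∧ ((k:ℕ):ℝ) * s < ht U x ∧
          ht U x < (((k:ℕ):ℝ) + 1) * s := by
        intro k
        obtain ⟨U, hU1, hU2, hU3, hU4⟩ := hcon k k.2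
        exact ⟨U, hU1, hU2, hU3, hU4⟩
      choose V hV1 hV2 hV3 hV4 using h1
      -- an injection
      set j : Option (Fin (m + 1)) → Set X := fun o => o.elim U0 V with hj
      have hjm : ∀ o, j o ∈ 𝒱 x := by
        intro o
        rcases o with _ | k
        · exact ⟨hU0, ⟨x, hxU0⟩, by show 0 < ht U0 x; rw [hU0t]; exact hs'0⟩
        · refine ⟨hV1 k, hV2 k, ?_⟩
          have h2 : (0:ℝ) ≤ ((k:ℕ):ℝ) * s := by positivity
          exact lt_of_le_of_lt h2 (hV3 k)
      have hji : Function.Injective j := by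
        have hne : ∀ k, V k ≠ U0 := by
          intro k hk
          have h2 := hV4 k
          rw [hk, hU0t, hs'] at h2
          have h3 : (((k:ℕ):ℝ) + 1) ≤ (m:ℝ) + 1 := by
            have : (k:ℕ) ≤ m := Nat.lt_succ_iff.mp k.2
            have : ((k:ℕ):ℝ) ≤ m := by exact_mod_cast this
            linarith
          nlinarith
        intro o o' hoo
        rcases o with _ | k <;> rcases o' with _ | k'
        · rfl
        · exact absurd hoo.symm (hne k')
        · exact absurd hoo (hne k)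
        · have hoo' : V k = V k' := hoo
          congr 1
          by_contra hkk
          have hlt : ∀ a b : Fin (m + 1), V a = V b → ¬ (a < b) := by
            intro a b hab hlt
            have h2 := hV4 a
            have h3 := hV3 b
            rw [hab] at h2
            have h4 : ((a:ℕ):ℝ) + 1 ≤ ((b:ℕ):ℝ) := by
              have : (a:ℕ) + 1 ≤ (b:ℕ) := hlt
              exact_mod_cast this
            nlinarith
          rcases lt_or_gt_of_ne hkk with h2 | h2
          · exact hlt _ _ hoo' h2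
          · exact hlt _ _ hoo'.symm h2
      have h2 : ((m + 2 : ℕ) : ℕ∞) ≤ (𝒱 x).encard := by
        have h3 : (range j).encard ≤ (𝒱 x).encard := by
          apply encard_le_encard
          rintro _ ⟨o, rfl⟩
          exact hjm o
        rw [← image_univ, hji.encard_image, encard_univ] at h3
        have h4 : ENat.card (Option (Fin (m + 1))) = ((m + 2 : ℕ) : ℕ∞) := by
          rw [ENat.card_eq_coe_fintype_card, Fintype.card_option, Fintype.card_fin]
        rwa [h4] at h3
      have h3 := h2.trans (hcard x hx)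
      have h4 : (m + 2 : ℕ) ≤ m + 1 := by exact_mod_cast h3
      omega
    obtain ⟨k, hk1, hk2⟩ := hex
    exact ⟨k, hk1, hk2, U0, hU0, ⟨x, hxU0⟩, hU0t⟩
  choose! k hk1 hk2 hk3 using hgap
  -- the label
  set σ : X → Set (Set X) := fun x => {U | U ∈ 𝒰 ∧ U.Nonempty ∧ ((k x:ℝ) + 1) * s ≤ ht U x}
    with hσ
  have hσ𝒱 : ∀ x, σ x ⊆ 𝒱 x := by
    intro x U hU
    refine ⟨hU.1, hU.2.1, ?_⟩
    have : 0 < ((k x:ℝ) + 1) * s := by positivity
    linarith [hU.2.2]
  have hfin : ∀ x ∈ A, (𝒱 x).Finite := by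
    intro x hx
    apply finite_of_encard_le_coe (k := m + 1)
    have := hcard x hx
    exact_mod_cast this
  have hσfin : ∀ x ∈ A, (σ x).Finite := fun x hx => (hfin x hx).subset (hσ𝒱 x)
  have hσne : ∀ x ∈ A, (σ x).Nonempty := by
    intro x hx
    obtain ⟨U, hU1, hU2, hU3⟩ := hk3 x hx
    refine ⟨U, hU1, hU2, ?_⟩
    rw [hU3, hs']
    have h1 : (k x : ℝ) ≤ m := by
      have := hk1 x hx
      exact_mod_cast Nat.lt_succ_iff.mp this
    nlinarith
  have hσcard : ∀ x ∈ A, (σ x).ncard ≤ m + 1 := by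
    intro x hx
    have h1 : (σ x).encard ≤ m + 1 := (encard_le_encard (hσ𝒱 x)).trans (hcard x hx)
    rw [← (hσfin x hx).cast_ncard_eq] at h1
    exact_mod_cast h1
  have hσpos : ∀ x ∈ A, 0 < (σ x).ncard := fun x hx =>
    (ncard_pos (hσfin x hx)).mpr (hσne x hx)
  apply Col.of_label (L := Set (Set X)) (fun x => Fin.ofNat (m + 1) ((σ x).ncard - 1)) σ
  intro x hx y hy hxy
  have hcardeq : (σ x).ncard = (σ y).ncard := by
    have h1 := hσcard x hx
    have h2 := hσcard y hy
    have h3 := hσpos x hx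
    have h4 := hσpos y hy
    have h5 := congrArg Fin.val hxy
    simp only [Fin.ofNat] at h5
    rw [Nat.mod_eq_of_lt (by omega), Nat.mod_eq_of_lt (by omega)] at h5
    omega
  constructor
  · intro hd
    by_contra hne
    have h1 : ¬ σ x ⊆ σ y := fun h => hne (eq_of_subset_of_ncard_le h hcardeq.ge (hσfin y hy))
    have h2 : ¬ σ y ⊆ σ x := fun h => hne (eq_of_subset_of_ncard_le h hcardeq.le
      (hσfin x hx)).symm
    rw [not_subset] at h1 h2
    obtain ⟨U, hU1, hU2⟩ := h1
    obtain ⟨V, hV1, hV2⟩ := h2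
    have e1 : ht U y ≤ k y * s := by
      rcases hk2 y hy U hU1.1 hU1.2.1 with h | h
      · exact h
      · exact absurd ⟨hU1.1, hU1.2.1, h⟩ hU2
    have e2 : ht V x ≤ k x * s := by
      rcases hk2 x hx V hV1.1 hV1.2.1 with h | h
      · exact h
      · exact absurd ⟨hV1.1, hV1.2.1, h⟩ hV2
    have e3 := hU1.2.2
    have e4 := hV1.2.2
    have e5 := hlip U x y
    have e6 := hlip V y x
    rw [dist_comm y x] at e6
    nlinarith
  · intro hl
    obtain ⟨U, hU⟩ := hσne x hx
    have hU' : U ∈ σ y := by rw [← hl]; exact hU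
    obtain ⟨u, hu1, hu2⟩ := hnear x U (hσ𝒱 x hU)
    obtain ⟨v, hv1, hv2⟩ := hnear y U (hσ𝒱 y hU')
    have h1 := hmesh U hU.1 u hu1 v hv1
    have h2 := dist_triangle4 x u v y
    rw [dist_comm v y] at h2
    have h3 : (2 + 2 * c) * ((m:ℝ) + 1) * s = 2 * s' + c * (2 * s') := by rw [hs']; ring
    rw [h3]
    linarith

end General

end Pool.Agent.Work.MP_0f0f21_an
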