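import Pool.Agent.Work.MP_0f0f21_an.Trans

set_option autoImplicit false

open MeasureTheory Metric Set Filter Topology
open scoped ENNReal NNReal ContDiff

namespace Pool.Agent.Work.MP_0f0f21_an

variable {n : ℕ}

namespace QR

variable (q : QR n)

/-- the component of `x` in the preimage of a ball -/
def comp (y : E n) (ρ : ℝ) (x : E n) : Set (E n) := connectedComponentIn (q.f ⁻¹' ball y ρ) x

lemma comp_open (y : E n) (ρ : ℝ) (x : E n) : IsOpen (q.comp y ρ x) :=
  (isOpen_ball.preimage q.hf).connectedComponentIn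

lemma comp_preconn (y : E n) (ρ : ℝ) (x : E n) : IsPreconnected (q.comp y ρ x) :=
  isPreconnected_connectedComponentIn

lemma comp_sub (y : E n) (ρ : ℝ) (x : E n) : q.comp y ρ x ⊆ q.f ⁻¹' ball y ρ :=
  connectedComponentIn_subset _ _

lemma comp_mem (y : E n) (ρ : ℝ) (x : E n) (hx : q.f x ∈ ball y ρ) : x ∈ q.comp y ρ x :=
  mem_connectedComponentIn hx

lemma comp_frontier (y : E n) (ρ : ℝ) (x : E n) :
    ∀ p ∈ frontier (q.comp y ρ x), q.f p ∉ ball y ρ := by
  intro p hp hpb
  have h1 : IsOpen (q.comp y ρ p) := q.comp_open y ρ p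
  have h2 : p ∈ q.comp y ρ p := q.comp_mem y ρ p hpb
  have h3 : p ∈ closure (q.comp y ρ x) := frontier_subset_closure hp
  obtain ⟨z, hz1, hz2⟩ := mem_closure_iff.mp h3 _ h1 h2
  have h4 : q.comp y ρ p = q.comp y ρ z := connectedComponentIn_eq hz1
  have h5 : q.comp y ρ x = q.comp y ρ z := connectedComponentIn_eq hz2
  rw [h4, ← h5] at h2
  rw [(q.comp_open y ρ x).frontier_eq] at hp
  exact hp.2 h2

lemma comp_bdd (y : E n) (ρ : ℝ) (x : E n) : Bornology.IsBounded (q.comp y ρ x) := by
  obtain ⟨R, hR0, hR⟩ := q.preimage_bdd (‖y‖ + ρ)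
  apply (isBounded_ball (x := (0 : E n)) (r := R)).subset
  intro z hz
  have h1 := q.comp_sub y ρ x hz
  rw [mem_preimage, mem_ball, dist_eq_norm] at h1
  rw [mem_ball, dist_zero_right]
  apply hR
  have : ‖q.f z‖ ≤ ‖q.f z - y‖ + ‖y‖ := by
    have := norm_add_le (q.f z - y) y
    simpa using this
  linarith

lemma nontriv (q : QR n) : Nontrivial (E n) := by
  have : Nonempty (Fin n) := ⟨⟨0, q.hn⟩⟩
  infer_instance

/-- where `J` vanishes almost everywhere, `f` is constant -/
lemma const_of_J (x : E n) (r : ℝ) (hr : 0 < r) (hJ : ∀ᵐ z, z ∈ ball x r → q.J z = 0) :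
    ∀ z ∈ ball x (r / 2), q.f z = q.f x := by
  have hg : ∀ᵐ z, z ∈ ball x r → q.g z = 0 := by
    filter_upwards [hJ, q.hqr] with z h1 h2 hz
    have h3 : (q.g z).det = 0 := h1 hz
    rw [h3, mul_zero] at h2
    have h4 : ‖q.g z‖ ^ n = 0 := le_antisymm h2 (by positivity)
    have h5 : ‖q.g z‖ = 0 := (pow_eq_zero_iff (by have := q.hn; omega)).mp h4
    exact norm_eq_zero.mp h5
  have hFc : ∀ᶠ k in atTop, ∀ z ∈ ball x (r / 2), q.F k z = q.F k x := by
    have h1 : ∀ᶠ k in atTop, (bmp k : ContDiffBump (0 : E n)).rOut < r / 2 :=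
      bmp_tendsto.eventually (gt_mem_nhds (by positivity))
    filter_upwards [h1] with k hk
    have h2 : ∀ z ∈ ball x (r / 2), fderiv ℝ (q.F k) z = 0 := by
      intro z hz
      rw [q.F_fderiv, moll_apply]
      apply integral_eq_zero_of_ae
      filter_upwards [hg] with t ht
      simp only [Pi.zero_apply]
      by_cases htb : t ∈ ball x r
      · rw [ht htb, smul_zero]
      · have h3 : z - t ∉ Function.support ((bmp k : ContDiffBump (0 : E n)).normed volume) := by
          rw [ContDiffBump.support_normed_eq, mem_ball, dist_zero_right]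
          rw [mem_ball] at htb hz
          intro h4
          rw [← dist_eq_norm] at h4
          apply htb
          have := dist_triangle t z x
          rw [dist_comm t z] at this
          linarith
        have h4 : (bmp k : ContDiffBump (0 : E n)).normed volume (z - t) = 0 := by simpa using h3
        rw [h4]
        exact zero_smul ℝ (q.g t)
    intro z hz
    have hx : x ∈ ball x (r / 2) := mem_ball_self (by positivity)
    exact (convex_ball x (r / 2)).is_const_of_fderivWithin_eq_zero (𝕜 := ℝ)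
      (((q.F_smooth k).differentiable (by simp)).differentiableOn) (fun w hw => by
        rw [fderivWithin_of_isOpen isOpen_ball hw]
        exact h2 w hw) hz hx
  intro z hz
  have hlim : ∀ w : E n, Tendsto (fun k => q.F k w) atTop (𝓝 (q.f w)) := by
    intro w
    exact ContDiffBump.convolution_tendsto_right_of_continuous bmp_tendsto q.hf w
  refine tendsto_nhds_unique (hlim z) ((hlim x).congr' ?_)
  filter_upwards [hFc] with k hk
  exact (hk z hz).symm

/-- components of preimages of balls are mapped onto the balls -/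
theorem comp_surj (y : E n) (ρ : ℝ) (x : E n) (hx : q.f x ∈ ball y ρ) :
    q.f '' q.comp y ρ x = ball y ρ := by
  set U := q.comp y ρ x with hU
  have hUo : IsOpen U := q.comp_open y ρ x
  have hUb : Bornology.IsBounded U := q.comp_bdd y ρ x
  have hfr := q.comp_frontier y ρ x
  rw [← hU] at hfr
  have hxU : x ∈ U := q.comp_mem y ρ x hx
  apply Subset.antisymm
  · rintro _ ⟨z, hz, rfl⟩
    exact q.comp_sub y ρ x hz
  intro w hw
  by_contra hcon
  -- `w` is not in the closure of the image
  have hcl : w ∉ closure (q.f '' U) := by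
    intro h1
    have h2 : closure (q.f '' U) ⊆ q.f '' closure U := by
      apply closure_minimal (image_mono subset_closure)
      exact (hUb.isCompact_closure.image q.hf).isClosed
    obtain ⟨p, hp, hpw⟩ := h2 h1
    by_cases hpU : p ∈ U
    · exact hcon ⟨p, hpU, hpw⟩
    · have h3 : p ∈ frontier U := by
        rw [hUo.frontier_eq]
        exact ⟨hp, hpU⟩
      apply hfr p h3
      rw [hpw]
      exact hw
  obtain ⟨η0, hη0, hη0b⟩ := Metric.isOpen_iff.mp isClosed_closure.isOpen_compl w hcl
  -- `J` vanishes near every point of `U`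
  have hloc : ∀ x' ∈ U, ∃ r > 0, ∀ z ∈ ball x' r, q.f z = q.f x' := by
    intro x' hx'
    have hx'b : q.f x' ∈ ball y ρ := q.comp_sub y ρ x hx'
    rw [mem_ball] at hx'b hw
    set η := min (η0 / 2) (min ((ρ - dist w y) / 2) ((ρ - dist (q.f x') y) / 2)) with hη
    have hηpos : 0 < η := by
      apply lt_min (by positivity)
      apply lt_min <;> linarith
    have hη1 : η ≤ η0 / 2 := min_le_left _ _
    have hη2 : η ≤ (ρ - dist w y) / 2 := (min_le_right _ _).trans (min_le_left _ _)
    have hη3 : η ≤ (ρ - dist (q.f x') y) / 2 := (min_le_right _ _).trans (min_le_right _ _)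
    set ψ : ContDiffBump (0 : E n) := ⟨η / 2, η, by positivity, by linarith⟩ with hψ
    have htr := q.push_translate U hUo hUb y ρ hfr ψ ψ.contDiff η (by
      rw [ψ.tsupport_eq]) w (q.f x') (by linarith) (by linarith)
    have h0 : ∫ x in U, ψ (q.f x - w) * q.J x = 0 := by
      rw [setIntegral_congr_fun hUo.measurableSet (g := fun _ => 0)]
      · simp
      · intro z hz
        simp only
        have h1 : ψ (q.f z - w) = 0 := by
          apply ψ.zero_of_le_dist
          rw [dist_zero_right, ← dist_eq_norm]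
          by_contra h2
          push Not at h2
          have h3 : q.f z ∈ ball w η0 := by
            rw [mem_ball]
            have : ψ.rOut = η := rfl
            linarith
          exact hη0b h3 (subset_closure ⟨z, hz, rfl⟩)
        rw [h1, zero_mul]
    rw [h0] at htr
    -- the integrand vanishes
    have hnn : 0 ≤ᵐ[volume.restrict U] fun x => ψ (q.f x - q.f x') * q.J x := by
      apply ae_restrict_of_ae
      filter_upwards [q.J_nonneg] with z hz
      exact mul_nonneg ψ.nonneg hz
    have hint : Integrable (fun x => ψ (q.f x - q.f x') * q.J x) (volume.restrict U) := by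
      obtain ⟨R, hR⟩ : ∃ R : ℝ, U ⊆ closedBall (0 : E n) R := hUb.subset_closedBall 0
      have hJW : Integrable q.J (volume.restrict U) := (q.J_intOn R).mono_set hR
      apply hJW.bdd_mul (c := 1)
      · exact (ψ.continuous.comp (q.hf.sub continuous_const)).aestronglyMeasurable
      · apply Eventually.of_forall
        intro z
        rw [Real.norm_eq_abs, abs_of_nonneg ψ.nonneg]
        exact ψ.le_one
    have hz := (integral_eq_zero_iff_of_nonneg_ae hnn hint).mp htr.symm
    rw [Filter.EventuallyEq, ae_restrict_iff' hUo.measurableSet] at hz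
    -- a small ball
    have hnb : U ∩ q.f ⁻¹' ball (q.f x') (η / 2) ∈ 𝓝 x' := by
      apply inter_mem (hUo.mem_nhds hx')
      apply q.hf.continuousAt.preimage_mem_nhds
      exact ball_mem_nhds _ (by positivity)
    obtain ⟨r, hr, hrb⟩ := Metric.mem_nhds_iff.mp hnb
    refine ⟨r / 2, by positivity, q.const_of_J x' r hr ?_⟩
    filter_upwards [hz] with z h1 hzr
    have h2 := hrb hzr
    have h3 := h1 h2.1
    simp only [Pi.zero_apply] at h3
    have h4 : ψ (q.f z - q.f x') = 1 := by
      apply ψ.one_of_mem_closedBall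
      have h5 := h2.2
      rw [mem_preimage, mem_ball, dist_eq_norm] at h5
      rw [mem_closedBall, dist_zero_right]
      exact h5.le
    rw [h4, one_mul] at h3
    exact h3
  -- `f` is constant on `U`
  have hconst : ∀ z ∈ U, q.f z = q.f x := by
    set A : Set (E n) := {z | z ∈ U ∧ q.f z = q.f x} with hA
    set B : Set (E n) := {z | z ∈ U ∧ q.f z ≠ q.f x} with hB
    have hAo : IsOpen A := by
      rw [isOpen_iff_mem_nhds]
      rintro z ⟨hz1, hz2⟩
      obtain ⟨r, hr, hrb⟩ := hloc z hz1
      filter_upwards [hUo.mem_nhds hz1, ball_mem_nhds z hr] with w hw1 hw2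
      exact ⟨hw1, by rw [hrb w hw2, hz2]⟩
    have hBo : IsOpen B := by
      rw [isOpen_iff_mem_nhds]
      rintro z ⟨hz1, hz2⟩
      obtain ⟨r, hr, hrb⟩ := hloc z hz1
      filter_upwards [hUo.mem_nhds hz1, ball_mem_nhds z hr] with w hw1 hw2
      exact ⟨hw1, by rw [hrb w hw2]; exact hz2⟩
    have hpre : IsPreconnected U := q.comp_preconn y ρ x
    have h1 := hpre.subset_left_of_subset_union hAo hBo (by
      rw [Set.disjoint_left]
      rintro z ⟨_, h1⟩ ⟨_, h2⟩
      exact h2 h1) (by
      intro z hz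
      by_cases h : q.f z = q.f x
      · left; exact ⟨hz, h⟩
      · right; exact ⟨hz, h⟩) ⟨x, hxU, hxU, rfl⟩
    intro z hz
    exact (h1 hz).2
  -- contradiction at the boundary
  have := q.nontriv
  have hfrne : (frontier U).Nonempty := by
    rw [nonempty_iff_ne_empty]
    intro h1
    rcases isClopen_iff.mp (isClopen_iff_frontier_eq_empty.mpr h1) with h2 | h2
    · rw [h2] at hxU
      exact hxU
    · rw [h2] at hUb
      exact NormedSpace.unbounded_univ ℝ (E n) hUb
  obtain ⟨p, hp⟩ := hfrne
  apply hfr p hp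
  have h1 : p ∈ closure U := frontier_subset_closure hp
  have h2 : q.f p ∈ closure (q.f '' U) := by
    exact image_closure_subset_closure_image q.hf ⟨p, h1, rfl⟩
  have h3 : q.f '' U ⊆ {q.f x} := by
    rintro _ ⟨z, hz, rfl⟩
    exact hconst z hz
  have h4 := closure_mono h3 h2
  rw [closure_singleton, mem_singleton_iff] at h4
  rw [h4]
  exact hx

end QR

/-- sup distance -/
noncomputable def sd (x z : E n) : ℝ := dist (WithLp.ofLp x) (WithLp.ofLp z)

lemma sd_cont (x : E n) : Continuous (sd x) := by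
  unfold sd
  exact continuous_const.dist (PiLp.continuous_ofLp 2 _)

lemma sd_self (x : E n) : sd x x = 0 := dist_self _

lemma sd_comm (x z : E n) : sd x z = sd z x := dist_comm _ _

lemma sd_nonneg (x z : E n) : 0 ≤ sd x z := dist_nonneg

lemma sd_triangle (x y z : E n) : sd x z ≤ sd x y + sd y z := dist_triangle _ _ _

lemma sd_le_iff (x z : E n) (t : ℝ) (ht : 0 ≤ t) : sd x z ≤ t ↔ ∀ i, |x i - z i| ≤ t := by
  unfold sd
  rw [dist_pi_le_iff ht]
  simp only [Real.dist_eq]

lemma sd_le_dist (x z : E n) : sd x z ≤ dist x z := by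
  rw [sd_le_iff _ _ _ dist_nonneg]
  intro i
  have h1 := EuclideanSpace.norm_eq (x - z)
  rw [dist_eq_norm, h1]
  apply Real.abs_le_sqrt
  have h2 := Finset.single_le_sum (f := fun i => ‖(x - z) i‖ ^ 2) (fun i _ => by positivity)
    (Finset.mem_univ i)
  simpa using h2

lemma dist_le_sd (x z : E n) : dist x z ≤ Real.sqrt n * sd x z := by
  have h1 := EuclideanSpace.norm_eq (x - z)
  rw [dist_eq_norm, h1]
  have h2 : ∑ i, ‖(x - z) i‖ ^ 2 ≤ n * (sd x z) ^ 2 := by
    calc ∑ i, ‖(x - z) i‖ ^ 2 ≤ ∑ i : Fin n, (sd x z) ^ 2 := by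
          apply Finset.sum_le_sum
          intro i _
          have h3 := (sd_le_iff x z (sd x z) (sd_nonneg _ _)).mp le_rfl i
          have h4 : ‖(x - z) i‖ = |x i - z i| := rfl
          rw [h4]
          gcongr
      _ = n * (sd x z) ^ 2 := by simp
  calc Real.sqrt (∑ i, ‖(x - z) i‖ ^ 2) ≤ Real.sqrt (n * (sd x z) ^ 2) := Real.sqrt_le_sqrt h2
    _ = Real.sqrt n * sd x z := by
        rw [Real.sqrt_mul (Nat.cast_nonneg _), Real.sqrt_sq (sd_nonneg _ _)]

lemma sd_closed (x : E n) (t : ℝ) : IsCompact {z | sd x z ≤ t} := by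
  apply Metric.isCompact_of_isClosed_isBounded
  · exact isClosed_le (sd_cont x) continuous_const
  · apply (isBounded_closedBall (x := x) (r := Real.sqrt n * t)).subset
    intro z hz
    rw [mem_closedBall, dist_comm]
    refine (dist_le_sd x z).trans ?_
    have : sd x z ≤ t := hz
    gcongr

lemma sd_sphere (x : E n) (t : ℝ) : IsCompact {z | sd x z = t} := by
  apply (sd_closed x t).of_isClosed_subset
  · exact isClosed_eq (sd_cont x) continuous_const
  · intro z hz
    exact le_of_eq hz

lemma sd_sphere_nonempty (hn : 1 ≤ n) (x : E n) (t : ℝ) (ht : 0 ≤ t) : ∃ z, sd x z = t := by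
  set e : E n := EuclideanSpace.single ⟨0, hn⟩ t with he
  refine ⟨x + e, ?_⟩
  apply le_antisymm
  · rw [sd_le_iff _ _ _ ht]
    intro i
    have : x i - (x + e) i = - e i := by simp
    rw [this, abs_neg, he]
    by_cases h : i = ⟨0, hn⟩
    · subst h; simp [abs_of_nonneg ht]
    · simp [h, ht]
  · have h1 := (sd_le_iff x (x + e) (sd x (x + e)) (sd_nonneg _ _)).mp le_rfl ⟨0, hn⟩
    have : x ⟨0, hn⟩ - (x + e) ⟨0, hn⟩ = - t := by simp [he]
    rw [this, abs_neg, abs_of_nonneg ht] at h1
    exact h1

namespace QR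

variable (q : QR n)

/-- maximum principle on cubes -/
theorem max_principle (x y z : E n) (t : ℝ) (ht : 0 < t) (hz : sd x z ≤ t) :
    ∃ p, sd x p = t ∧ dist (q.f z) y ≤ dist (q.f p) y := by
  have hc : Continuous fun p => dist (q.f p) y := q.hf.dist continuous_const
  obtain ⟨p0, hp0, hp0m⟩ := (sd_sphere x t).exists_isMaxOn
    (sd_sphere_nonempty q.hn x t ht.le) hc.continuousOn
  obtain ⟨z0, hz0, hz0m⟩ := (sd_closed x t).exists_isMaxOn ⟨z, hz⟩ hc.continuousOn
  have hz0m' : ∀ w, sd x w ≤ t → dist (q.f w) y ≤ dist (q.f z0) y := fun w hw => hz0m hw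
  have hp0m' : ∀ w, sd x w = t → dist (q.f w) y ≤ dist (q.f p0) y := fun w hw => hp0m hw
  rcases le_or_gt (dist (q.f z0) y) (dist (q.f p0) y) with h | h
  · exact ⟨p0, hp0, (hz0m' z hz).trans h⟩
  exfalso
  set ρ := dist (q.f z0) y - dist (q.f p0) y with hρ
  have hρ0 : 0 < ρ := by linarith
  set U := q.comp (q.f z0) ρ z0 with hU
  have hz0U : z0 ∈ U := q.comp_mem _ _ _ (mem_ball_self hρ0)
  have hUS : ∀ u ∈ U, sd x u ≠ t := by
    intro u hu hut
    have h1 := q.comp_sub _ _ _ hu
    rw [mem_preimage, mem_ball] at h1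
    have h2 := hp0m' u hut
    have h3 := dist_triangle (q.f z0) (q.f u) y
    rw [dist_comm (q.f z0) (q.f u)] at h3
    linarith
  have hUQ : ∀ u ∈ U, sd x u ≤ t := by
    intro u hu
    by_contra hcon
    push Not at hcon
    have h1 := (q.comp_preconn (q.f z0) ρ z0).intermediate_value hz0U hu
      (sd_cont x).continuousOn
    obtain ⟨u', hu', hu't⟩ := h1 ⟨hz0, hcon.le⟩
    exact hUS u' hu' hu't
  have hsurj := q.comp_surj (q.f z0) ρ z0 (mem_ball_self hρ0)
  rw [← hU] at hsurj
  have hpos : 0 < dist (q.f z0) y := by linarith [dist_nonneg (x := q.f p0) (y := y)]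
  set w := q.f z0 + (ρ / 2 / dist (q.f z0) y) • (q.f z0 - y) with hw
  have hwb : w ∈ ball (q.f z0) ρ := by
    rw [mem_ball, dist_eq_norm, hw, add_sub_cancel_left, norm_smul, ← dist_eq_norm,
      Real.norm_eq_abs, abs_of_pos (by positivity), div_mul_cancel₀ _ hpos.ne']
    linarith
  rw [← hsurj] at hwb
  obtain ⟨u, hu, huw⟩ := hwb
  have h1 := hz0m' u (hUQ u hu)
  rw [huw] at h1
  have h2 : dist w y = dist (q.f z0) y + ρ / 2 := by
    have h3 : w - y = (1 + ρ / 2 / dist (q.f z0) y) • (q.f z0 - y) := by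
      rw [hw]; module
    rw [dist_eq_norm, h3, norm_smul, ← dist_eq_norm, Real.norm_eq_abs,
      abs_of_pos (by positivity)]
    field_simp
  linarith

end QR

end Pool.Agent.Work.MP_0f0f21_an
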