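import Mathlib

set_option autoImplicit false

open MeasureTheory Metric Set Filter Topology
open scoped ENNReal NNReal ContDiff

namespace Pool.Agent.Work.MP_0f0f21_an

/-- Euclidean space `ℝ^n`. -/
abbrev E (n : ℕ) := EuclideanSpace ℝ (Fin n)

/-- `g` is a weak (distributional) derivative of `f`: `g` is locally integrable and
`∫ (∂_v φ) f = - ∫ φ g v` for every test function `φ` and every vector `v`. -/
def IsWeakDeriv {n : ℕ} (f : E n → E n) (g : E n → (E n →L[ℝ] E n)) : Prop :=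
  LocallyIntegrable g volume ∧
  ∀ φ : E n → ℝ, ContDiff ℝ ∞ φ → HasCompactSupport φ → ∀ v : E n,
    ∫ x, (fderiv ℝ φ x v) • f x = - ∫ x, φ x • g x v

/-- Quasiregular maps of `ℝ^n`: continuous, in `W^{1,n}_loc`, with `|Df|^n ≤ K J_f` a.e. -/
def IsQuasiregular {n : ℕ} (f : E n → E n) : Prop :=
  Continuous f ∧ ∃ g : E n → (E n →L[ℝ] E n), IsWeakDeriv f g ∧
    LocallyIntegrable (fun x => ‖g x‖ ^ n) volume ∧
    ∃ K : ℝ, 1 ≤ K ∧ ∀ᵐ x, ‖g x‖ ^ n ≤ K * (g x).det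

/-- Polynomial type: `|f x| → ∞` as `|x| → ∞`. -/
def IsPolynomialType {n : ℕ} (f : E n → E n) : Prop :=
  Tendsto (fun x => ‖f x‖) (cocompact (E n)) atTop

end Pool.Agent.Work.MP_0f0f21_an
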