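import Pool.Agent.Work.MP_0f0f21_an.Cap

set_option autoImplicit false

open MeasureTheory Metric Set Filter Topology
open scoped ENNReal NNReal ContDiff

namespace Pool.Agent.Work.MP_0f0f21_an

/-- polar integral -/
lemma polar {n : ℕ} (hn : 1 ≤ n) (y : E n) (M L : ℝ) (hM : 0 < M) (hML : M ≤ L) :
    ∫⁻ w, (closedBall y L \ ball y M).indicator
      (fun w => ENNReal.ofReal ((dist w y ^ n)⁻¹)) w =
      ENNReal.ofReal (n * (volume : Measure (E n)).real (ball 0 1) * Real.log (L / M)) := by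
  have hnt : Nontrivial (E n) := by
    have : Nonempty (Fin n) := ⟨⟨0, hn⟩⟩
    infer_instance
  set φ : ℝ → ℝ := (Icc M L).indicator (fun r => (r ^ n)⁻¹) with hφ
  -- translate
  have h1 : ∫⁻ w, (closedBall y L \ ball y M).indicator
      (fun w => ENNReal.ofReal ((dist w y ^ n)⁻¹)) w = ∫⁻ w : E n, ENNReal.ofReal (φ ‖w‖) := by
    rw [← lintegral_sub_right_eq_self (μ := (volume : Measure (E n)))
      (fun w : E n => ENNReal.ofReal (φ ‖w‖)) y]
    apply lintegral_congr
    intro w
    rw [← dist_eq_norm]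
    by_cases hw : w ∈ closedBall y L \ ball y M
    · have hw' : dist w y ∈ Icc M L := by
        have h2 := hw.1
        have h3 := hw.2
        rw [mem_closedBall] at h2
        rw [mem_ball, not_lt] at h3
        exact ⟨h3, h2⟩
      rw [indicator_of_mem hw, hφ, indicator_of_mem hw']
    · have hw' : dist w y ∉ Icc M L := by
        intro h2
        apply hw
        refine ⟨h2.2, ?_⟩
        rw [mem_ball, not_lt]
        exact h2.1
      rw [indicator_of_notMem hw, hφ, indicator_of_notMem hw']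
      simp
  have hφm : Measurable φ := by
    apply Measurable.indicator _ measurableSet_Icc
    fun_prop
  have hφ0 : ∀ r, 0 ≤ φ r := by
    intro r
    rw [hφ]
    apply indicator_nonneg
    intro r hr
    have : 0 < r := lt_of_lt_of_le hM hr.1
    positivity
  have hint : Integrable (fun w : E n => φ ‖w‖) volume := by
    have h2 : (fun w : E n => φ ‖w‖) = (closedBall (0 : E n) L).indicator (fun w => φ ‖w‖) := by
      ext w
      by_cases hw : w ∈ closedBall (0 : E n) L
      · rw [indicator_of_mem hw]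
      · rw [indicator_of_notMem hw, hφ, indicator_of_notMem]
        intro h3
        apply hw
        rw [mem_closedBall, dist_zero_right]
        exact h3.2
    rw [h2, integrable_indicator_iff measurableSet_closedBall]
    apply Measure.integrableOn_of_bounded (M := (M ^ n)⁻¹) measure_closedBall_lt_top.ne
    · exact (hφm.comp measurable_norm).aestronglyMeasurable
    · apply Eventually.of_forall
      intro w
      rw [Real.norm_eq_abs, abs_of_nonneg (hφ0 _), hφ]
      by_cases hw : ‖w‖ ∈ Icc M L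
      · rw [indicator_of_mem hw]
        have := hw.1
        gcongr
      · rw [indicator_of_notMem hw]
        positivity
  rw [h1, ← ofReal_integral_eq_lintegral_ofReal hint (Eventually.of_forall fun w => hφ0 _)]
  congr 1
  rw [integral_fun_norm_addHaar]
  have h3 : Module.finrank ℝ (E n) = n := by simp
  rw [h3, nsmul_eq_mul, smul_eq_mul, ← mul_assoc]
  congr 1
  have h4 : ∫ r in Ioi (0:ℝ), r ^ (n - 1) • φ r = ∫ r in Icc M L, r⁻¹ := by
    rw [← integral_indicator measurableSet_Ioi, ← integral_indicator measurableSet_Icc]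
    congr 1
    ext r
    by_cases hr : r ∈ Icc M L
    · have hr0 : 0 < r := lt_of_lt_of_le hM hr.1
      rw [indicator_of_mem (by exact hr0 : r ∈ Ioi (0:ℝ)), indicator_of_mem hr, hφ,
        indicator_of_mem hr, smul_eq_mul]
      obtain ⟨k, rfl⟩ : ∃ k, n = k + 1 := ⟨n - 1, by omega⟩
      simp only [Nat.add_sub_cancel]
      rw [pow_succ]
      field_simp
    · rw [indicator_of_notMem hr]
      by_cases hr0 : r ∈ Ioi (0:ℝ)
      · rw [indicator_of_mem hr0, hφ, indicator_of_notMem hr, smul_zero]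
      · rw [indicator_of_notMem hr0]
  rw [h4, integral_Icc_eq_integral_Ioc, ← intervalIntegral.integral_of_le hML,
    integral_inv_of_pos hM (lt_of_lt_of_le hM hML)]

/-- the logarithmic cutoff -/
noncomputable def lc {n : ℕ} (y : E n) (M L : ℝ) (w : E n) : ℝ :=
  Real.smoothTransition ((Real.log (L ^ 2 + M ^ 2) - Real.log (‖w - y‖ ^ 2 + M ^ 2)) /
    (Real.log (L ^ 2 + M ^ 2) - Real.log (2 * M ^ 2)))

lemma lc_smooth {n : ℕ} (y : E n) (M L : ℝ) (hM : 0 < M) : ContDiff ℝ 1 (lc y M L) := by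
  unfold lc
  apply (Real.smoothTransition.contDiff (n := 1)).comp
  apply ContDiff.div_const
  apply contDiff_const.sub
  apply ContDiff.log
  · exact ((contDiff_id.sub contDiff_const).norm_sq ℝ).add contDiff_const
  · intro w
    positivity

lemma lc_den {M L : ℝ} (hM : 0 < M) (hML : 2 * M ≤ L) :
    Real.log (L / M) ≤ Real.log (L ^ 2 + M ^ 2) - Real.log (2 * M ^ 2) ∧
    0 < Real.log (L / M) := by
  have hL : 0 < L := by linarith
  have h1 : (1:ℝ) < L / M := by
    rw [lt_div_iff₀ hM]; linarith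
  refine ⟨?_, Real.log_pos h1⟩
  rw [← Real.log_div (by positivity) (by positivity)]
  apply Real.log_le_log (by positivity)
  rw [div_le_div_iff₀ hM (by positivity)]
  nlinarith [mul_pos hM hL, mul_nonneg (mul_pos hM hL).le (by linarith : (0:ℝ) ≤ L - 2 * M),
    pow_pos hM 3]

lemma lc_one {n : ℕ} (y : E n) (M L : ℝ) (hM : 0 < M) (hML : 2 * M ≤ L) (w : E n)
    (hw : dist w y ≤ M) : lc y M L w = 1 := by
  unfold lc
  apply Real.smoothTransition.one_of_one_le
  obtain ⟨h1, h2⟩ := lc_den hM hML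
  rw [one_le_div (by linarith)]
  apply sub_le_sub_left
  apply Real.log_le_log (by positivity)
  rw [dist_eq_norm] at hw
  have : ‖w - y‖ ^ 2 ≤ M ^ 2 := by gcongr
  linarith

lemma lc_zero {n : ℕ} (y : E n) (M L : ℝ) (hM : 0 < M) (hML : 2 * M ≤ L) (w : E n)
    (hw : L ≤ dist w y) : lc y M L w = 0 := by
  unfold lc
  apply Real.smoothTransition.zero_of_nonpos
  obtain ⟨h1, h2⟩ := lc_den hM hML
  apply div_nonpos_of_nonpos_of_nonneg _ (by linarith)
  rw [sub_nonpos]
  apply Real.log_le_log (by positivity)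
  rw [dist_eq_norm] at hw
  have : L ^ 2 ≤ ‖w - y‖ ^ 2 := by
    have : 0 < L := by linarith
    gcongr
  linarith

/-- bound for the derivative of the smooth transition -/
lemma st_bound : ∃ C : ℝ, 0 ≤ C ∧ ∀ s, |deriv Real.smoothTransition s| ≤ C := by
  have h1 : ContDiff ℝ 1 Real.smoothTransition := Real.smoothTransition.contDiff (n := 1)
  have h2 : Continuous (deriv Real.smoothTransition) := h1.continuous_deriv le_rfl
  obtain ⟨C, hC⟩ := (isCompact_Icc (a := (0:ℝ)) (b := 1)).exists_bound_of_continuousOn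
    h2.continuousOn
  have hC0 : 0 ≤ C := (norm_nonneg _).trans (hC 0 (by simp))
  refine ⟨C, hC0, ?_⟩
  intro s
  rcases lt_or_ge s 0 with h | h
  · have : Real.smoothTransition =ᶠ[𝓝 s] fun _ => 0 := by
      filter_upwards [eventually_lt_nhds h] with r hr
      exact Real.smoothTransition.zero_of_nonpos hr.le
    rw [this.deriv_eq]
    simpa using hC0
  · rcases lt_or_ge 1 s with h' | h'
    · have : Real.smoothTransition =ᶠ[𝓝 s] fun _ => 1 := by
        filter_upwards [eventually_gt_nhds h'] with r hr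
        exact Real.smoothTransition.one_of_one_le hr.le
      rw [this.deriv_eq]
      simpa using hC0
    · exact hC s ⟨h, h'⟩

lemma lc_fderiv {n : ℕ} : ∃ C : ℝ, 0 ≤ C ∧ ∀ (y : E n) (M L : ℝ) (_ : 0 < M) (_ : 2 * M ≤ L)
    (w : E n), ‖fderiv ℝ (lc y M L) w‖ ≤ (closedBall y L \ ball y M).indicator
      (fun w => C / Real.log (L / M) * (dist w y)⁻¹) w := by
  obtain ⟨C, hC0, hC⟩ := st_bound
  refine ⟨C * 2, by positivity, ?_⟩
  intro y M L hM hML w
  obtain ⟨hl1, hl2⟩ := lc_den hM hML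
  by_cases hw : w ∈ closedBall y L \ ball y M
  · rw [indicator_of_mem hw]
    have hw1 := hw.2
    rw [mem_ball, not_lt] at hw1
    have hd0 : 0 < dist w y := lt_of_lt_of_le hM hw1
    set D := Real.log (L ^ 2 + M ^ 2) - Real.log (2 * M ^ 2) with hD
    have hD0 : 0 < D := by linarith
    -- derivative
    have e1 : HasFDerivAt (fun w : E n => ‖w - y‖ ^ 2 + M ^ 2)
        (2 • (innerSL ℝ (w - y))) w := by
      have := (hasStrictFDerivAt_norm_sq (w - y)).hasFDerivAt
      have e2 := this.comp w ((hasFDerivAt_id w).sub_const y)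
      simpa using e2.add_const (M ^ 2)
    have e3 : HasFDerivAt (fun w : E n => (Real.log (L ^ 2 + M ^ 2) -
        Real.log (‖w - y‖ ^ 2 + M ^ 2)) / D)
        (D⁻¹ • (-((‖w - y‖ ^ 2 + M ^ 2)⁻¹ • (2 • (innerSL ℝ (w - y))) : E n →L[ℝ] ℝ))) w := by
      have e4 := (e1.log (by positivity)).const_sub (Real.log (L ^ 2 + M ^ 2))
      have e5 := e4.const_mul D⁻¹
      refine e5.congr_of_eventuallyEq (Eventually.of_forall fun z => ?_)
      simp only
      rw [div_eq_inv_mul]
    have e6 : HasDerivAt Real.smoothTransition (deriv Real.smoothTransition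
        ((Real.log (L ^ 2 + M ^ 2) - Real.log (‖w - y‖ ^ 2 + M ^ 2)) / D))
        ((Real.log (L ^ 2 + M ^ 2) - Real.log (‖w - y‖ ^ 2 + M ^ 2)) / D) :=
      ((Real.smoothTransition.contDiff (n := 1)).differentiable (by norm_num) _).hasDerivAt
    have e7 : HasFDerivAt (lc y M L) _ w := e6.comp_hasFDerivAt w e3
    rw [e7.fderiv, norm_smul, norm_smul, norm_neg, norm_smul]
    have e8 : ‖(2 • (innerSL ℝ (w - y)) : E n →L[ℝ] ℝ)‖ ≤ 2 * dist w y := by
      rw [← Nat.cast_smul_eq_nsmul ℝ, norm_smul, innerSL_apply_norm, dist_eq_norm]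
      simp
    have e9 : ‖D⁻¹‖ ≤ (Real.log (L / M))⁻¹ := by
      rw [norm_inv, Real.norm_eq_abs, abs_of_pos hD0]
      gcongr
    have e10 : ‖(‖w - y‖ ^ 2 + M ^ 2)⁻¹‖ ≤ (dist w y ^ 2)⁻¹ := by
      rw [norm_inv, Real.norm_eq_abs, abs_of_pos (by positivity), dist_eq_norm]
      rw [dist_eq_norm] at hd0
      gcongr
      nlinarith
    calc ‖deriv Real.smoothTransition _‖ * (‖D⁻¹‖ * (‖(‖w - y‖ ^ 2 + M ^ 2)⁻¹‖ *
          ‖(2 • (innerSL ℝ (w - y)) : E n →L[ℝ] ℝ)‖))
        ≤ C * ((Real.log (L / M))⁻¹ * ((dist w y ^ 2)⁻¹ * (2 * dist w y))) := by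
          gcongr
          exact hC _
      _ = C * 2 / Real.log (L / M) * (dist w y)⁻¹ := by
          field_simp
  · rw [indicator_of_notMem hw]
    have h0 : fderiv ℝ (lc y M L) w = 0 := by
      by_cases h1 : w ∈ closedBall y L
      · have h2 : w ∈ ball y M := by
          by_contra h3
          exact hw ⟨h1, h3⟩
        have : lc y M L =ᶠ[𝓝 w] fun _ => 1 := by
          filter_upwards [isOpen_ball.mem_nhds h2] with z hz
          exact lc_one y M L hM hML z (le_of_lt hz)
        rw [this.fderiv_eq]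
        simp
      · have h2 : w ∈ (closedBall y L)ᶜ := h1
        have : lc y M L =ᶠ[𝓝 w] fun _ => 0 := by
          filter_upwards [isClosed_closedBall.isOpen_compl.mem_nhds h2] with z hz
          apply lc_zero y M L hM hML z
          rw [mem_compl_iff, mem_closedBall, not_le] at hz
          exact hz.le
        rw [this.fderiv_eq]
        simp
    rw [h0]
    simp

/-- energy of the logarithmic cutoff -/
lemma lc_energy {n : ℕ} (hn : 1 ≤ n) : ∃ C : ℝ, 0 ≤ C ∧ ∀ (y : E n) (M L : ℝ) (_ : 0 < M)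
    (_ : 2 * M ≤ L), ∫⁻ w, ‖fderiv ℝ (lc y M L) w‖ₑ ^ n ≤
      ENNReal.ofReal (C / (Real.log (L / M)) ^ (n - 1)) := by
  obtain ⟨C, hC0, hC⟩ := lc_fderiv (n := n)
  refine ⟨C ^ n * (n * (volume : Measure (E n)).real (ball 0 1)), by positivity, ?_⟩
  intro y M L hM hML
  obtain ⟨hl1, hl2⟩ := lc_den hM hML
  calc ∫⁻ w, ‖fderiv ℝ (lc y M L) w‖ₑ ^ n
      ≤ ∫⁻ w, ENNReal.ofReal ((C / Real.log (L / M)) ^ n) *
          (closedBall y L \ ball y M).indicator
            (fun w => ENNReal.ofReal ((dist w y ^ n)⁻¹)) w := by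
        apply lintegral_mono
        intro w
        simp only
        have h1 := hC y M L hM hML w
        by_cases hw : w ∈ closedBall y L \ ball y M
        · rw [indicator_of_mem hw] at h1 ⊢
          have hw1 := hw.2
          rw [mem_ball, not_lt] at hw1
          have hd0 : 0 < dist w y := lt_of_lt_of_le hM hw1
          rw [← ENNReal.ofReal_mul (by positivity), ← ofReal_norm,
            ← ENNReal.ofReal_pow (norm_nonneg _)]
          apply ENNReal.ofReal_le_ofReal
          rw [← inv_pow, ← mul_pow]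
          gcongr
        · rw [indicator_of_notMem hw] at h1 ⊢
          have h2 : ‖fderiv ℝ (lc y M L) w‖ = 0 := le_antisymm h1 (norm_nonneg _)
          rw [← ofReal_norm, h2]
          simp
          omega
    _ = ENNReal.ofReal ((C / Real.log (L / M)) ^ n) *
          ENNReal.ofReal (n * (volume : Measure (E n)).real (ball 0 1) * Real.log (L / M)) := by
        rw [lintegral_const_mul' _ _ ENNReal.ofReal_ne_top,
          polar hn y M L hM (by linarith)]
    _ ≤ _ := by
        rw [← ENNReal.ofReal_mul (by positivity)]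
        apply ENNReal.ofReal_le_ofReal
        apply le_of_eq
        obtain ⟨k, rfl⟩ : ∃ k, n = k + 1 := ⟨n - 1, by omega⟩
        simp only [Nat.add_sub_cancel]
        rw [div_pow, pow_succ (Real.log (L / M))]
        field_simp

namespace QR

/-- energy of `Φ ∘ f` -/
lemma energy_le {n : ℕ} (q : QR n) (d : ℝ)
    (hd : ∀ Θ : E n → ℝ≥0∞, Measurable Θ →
      ∫⁻ x, Θ (q.f x) * ENNReal.ofReal (q.J x) = ENNReal.ofReal d * ∫⁻ z, Θ z)
    {F : Type} [NormedAddCommGroup F] [NormedSpace ℝ F]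
    (Φ : E n → F) (hΦ : ContDiff ℝ 1 Φ) (Q : Set (E n)) :
    ∫⁻ z in Q, ‖(fderiv ℝ Φ (q.f z)).comp (q.g z)‖ₑ ^ n ≤
      ENNReal.ofReal (q.K * d) * ∫⁻ w, ‖fderiv ℝ Φ w‖ₑ ^ n := by
  have hK := q.hK
  have hdΦ : Continuous (fderiv ℝ Φ) := hΦ.continuous_fderiv (by norm_num)
  calc ∫⁻ z in Q, ‖(fderiv ℝ Φ (q.f z)).comp (q.g z)‖ₑ ^ n
      ≤ ∫⁻ z, ‖(fderiv ℝ Φ (q.f z)).comp (q.g z)‖ₑ ^ n := setLIntegral_le_lintegral _ _
    _ ≤ ∫⁻ z, ENNReal.ofReal q.K * (‖fderiv ℝ Φ (q.f z)‖ₑ ^ n * ENNReal.ofReal (q.J z)) := by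
        apply lintegral_mono_ae
        filter_upwards [q.hqr] with z hz
        calc ‖(fderiv ℝ Φ (q.f z)).comp (q.g z)‖ₑ ^ n
            ≤ (‖fderiv ℝ Φ (q.f z)‖ₑ * ‖q.g z‖ₑ) ^ n := by
              gcongr
              rw [← ofReal_norm, ← ofReal_norm, ← ofReal_norm,
                ← ENNReal.ofReal_mul (norm_nonneg _)]
              apply ENNReal.ofReal_le_ofReal
              exact ContinuousLinearMap.opNorm_comp_le _ _
          _ = ‖fderiv ℝ Φ (q.f z)‖ₑ ^ n * ‖q.g z‖ₑ ^ n := mul_pow _ _ _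
          _ ≤ ‖fderiv ℝ Φ (q.f z)‖ₑ ^ n * (ENNReal.ofReal q.K * ENNReal.ofReal (q.J z)) := by
              gcongr
              rw [← ofReal_norm, ← ENNReal.ofReal_pow (norm_nonneg _),
                ← ENNReal.ofReal_mul (by linarith)]
              exact ENNReal.ofReal_le_ofReal hz
          _ = _ := by ring
    _ = ENNReal.ofReal q.K * ∫⁻ z, ‖fderiv ℝ Φ (q.f z)‖ₑ ^ n * ENNReal.ofReal (q.J z) :=
        lintegral_const_mul' _ _ ENNReal.ofReal_ne_top
    _ = ENNReal.ofReal q.K * (ENNReal.ofReal d * ∫⁻ w, ‖fderiv ℝ Φ w‖ₑ ^ n) := by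
        rw [hd (fun w => ‖fderiv ℝ Φ w‖ₑ ^ n) (hdΦ.enorm.measurable.pow_const _)]
    _ = _ := by
        rw [← mul_assoc, ← ENNReal.ofReal_mul (by linarith)]

/-- energy of `f` on a set, in terms of the Jacobian -/
lemma energy_J {n : ℕ} (q : QR n) (Q : Set (E n)) :
    ∫⁻ z in Q, ‖(fderiv ℝ (fun w : E n => w) (q.f z)).comp (q.g z)‖ₑ ^ n ≤
      ENNReal.ofReal q.K * ∫⁻ z in Q, ENNReal.ofReal (q.J z) := by
  have hK := q.hK
  rw [← lintegral_const_mul' _ _ ENNReal.ofReal_ne_top]
  apply lintegral_mono_ae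
  apply ae_restrict_of_ae
  filter_upwards [q.hqr] with z hz
  rw [fderiv_fun_id, ContinuousLinearMap.id_comp, ← ofReal_norm,
    ← ENNReal.ofReal_pow (norm_nonneg _), ← ENNReal.ofReal_mul (by linarith)]
  exact ENNReal.ofReal_le_ofReal hz

end QR

end Pool.Agent.Work.MP_0f0f21_an
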