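import Mathlib

set_option autoImplicit false

open MeasureTheory Metric Set Filter Topology
open scoped ENNReal NNReal

namespace Pool.Agent.Work.MP_0f0f21_an

section NL

variable {E : Type*} [NormedAddCommGroup E] [InnerProductSpace ℝ E] [FiniteDimensional ℝ E]

/-- interpolation of the polynomial `t ↦ det (1 + t A)` -/
lemma det_interp (t : Fin (Module.finrank ℝ E + 1) → ℝ) (ht : Function.Injective t) :
    ∃ l : Fin (Module.finrank ℝ E + 1) → ℝ, (∑ i, l i = 1) ∧
      ∀ A : E →L[ℝ] E, (ContinuousLinearMap.id ℝ E + A).det =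
        ∑ i, l i * (ContinuousLinearMap.id ℝ E + t i • A).det := by
  classical
  have hinj : Set.InjOn t (Finset.univ : Finset (Fin (Module.finrank ℝ E + 1))) := ht.injOn
  have key : ∀ p : Polynomial ℝ, p.degree < (Module.finrank ℝ E + 1 : ℕ) →
      p.eval 1 = ∑ i, (Lagrange.basis Finset.univ t i).eval 1 * p.eval (t i) := by
    intro p hp
    have h1 := Lagrange.eq_interpolate
      (s := (Finset.univ : Finset (Fin (Module.finrank ℝ E + 1)))) (v := t)
      (f := p) hinj (by simpa using hp)
    conv_lhs => rw [h1]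
    rw [Lagrange.interpolate_apply, Polynomial.eval_finsetSum]
    apply Finset.sum_congr rfl
    intro i _
    simp [mul_comm]
  refine ⟨fun i => (Lagrange.basis Finset.univ t i).eval 1, ?_, ?_⟩
  · have := key 1 (by
      rw [Polynomial.degree_one]
      exact_mod_cast Nat.succ_pos _)
    simpa using this.symm
  · intro A
    set b := Module.finBasis ℝ E
    set M := LinearMap.toMatrix b b (A : E →ₗ[ℝ] E) with hM
    have hdet : ∀ s : ℝ, (ContinuousLinearMap.id ℝ E + s • A).det =
        (Matrix.det ((Polynomial.X : Polynomial ℝ) • M.map Polynomial.C +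
          (1 : Matrix (Fin (Module.finrank ℝ E)) (Fin (Module.finrank ℝ E)) ℝ).map
            Polynomial.C)).eval s := by
      intro s
      have e1 : (ContinuousLinearMap.id ℝ E + s • A).det =
          Matrix.det (LinearMap.toMatrix b b
            ((ContinuousLinearMap.id ℝ E + s • A : E →L[ℝ] E) : E →ₗ[ℝ] E)) := by
        rw [LinearMap.det_toMatrix]
      rw [e1]
      have e2 : ((ContinuousLinearMap.id ℝ E + s • A : E →L[ℝ] E) : E →ₗ[ℝ] E) =
          LinearMap.id + s • (A : E →ₗ[ℝ] E) := rfl
      rw [e2, map_add, map_smul, LinearMap.toMatrix_id, ← hM]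
      rw [← Polynomial.coe_evalRingHom, RingHom.map_det]
      congr 1
      ext i j
      simp only [Matrix.add_apply, Matrix.smul_apply, smul_eq_mul, RingHom.mapMatrix_apply,
        Matrix.map_apply, map_add, Polynomial.coe_evalRingHom, Polynomial.eval_X,
        Polynomial.eval_C, Polynomial.eval_mul]
      ring
    have h1 := hdet 1
    rw [one_smul] at h1
    rw [h1, key _ ?_]
    · apply Finset.sum_congr rfl
      intro i _
      rw [hdet (t i)]
    · refine lt_of_le_of_lt Polynomial.degree_le_natDegree ?_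
      have := Polynomial.natDegree_det_X_add_C_le M
        (1 : Matrix (Fin (Module.finrank ℝ E)) (Fin (Module.finrank ℝ E)) ℝ)
      rw [Fintype.card_fin] at this
      exact_mod_cast Nat.lt_succ_of_le this

/-- volume of the image of a ball under a compactly supported perturbation of the identity -/
lemma vol_small [MeasurableSpace E] [BorelSpace E] (w : E → E) (hw : ContDiff ℝ 1 w) (R : ℝ)
    (hs : ∀ x, x ∉ ball (0:E) R → w x = 0) (L : ℝ≥0) (hL : ∀ x, ‖fderiv ℝ w x‖ ≤ L)
    (t : ℝ) (ht0 : 0 < t) (ht1 : t * L < 1) :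
    ∫ x in ball (0:E) R, (ContinuousLinearMap.id ℝ E + t • fderiv ℝ w x).det =
        (volume : Measure E).real (ball (0:E) R) := by
  have hlip : LipschitzWith L w := by
    apply lipschitzWith_of_nnnorm_fderiv_le (hw.differentiable (by norm_num))
    intro x
    exact hL x
  set h : E → E := fun x => x + t • w x with hh
  have happ : ApproximatesLinearOn h ((ContinuousLinearEquiv.refl ℝ E : E ≃L[ℝ] E) : E →L[ℝ] E)
      univ (⟨t, ht0.le⟩ * L) := by
    intro x _ y _
    have h1 : h x - h y - ((ContinuousLinearEquiv.refl ℝ E : E ≃L[ℝ] E) : E →L[ℝ] E) (x - y) =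
        t • (w x - w y) := by
      simp only [hh, ContinuousLinearEquiv.coe_refl, ContinuousLinearMap.id_apply]
      module
    rw [h1, norm_smul, Real.norm_eq_abs, abs_of_pos ht0]
    have h2 := hlip.dist_le_mul x y
    rw [dist_eq_norm, dist_eq_norm] at h2
    have h3 : ((⟨t, ht0.le⟩ * L : ℝ≥0) : ℝ) = t * L := rfl
    rw [h3, mul_assoc]
    gcongr
  have hc : Subsingleton E ∨ (⟨t, ht0.le⟩ * L : ℝ≥0) <
      ‖((ContinuousLinearEquiv.refl ℝ E : E ≃L[ℝ] E).symm : E →L[ℝ] E)‖₊⁻¹ := by
    rcases subsingleton_or_nontrivial E with hE | hE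
    · left; exact hE
    · right
      have h1 : ‖((ContinuousLinearEquiv.refl ℝ E : E ≃L[ℝ] E).symm : E →L[ℝ] E)‖₊ = 1 := by
        apply NNReal.eq
        simp
      rw [h1, inv_one]
      exact_mod_cast ht1
  have hinj : Function.Injective h := injOn_univ.mp (happ.injOn hc)
  have hsurj : Function.Surjective h := happ.surjective hc
  have hfix : ∀ x, x ∉ ball (0:E) R → h x = x := by
    intro x hx
    simp [hh, hs x hx]
  have himage : h '' ball (0:E) R = ball (0:E) R := by
    apply Subset.antisymm
    · rintro _ ⟨x, hx, rfl⟩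
      by_contra hcon
      have h1 := hfix _ hcon
      have h2 := hinj h1
      rw [h2] at hcon
      exact hcon hx
    · intro y hy
      obtain ⟨x, rfl⟩ := hsurj y
      refine ⟨x, ?_, rfl⟩
      by_contra hcon
      rw [hfix x hcon] at hy
      exact hcon hy
  have hder : ∀ x ∈ ball (0:E) R,
      HasFDerivWithinAt h (ContinuousLinearMap.id ℝ E + t • fderiv ℝ w x) (ball (0:E) R) x := by
    intro x _
    exact ((hasFDerivAt_id x).add
      ((hw.differentiable (by norm_num) x).hasFDerivAt.const_smul t)).hasFDerivWithinAt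
  have hcv := integral_image_eq_integral_abs_det_fderiv_smul (volume : Measure E)
    measurableSet_ball hder hinj.injOn (fun _ => (1:ℝ))
  rw [himage] at hcv
  have hpos : ∀ x ∈ ball (0:E) R, 0 < (ContinuousLinearMap.id ℝ E + t • fderiv ℝ w x).det := by
    intro x hx
    have hne : ∀ s ∈ Icc (0:ℝ) t, (ContinuousLinearMap.id ℝ E + s • fderiv ℝ w x).det ≠ 0 := by
      intro s hs hzero
      obtain ⟨v, hv0, hv⟩ : ∃ v : E, v ≠ 0 ∧
          (ContinuousLinearMap.id ℝ E + s • fderiv ℝ w x) v = 0 := by
        have hz : LinearMap.det ((ContinuousLinearMap.id ℝ E + s • fderiv ℝ w x : E →L[ℝ] E) :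
          E →ₗ[ℝ] E) = 0 := hzero
        have hk := LinearMap.bot_lt_ker_of_det_eq_zero hz
        obtain ⟨v, hv, hv0⟩ := (Submodule.ne_bot_iff _).mp hk.ne'
        exact ⟨v, hv0, hv⟩
      have h1 : v = -(s • fderiv ℝ w x v) := by
        have : v + s • fderiv ℝ w x v = 0 := by simpa using hv
        exact eq_neg_of_add_eq_zero_left this
      have h2 : ‖v‖ ≤ s * (L * ‖v‖) := by
        conv_lhs => rw [h1]
        rw [norm_neg, norm_smul, Real.norm_eq_abs, abs_of_nonneg hs.1]
        have := (fderiv ℝ w x).le_opNorm v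
        have h3 : ‖fderiv ℝ w x‖ ≤ L := hL x
        have h4 : ‖fderiv ℝ w x v‖ ≤ L * ‖v‖ := this.trans (by gcongr)
        exact mul_le_mul_of_nonneg_left h4 hs.1
      have hvp : 0 < ‖v‖ := norm_pos_iff.mpr hv0
      have h5 : s * L ≤ t * L := by
        have := hs.2
        gcongr
      nlinarith
    have hcs : ContinuousOn (fun s : ℝ => (ContinuousLinearMap.id ℝ E + s • fderiv ℝ w x).det)
        (Icc 0 t) := by
      have h1 : Continuous (fun A : E →L[ℝ] E => A.det) := ContinuousLinearMap.continuous_det
      exact (h1.comp (by fun_prop)).continuousOn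
    by_contra hcon
    push Not at hcon
    have himg := intermediate_value_Icc' ht0.le hcs
    have h0 : (0:ℝ) ∈ Icc ((ContinuousLinearMap.id ℝ E + t • fderiv ℝ w x).det)
        ((ContinuousLinearMap.id ℝ E + (0:ℝ) • fderiv ℝ w x).det) := by
      constructor
      · exact hcon
      · rw [zero_smul, add_zero]
        have : (ContinuousLinearMap.id ℝ E).det = 1 := LinearMap.det_id
        rw [this]; exact zero_le_one
    obtain ⟨s, hs, hs'⟩ := himg h0
    exact hne s hs hs'
  have h1 : ∫ x in ball (0:E) R, (ContinuousLinearMap.id ℝ E + t • fderiv ℝ w x).det =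
      ∫ x in ball (0:E) R, |(ContinuousLinearMap.id ℝ E + t • fderiv ℝ w x).det| • (1:ℝ) := by
    apply setIntegral_congr_fun measurableSet_ball
    intro x hx
    simp [abs_of_pos (hpos x hx)]
  rw [h1, ← hcv]
  simp

/-- the Jacobian of a compactly supported perturbation of the identity has the integral of `1` -/
lemma vol_one [MeasurableSpace E] [BorelSpace E] (w : E → E) (hw : ContDiff ℝ 1 w) (R : ℝ)
    (hs : ∀ x, x ∉ ball (0:E) R → w x = 0) :
    ∫ x in ball (0:E) R, (ContinuousLinearMap.id ℝ E + fderiv ℝ w x).det =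
        (volume : Measure E).real (ball (0:E) R) := by
  classical
  have hcd : Continuous (fderiv ℝ w) := hw.continuous_fderiv (by norm_num)
  have hsupp : HasCompactSupport w := by
    apply HasCompactSupport.intro (isCompact_closedBall (0:E) R)
    intro x hx
    exact hs x fun h => hx (ball_subset_closedBall h)
  obtain ⟨K, hK⟩ : ∃ K : ℝ, ∀ x, ‖fderiv ℝ w x‖ ≤ K := by
    have h1 : HasCompactSupport (fderiv ℝ w) := hsupp.fderiv ℝ
    exact h1.exists_bound_of_continuous hcd
  set L : ℝ≥0 := ⟨max K 1, le_trans zero_le_one (le_max_right _ _)⟩ with hL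
  have hLpos : (0:ℝ) < L := lt_of_lt_of_le zero_lt_one (le_max_right _ _)
  have hLK : ∀ x, ‖fderiv ℝ w x‖ ≤ L := fun x => (hK x).trans (le_max_left _ _)
  have hint : ∀ t : ℝ, IntegrableOn (fun x => (ContinuousLinearMap.id ℝ E +
      t • fderiv ℝ w x).det) (ball (0:E) R) (volume : Measure E) := fun t => by
    have h1 : Continuous (fun A : E →L[ℝ] E => A.det) := ContinuousLinearMap.continuous_det
    have h2 : Continuous (fun x => (ContinuousLinearMap.id ℝ E + t • fderiv ℝ w x).det) :=
      h1.comp (continuous_const.add (hcd.const_smul t))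
    exact (h2.continuousOn.integrableOn_compact (isCompact_closedBall 0 R)).mono_set
      ball_subset_closedBall
  set t : Fin (Module.finrank ℝ E + 1) → ℝ :=
    fun i => (1 / (2 * L)) / ((i : ℝ) + 1) with htdef
  have hti : Function.Injective t := by
    intro i j hij
    have hp : (0:ℝ) < 1 / (2 * L) := by positivity
    have h1 : ((i:ℕ):ℝ) + 1 = ((j:ℕ):ℝ) + 1 := by
      have hi : (0:ℝ) < ((i:ℕ):ℝ) + 1 := by positivity
      have hj : (0:ℝ) < ((j:ℕ):ℝ) + 1 := by positivity
      simp only [htdef] at hij
      rw [div_eq_div_iff hi.ne' hj.ne'] at hij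
      exact (mul_left_cancel₀ hp.ne' hij).symm
    have h2 : (i:ℕ) = (j:ℕ) := by exact_mod_cast add_right_cancel h1
    exact Fin.ext h2
  obtain ⟨l, hl1, hl2⟩ := det_interp (E := E) t hti
  have htpos : ∀ i, 0 < t i := fun i => by
    simp only [htdef]; positivity
  have htlt : ∀ i, t i * L < 1 := by
    intro i
    have h1 : t i ≤ 1 / (2 * L) := by
      simp only [htdef]
      apply div_le_self (by positivity)
      have : (0:ℝ) ≤ ((i:ℕ):ℝ) := by positivity
      linarith
    calc t i * L ≤ 1 / (2 * L) * L := by gcongr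
      _ = 1/2 := by field_simp
      _ < 1 := by norm_num
  calc ∫ x in ball (0:E) R, (ContinuousLinearMap.id ℝ E + fderiv ℝ w x).det
      = ∫ x in ball (0:E) R,
          ∑ i, l i * (ContinuousLinearMap.id ℝ E + t i • fderiv ℝ w x).det := by
        congr 1
        ext x
        exact hl2 (fderiv ℝ w x)
    _ = ∑ i, l i * ∫ x in ball (0:E) R,
          (ContinuousLinearMap.id ℝ E + t i • fderiv ℝ w x).det := by
        rw [integral_finsetSum]
        · apply Finset.sum_congr rfl
          intro i _
          rw [integral_const_mul]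
        · intro i _
          exact (hint (t i)).const_mul (l i)
    _ = ∑ i, l i * (volume : Measure E).real (ball (0:E) R) := by
        apply Finset.sum_congr rfl
        intro i _
        rw [vol_small w hw R hs L hLK (t i) (htpos i) (htlt i)]
    _ = (volume : Measure E).real (ball (0:E) R) := by
        rw [← Finset.sum_mul, hl1, one_mul]

/-- Null Lagrangian: a compactly supported perturbation does not change the integral of the
Jacobian. -/
theorem nl [MeasurableSpace E] [BorelSpace E] (g h : E → E) (hg : ContDiff ℝ 1 g)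
    (hh : ContDiff ℝ 1 h) (hs : HasCompactSupport h) :
    ∫ x, ((fderiv ℝ g x + fderiv ℝ h x).det - (fderiv ℝ g x).det) = 0 := by
  obtain ⟨R, hR0, hR⟩ : ∃ R : ℝ, 0 < R ∧ tsupport h ⊆ ball (0:E) R := by
    obtain ⟨R, hR⟩ := hs.isCompact.isBounded.subset_ball (0:E)
    exact ⟨max R 1, by positivity, hR.trans (ball_subset_ball (le_max_left _ _))⟩
  -- cutoff
  set χ : ContDiffBump (0:E) := ⟨R, 2 * R, hR0, by linarith⟩ with hχ
  have hχs : ContDiff ℝ 1 (χ : E → ℝ) := χ.contDiff
  set w1 : E → E := fun x => χ x • (g x - x) with hw1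
  set w2 : E → E := fun x => χ x • (g x - x) + h x with hw2
  have hw1s : ContDiff ℝ 1 w1 := hχs.smul (hg.sub contDiff_id)
  have hw2s : ContDiff ℝ 1 w2 := hw1s.add hh
  have hout : ∀ x, x ∉ ball (0:E) (2 * R) → χ x = 0 := by
    intro x hx
    apply χ.zero_of_le_dist
    simpa using hx
  have hhout : ∀ x, x ∉ ball (0:E) R → h x = 0 := by
    intro x hx
    exact image_eq_zero_of_notMem_tsupport fun h' => hx (hR h')
  have e1 := vol_one w1 hw1s (2 * R) (fun x hx => by simp [hw1, hout x hx])
  have e2 := vol_one w2 hw2s (2 * R) (fun x hx => by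
    have : x ∉ ball (0:E) R := fun h' => hx (ball_subset_ball (by linarith) h')
    simp [hw2, hout x hx, hhout x this])
  have hcd : Continuous (fun A : E →L[ℝ] E => A.det) := ContinuousLinearMap.continuous_det
  have hint1 : IntegrableOn (fun x => (ContinuousLinearMap.id ℝ E + fderiv ℝ w1 x).det)
      (ball (0:E) (2 * R)) (volume : Measure E) := by
    have h2 : Continuous (fun x => (ContinuousLinearMap.id ℝ E + fderiv ℝ w1 x).det) :=
      hcd.comp (continuous_const.add (hw1s.continuous_fderiv (by norm_num)))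
    exact (h2.continuousOn.integrableOn_compact (isCompact_closedBall 0 _)).mono_set
      ball_subset_closedBall
  have hint2 : IntegrableOn (fun x => (ContinuousLinearMap.id ℝ E + fderiv ℝ w2 x).det)
      (ball (0:E) (2 * R)) (volume : Measure E) := by
    have h2 : Continuous (fun x => (ContinuousLinearMap.id ℝ E + fderiv ℝ w2 x).det) :=
      hcd.comp (continuous_const.add (hw2s.continuous_fderiv (by norm_num)))
    exact (h2.continuousOn.integrableOn_compact (isCompact_closedBall 0 _)).mono_set
      ball_subset_closedBall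
  have hfd2 : ∀ x, fderiv ℝ w2 x = fderiv ℝ w1 x + fderiv ℝ h x := by
    intro x
    exact fderiv_add (hw1s.differentiable (by norm_num) x) (hh.differentiable (by norm_num) x)
  have hfh : ∀ x, x ∉ ball (0:E) R → fderiv ℝ h x = 0 := by
    intro x hx
    have : x ∉ tsupport h := fun h' => hx (hR h')
    have h2 : x ∉ tsupport (fderiv ℝ h) := fun h' => this (tsupport_fderiv_subset ℝ h')
    exact image_eq_zero_of_notMem_tsupport h2
  have hfg : ∀ x, x ∈ ball (0:E) R → ContinuousLinearMap.id ℝ E + fderiv ℝ w1 x =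
      fderiv ℝ g x := by
    intro x hx
    have h1 : w1 =ᶠ[𝓝 x] fun y => g y - y := by
      filter_upwards [isOpen_ball.mem_nhds hx] with y hy
      have : χ y = 1 := χ.one_of_mem_closedBall (ball_subset_closedBall hy)
      simp [hw1, this]
    rw [h1.fderiv_eq, fderiv_fun_sub (hg.differentiable (by norm_num) x) differentiableAt_fun_id,
      fderiv_id']
    abel
  have key : ∀ x, (ball (0:E) (2 * R)).indicator (fun x =>
      (ContinuousLinearMap.id ℝ E + fderiv ℝ w2 x).det -
        (ContinuousLinearMap.id ℝ E + fderiv ℝ w1 x).det) x =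
      (fderiv ℝ g x + fderiv ℝ h x).det - (fderiv ℝ g x).det := by
    intro x
    by_cases hx : x ∈ ball (0:E) R
    · have hx2 : x ∈ ball (0:E) (2 * R) := ball_subset_ball (by linarith) hx
      rw [indicator_of_mem hx2, hfd2, ← add_assoc, hfg x hx]
    · rw [hfh x hx, add_zero, sub_self]
      by_cases hx2 : x ∈ ball (0:E) (2 * R)
      · rw [indicator_of_mem hx2, hfd2, hfh x hx, add_zero, sub_self]
      · rw [indicator_of_notMem hx2]
  calc ∫ x, ((fderiv ℝ g x + fderiv ℝ h x).det - (fderiv ℝ g x).det)
      = ∫ x, (ball (0:E) (2 * R)).indicator (fun x =>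
      (ContinuousLinearMap.id ℝ E + fderiv ℝ w2 x).det -
        (ContinuousLinearMap.id ℝ E + fderiv ℝ w1 x).det) x := by
        congr 1
        ext x
        exact (key x).symm
    _ = ∫ x in ball (0:E) (2 * R), ((ContinuousLinearMap.id ℝ E + fderiv ℝ w2 x).det -
        (ContinuousLinearMap.id ℝ E + fderiv ℝ w1 x).det) :=
        integral_indicator measurableSet_ball
    _ = 0 := by
        rw [integral_sub hint2 hint1, e1, e2, sub_self]

end NL

end Pool.Agent.Work.MP_0f0f21_an
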