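import Pool.Agent.Work.MP_0f0f21_an.Moll
import Pool.Agent.Work.MP_0f0f21_an.NL

set_option autoImplicit false

open MeasureTheory Metric Set Filter Topology
open scoped ENNReal NNReal ContDiff

namespace Pool.Agent.Work.MP_0f0f21_an

/-- elementary inequality -/
lemma split_ineq (s b δ : ℝ) (hs : 0 ≤ s) (hb : 0 ≤ b) (hδ : 0 < δ) (n : ℕ) (hn : 1 ≤ n) :
    s * (s + b) ^ (n - 1) ≤ δ * (2 ^ n * (s ^ n + b ^ n)) + (δ⁻¹) ^ (n - 1) * s ^ n := by
  obtain ⟨m, rfl⟩ : ∃ m, n = m + 1 := ⟨n - 1, by omega⟩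
  simp only [Nat.add_sub_cancel]
  have hsb : (s + b) ^ (m + 1) ≤ 2 ^ (m + 1) * (s ^ (m + 1) + b ^ (m + 1)) := by
    rcases le_total s b with h | h
    · calc (s + b) ^ (m + 1) ≤ (2 * b) ^ (m + 1) := by gcongr; linarith
        _ = 2 ^ (m + 1) * b ^ (m + 1) := mul_pow _ _ _
        _ ≤ _ := by
          have : 0 ≤ s ^ (m + 1) := by positivity
          gcongr
          linarith
    · calc (s + b) ^ (m + 1) ≤ (2 * s) ^ (m + 1) := by gcongr; linarith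
        _ = 2 ^ (m + 1) * s ^ (m + 1) := mul_pow _ _ _
        _ ≤ _ := by
          have : 0 ≤ b ^ (m + 1) := by positivity
          gcongr
          linarith
  rcases le_total s (δ * (s + b)) with h | h
  · calc s * (s + b) ^ m ≤ (δ * (s + b)) * (s + b) ^ m := by gcongr
      _ = δ * (s + b) ^ (m + 1) := by ring
      _ ≤ δ * (2 ^ (m + 1) * (s ^ (m + 1) + b ^ (m + 1))) := by gcongr
      _ ≤ _ := by
        have : 0 ≤ (δ⁻¹) ^ m * s ^ (m + 1) := by positivity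
        linarith
  · have h1 : s + b ≤ δ⁻¹ * s := by
      rw [inv_mul_eq_div, le_div_iff₀ hδ]
      linarith
    calc s * (s + b) ^ m ≤ s * (δ⁻¹ * s) ^ m := by gcongr
      _ = (δ⁻¹) ^ m * s ^ (m + 1) := by rw [mul_pow]; ring
      _ ≤ _ := by
        have : 0 ≤ δ * (2 ^ (m + 1) * (s ^ (m + 1) + b ^ (m + 1))) := by positivity
        linarith

/-- `L^1` convergence of functions of degree `n` along an `L^n` convergent sequence -/
lemma L1conv {α V W : Type*} [MeasurableSpace α] (μ : Measure α) [NormedAddCommGroup V]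
    [NormedAddCommGroup W] (n : ℕ) (hn : 1 ≤ n) (A : ℕ → α → V) (B : α → V) (Ψ : V → W) (C : ℝ)
    (hC : 0 ≤ C) (hΨ : ∀ a b, ‖Ψ a - Ψ b‖ ≤ C * (‖a - b‖ * (‖a - b‖ + ‖b‖) ^ (n - 1)))
    (hBm : AEStronglyMeasurable B μ)
    (hB : ∫⁻ x, ‖B x‖ₑ ^ n ∂μ ≠ ⊤)
    (hAB : Tendsto (fun k => ∫⁻ x, ‖A k x - B x‖ₑ ^ n ∂μ) atTop (𝓝 0)) :
    Tendsto (fun k => ∫⁻ x, ‖Ψ (A k x) - Ψ (B x)‖ₑ ∂μ) atTop (𝓝 0) := by
  set M := ∫⁻ x, ‖B x‖ₑ ^ n ∂μ with hM
  -- bound for each δ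
  have hbd : ∀ δ : ℝ, 0 < δ → ∀ k, ∫⁻ x, ‖Ψ (A k x) - Ψ (B x)‖ₑ ∂μ ≤
      ENNReal.ofReal (C * δ * 2 ^ n) * M +
        ENNReal.ofReal (C * (δ * 2 ^ n + (δ⁻¹) ^ (n - 1))) * ∫⁻ x, ‖A k x - B x‖ₑ ^ n ∂μ := by
    intro δ hδ k
    rw [hM, ← lintegral_const_mul' _ _ (by simp), ← lintegral_const_mul' _ _ (by simp),
      ← lintegral_add_left' ((hBm.enorm.pow_const n).const_mul _)]
    apply lintegral_mono
    intro x
    simp only
    have h1 : ‖Ψ (A k x) - Ψ (B x)‖ ≤ C * δ * 2 ^ n * ‖B x‖ ^ n +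
        C * (δ * 2 ^ n + (δ⁻¹) ^ (n - 1)) * ‖A k x - B x‖ ^ n := by
      refine (hΨ _ _).trans ?_
      have h2 := split_ineq ‖A k x - B x‖ ‖B x‖ δ (norm_nonneg _) (norm_nonneg _) hδ n hn
      calc C * (‖A k x - B x‖ * (‖A k x - B x‖ + ‖B x‖) ^ (n - 1))
          ≤ C * (δ * (2 ^ n * (‖A k x - B x‖ ^ n + ‖B x‖ ^ n)) +
            (δ⁻¹) ^ (n - 1) * ‖A k x - B x‖ ^ n) := by gcongr
        _ = _ := by ring
    rw [← ofReal_norm]
    refine (ENNReal.ofReal_le_ofReal h1).trans ?_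
    rw [ENNReal.ofReal_add (by positivity) (by positivity),
      ENNReal.ofReal_mul (p := C * δ * 2 ^ n) (by positivity),
      ENNReal.ofReal_mul (p := C * (δ * 2 ^ n + (δ⁻¹) ^ (n - 1))) (by positivity),
      ENNReal.ofReal_pow (norm_nonneg _),
      ENNReal.ofReal_pow (norm_nonneg _), ofReal_norm, ofReal_norm]
  rw [ENNReal.tendsto_nhds_zero]
  intro ε hε
  obtain ⟨δ, hδ, hδε⟩ : ∃ δ : ℝ, 0 < δ ∧ ENNReal.ofReal (C * δ * 2 ^ n) * M ≤ ε / 2 := by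
    have ht : Tendsto (fun δ : ℝ => ENNReal.ofReal (C * δ * 2 ^ n) * M) (𝓝[>] 0) (𝓝 0) := by
      have h1 : Tendsto (fun δ : ℝ => ENNReal.ofReal (C * δ * 2 ^ n)) (𝓝[>] 0) (𝓝 0) := by
        have h2 : Tendsto (fun δ : ℝ => C * δ * 2 ^ n) (𝓝[>] 0) (𝓝 (C * 0 * 2 ^ n)) := by
          apply Tendsto.mono_left _ nhdsWithin_le_nhds
          exact (Continuous.tendsto (by fun_prop) 0)
        have := ENNReal.tendsto_ofReal h2
        simpa using this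
      have h3 := ENNReal.Tendsto.mul_const h1 (b := M) (Or.inr hB)
      simpa using h3
    have h1 := (ENNReal.tendsto_nhds_zero.mp ht (ε / 2) (ENNReal.half_pos hε.ne')).and
      self_mem_nhdsWithin
    obtain ⟨δ, h2, h3⟩ := h1.exists
    exact ⟨δ, h3, h2⟩
  have ht2 : Tendsto (fun k => ENNReal.ofReal (C * (δ * 2 ^ n + (δ⁻¹) ^ (n - 1))) *
      ∫⁻ x, ‖A k x - B x‖ₑ ^ n ∂μ) atTop (𝓝 0) := by
    have := ENNReal.Tendsto.const_mul (a := ENNReal.ofReal (C * (δ * 2 ^ n + (δ⁻¹) ^ (n - 1))))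
      hAB (Or.inr (by simp))
    simpa using this
  filter_upwards [ENNReal.tendsto_nhds_zero.mp ht2 (ε / 2) (ENNReal.half_pos hε.ne')] with k hk
  calc ∫⁻ x, ‖Ψ (A k x) - Ψ (B x)‖ₑ ∂μ ≤ _ := hbd δ hδ k
    _ ≤ ε / 2 + ε / 2 := add_le_add hδε hk
    _ = ε := ENNReal.add_halves ε

/-- `a ↦ ‖a‖ ^ n` has degree `n` -/
lemma norm_pow_deg {V : Type*} [NormedAddCommGroup V] (n : ℕ) (hn : 1 ≤ n) (a b : V) :
    ‖‖a‖ ^ n - ‖b‖ ^ n‖ ≤ n * (‖a - b‖ * (‖a - b‖ + ‖b‖) ^ (n - 1)) := by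
  obtain ⟨m, rfl⟩ : ∃ m, n = m + 1 := ⟨n - 1, by omega⟩
  simp only [Nat.add_sub_cancel]
  have h0 : ‖a‖ ≤ ‖a - b‖ + ‖b‖ := by
    have := norm_add_le (a - b) b
    simpa using this
  have h1 : ‖b‖ ≤ ‖a - b‖ + ‖b‖ := by linarith [norm_nonneg (a - b)]
  have h2 : |‖a‖ - ‖b‖| ≤ ‖a - b‖ := abs_norm_sub_norm_le a b
  have h3 : ‖a‖ ^ (m + 1) - ‖b‖ ^ (m + 1) =
      (∑ i ∈ Finset.range (m + 1), ‖a‖ ^ i * ‖b‖ ^ (m + 1 - 1 - i)) * (‖a‖ - ‖b‖) :=
    (Commute.all ‖a‖ ‖b‖).geom_sum₂_mul (m + 1) |>.symm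
  rw [h3, norm_mul, Real.norm_eq_abs, Real.norm_eq_abs]
  have h4 : |∑ i ∈ Finset.range (m + 1), ‖a‖ ^ i * ‖b‖ ^ (m + 1 - 1 - i)| ≤
      ((m + 1 : ℕ) : ℝ) * (‖a - b‖ + ‖b‖) ^ m := by
    rw [abs_of_nonneg (by positivity)]
    calc ∑ i ∈ Finset.range (m + 1), ‖a‖ ^ i * ‖b‖ ^ (m + 1 - 1 - i)
        ≤ ∑ i ∈ Finset.range (m + 1), (‖a - b‖ + ‖b‖) ^ m := by
          apply Finset.sum_le_sum
          intro i hi
          rw [Finset.mem_range] at hi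
          calc ‖a‖ ^ i * ‖b‖ ^ (m + 1 - 1 - i)
              ≤ (‖a - b‖ + ‖b‖) ^ i * (‖a - b‖ + ‖b‖) ^ (m + 1 - 1 - i) := by gcongr
            _ = (‖a - b‖ + ‖b‖) ^ m := by
                rw [← pow_add]
                congr 1
                omega
      _ = ((m + 1 : ℕ) : ℝ) * (‖a - b‖ + ‖b‖) ^ m := by
          rw [Finset.sum_const, Finset.card_range, nsmul_eq_mul]
  calc |∑ i ∈ Finset.range (m + 1), ‖a‖ ^ i * ‖b‖ ^ (m + 1 - 1 - i)| * |‖a‖ - ‖b‖|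
      ≤ (((m + 1 : ℕ) : ℝ) * (‖a - b‖ + ‖b‖) ^ m) * ‖a - b‖ := by gcongr
    _ = _ := by ring

/-- the determinant has degree `n` -/
lemma det_deg (n : ℕ) (hn : 1 ≤ n) : ∃ C : ℝ, 0 ≤ C ∧ ∀ a b : E n →L[ℝ] E n,
    ‖a.det - b.det‖ ≤ C * (‖a - b‖ * (‖a - b‖ + ‖b‖) ^ (n - 1)) := by
  -- the determinant is `C^1`
  have hcd : ContDiff ℝ 1 (fun A : E n →L[ℝ] E n => A.det) := by
    set b := (EuclideanSpace.basisFun (Fin n) ℝ).toBasis with hb
    have h1 : (fun A : E n →L[ℝ] E n => A.det) = fun A =>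
        ∑ σ : Equiv.Perm (Fin n), Equiv.Perm.sign σ • ∏ i, (A (b i)) (σ i) := by
      ext A
      have e1 : A.det = Matrix.det (LinearMap.toMatrix b b (A : E n →ₗ[ℝ] E n)) := by
        rw [LinearMap.det_toMatrix]
      rw [e1, Matrix.det_apply]
      apply Finset.sum_congr rfl
      intro σ _
      congr 1
      apply Finset.prod_congr rfl
      intro i _
      rw [LinearMap.toMatrix_apply]
      simp [hb]
    rw [h1]
    apply ContDiff.sum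
    intro σ _
    apply ContDiff.const_smul
    apply contDiff_prod
    intro i _
    have h2 : (fun A : E n →L[ℝ] E n => (A (b i)) (σ i)) =
        fun A => ((EuclideanSpace.proj (σ i) : E n →L[ℝ] ℝ).comp
          (ContinuousLinearMap.apply ℝ (E n) (b i))) A := by
      ext A
      rfl
    rw [h2]
    exact ContinuousLinearMap.contDiff _
  -- Lipschitz on the unit ball
  obtain ⟨C, hC⟩ : ∃ C : ℝ, ∀ A ∈ closedBall (0 : E n →L[ℝ] E n) 1,
      ‖fderiv ℝ (fun A : E n →L[ℝ] E n => A.det) A‖ ≤ C :=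
    (isCompact_closedBall _ _).exists_bound_of_continuousOn
      (hcd.continuous_fderiv (by norm_num)).continuousOn
  have hC0 : 0 ≤ C := by
    have h3 := hC 0 (mem_closedBall_self zero_le_one)
    exact le_trans (norm_nonneg (fderiv ℝ (fun A : E n →L[ℝ] E n => A.det) 0)) h3
  have hlip : ∀ A ∈ closedBall (0 : E n →L[ℝ] E n) 1, ∀ B ∈ closedBall (0 : E n →L[ℝ] E n) 1,
      ‖A.det - B.det‖ ≤ C * ‖A - B‖ := by
    intro A hA B hB
    exact (convex_closedBall (0 : E n →L[ℝ] E n) 1).norm_image_sub_le_of_norm_fderiv_le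
      (f := fun A : E n →L[ℝ] E n => A.det)
      (fun x _ => hcd.differentiable (by norm_num) x) hC hB hA
  refine ⟨C, hC0, ?_⟩
  intro a b
  set r := ‖a - b‖ + ‖b‖ with hr
  rcases eq_or_lt_of_le (add_nonneg (norm_nonneg (a - b)) (norm_nonneg b)) with h0 | h0
  · have h1 : ‖a - b‖ = 0 := by linarith [norm_nonneg (a - b), norm_nonneg b]
    have h2 : a = b := by rwa [norm_eq_zero, sub_eq_zero] at h1
    subst h2
    simp
  · rw [← hr] at h0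
    have ha : ‖a‖ ≤ r := by
      have := norm_add_le (a - b) b
      simpa using this
    have hb : ‖b‖ ≤ r := by rw [hr]; linarith [norm_nonneg (a - b)]
    have h1 := hlip (r⁻¹ • a) (by
      rw [mem_closedBall, dist_zero_right, norm_smul, norm_inv, Real.norm_eq_abs, abs_of_pos h0,
        inv_mul_le_iff₀ h0, mul_one]
      exact ha) (r⁻¹ • b) (by
      rw [mem_closedBall, dist_zero_right, norm_smul, norm_inv, Real.norm_eq_abs, abs_of_pos h0,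
        inv_mul_le_iff₀ h0, mul_one]
      exact hb)
    have hdet : ∀ A : E n →L[ℝ] E n, (r⁻¹ • A).det = (r⁻¹) ^ n * A.det := by
      intro A
      have : (r⁻¹ • A).det = LinearMap.det (r⁻¹ • (A : E n →ₗ[ℝ] E n)) := rfl
      rw [this, LinearMap.det_smul]
      simp
    have e3 : r⁻¹ • a - r⁻¹ • b = r⁻¹ • (a - b) := (smul_sub r⁻¹ a b).symm
    rw [hdet, hdet, ← mul_sub, e3, norm_mul, norm_smul, norm_pow, norm_inv,
      Real.norm_eq_abs r, abs_of_pos h0] at h1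
    have h2 : ‖a.det - b.det‖ = r ^ n * ((r⁻¹) ^ n * ‖a.det - b.det‖) := by
      rw [← mul_assoc, ← mul_pow, mul_inv_cancel₀ h0.ne', one_pow, one_mul]
    rw [h2]
    calc r ^ n * ((r⁻¹) ^ n * ‖a.det - b.det‖) ≤ r ^ n * (C * (r⁻¹ * ‖a - b‖)) := by gcongr
      _ = C * (‖a - b‖ * r ^ (n - 1)) := by
        obtain ⟨m, rfl⟩ : ∃ m, n = m + 1 := ⟨n - 1, by omega⟩
        simp only [Nat.add_sub_cancel]
        field_simp
        ring

end Pool.Agent.Work.MP_0f0f21_an
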