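import Pool.Agent.Work.MP_0f0f21_an.Energy

set_option autoImplicit false

open MeasureTheory Metric Set Filter Topology
open scoped ENNReal NNReal ContDiff

namespace Pool.Agent.Work.MP_0f0f21_an

namespace QR

/-- two sets crossing a fat family of cube boundaries cannot have images at very different
scales -/
theorem crossing {m : ℕ} (q : QR (m + 1)) (hm : 1 ≤ m) (κ : ℝ) (hκ : 0 < κ) :
    ∃ C : ℝ, 2 ≤ C ∧ ∀ (x y : E (m + 1)) (a b M L : ℝ), 0 < a → a < b → κ ≤ Real.log (b / a) →
      0 < M → (∀ t ∈ Ioo a b, ∃ p p', sd x p = t ∧ sd x p' = t ∧ dist (q.f p) y ≤ M ∧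
        L ≤ dist (q.f p') y) → L ≤ C * M := by
  obtain ⟨d, hd0, hd⟩ := q.degree
  obtain ⟨C0, hC0, hC⟩ := lc_energy (n := m + 1) (by omega)
  have hK := q.hK
  set A : ℝ := cE m * (q.K * d * C0) / κ with hA
  have hA0 : 0 ≤ A := by
    have := cE_nonneg m
    positivity
  refine ⟨max 2 (Real.exp (max 1 A)), le_max_left _ _, ?_⟩
  intro x y a b M L ha hab hκ' hM h
  by_contra hcon
  push Not at hcon
  have hL2 : 2 * M < L := lt_of_le_of_lt (by gcongr; exact le_max_left _ _) hcon
  have hLe : Real.exp (max 1 A) * M < L := lt_of_le_of_lt (by gcongr; exact le_max_right _ _) hcon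
  have hlog : max 1 A < Real.log (L / M) := by
    rw [Real.lt_log_iff_exp_lt (by have : 0 < L := by linarith
                                   positivity), lt_div_iff₀ hM]
    exact hLe
  obtain ⟨hl1, hl2⟩ := lc_den hM hL2.le
  have h1 := q.capE hm (lc y M L) (lc_smooth y M L hM) x a b 1 ha hab zero_le_one (by
    intro t ht
    obtain ⟨p, p', hp, hp', hpM, hpL⟩ := h t ht
    refine ⟨p, p', hp, hp', ?_⟩
    rw [lc_one y M L hM hL2.le _ hpM, lc_zero y M L hM hL2.le _ hpL]
    simp)
  have h2 := q.energy_le d hd (lc y M L) (lc_smooth y M L hM) {z | sd x z ≤ b}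
  have h3 := hC y M L hM hL2.le
  have h4 : ENNReal.ofReal (1 ^ (m + 1) * Real.log (b / a)) ≤
      ENNReal.ofReal (cE m * (q.K * d * (C0 / Real.log (L / M) ^ (m + 1 - 1)))) := by
    refine h1.trans ?_
    rw [ENNReal.ofReal_mul (cE_nonneg m), ENNReal.ofReal_mul (p := q.K * d) (by positivity)]
    gcongr
    refine h2.trans ?_
    gcongr
  simp only [one_pow, one_mul, Nat.add_sub_cancel] at h4
  have hnn : 0 ≤ cE m * (q.K * d * (C0 / Real.log (L / M) ^ m)) := by
    have := cE_nonneg m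
    positivity
  rw [ENNReal.ofReal_le_ofReal_iff hnn] at h4
  have h5 : κ ≤ cE m * (q.K * d * C0) / Real.log (L / M) ^ m := by
    refine (hκ'.trans h4).trans (le_of_eq ?_)
    ring
  rw [le_div_iff₀ (by positivity)] at h5
  have h6 : Real.log (L / M) ^ m ≤ A := by
    rw [hA, le_div_iff₀ hκ]
    linarith
  have h7 : Real.log (L / M) ≤ Real.log (L / M) ^ m := by
    have h8 : 1 ≤ Real.log (L / M) := (le_max_left _ _).trans hlog.le
    calc Real.log (L / M) = Real.log (L / M) ^ 1 := (pow_one _).symm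
      _ ≤ Real.log (L / M) ^ m := pow_le_pow_right₀ h8 hm
  linarith [le_max_right 1 A]

/-- moving inside a cube -/
lemma cube_move {n : ℕ} (x z : E n) (t r : ℝ) (h1 : sd x z ≤ t) (h2 : t ≤ sd x z + r)
    (hpos : 0 < sd x z) : ∃ p, sd z p = t ∧ sd x p ≤ r := by
  have ht : 0 ≤ t := hpos.le.trans h1
  -- coordinate achieving the distance
  obtain ⟨i, hi⟩ : ∃ i, sd x z ≤ |x i - z i| := by
    by_contra hcon
    push Not at hcon
    have : sd x z < sd x z := by
      unfold sd at hcon ⊢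
      exact (dist_pi_lt_iff hpos).mpr fun i => by rw [Real.dist_eq]; exact hcon i
    exact lt_irrefl _ this
  have hi' : |x i - z i| = sd x z :=
    le_antisymm ((sd_le_iff x z _ (sd_nonneg _ _)).mp le_rfl i) hi
  set σ : ℝ := if 0 ≤ x i - z i then 1 else -1 with hσ
  have hσabs : |σ| = 1 := by
    rw [hσ]; split_ifs <;> simp
  have hσx : x i - z i = σ * sd x z := by
    rw [← hi', hσ]
    split_ifs with h
    · rw [abs_of_nonneg h, one_mul]
    · rw [abs_of_neg (not_le.mp h)]; ring
  set p : E n := x + EuclideanSpace.single i (σ * (t - sd x z)) with hp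
  have hpi : ∀ j, p j = x j + (if j = i then σ * (t - sd x z) else 0) := by
    intro j
    rw [hp]
    by_cases h : j = i
    · subst h; simp
    · simp [h]
  refine ⟨p, ?_, ?_⟩
  · apply le_antisymm
    · rw [sd_le_iff _ _ _ ht]
      intro j
      rw [hpi]
      by_cases h : j = i
      · subst h
        rw [if_pos rfl]
        have : z j - (x j + σ * (t - sd x z)) = - (σ * t) := by linarith
        rw [this, abs_neg, abs_mul, hσabs, one_mul, abs_of_nonneg ht]
      · rw [if_neg h, add_zero, abs_sub_comm]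
        exact ((sd_le_iff x z _ (sd_nonneg _ _)).mp le_rfl j).trans h1
    · have h3 := (sd_le_iff z p _ (sd_nonneg _ _)).mp le_rfl i
      rw [hpi, if_pos rfl] at h3
      have : z i - (x i + σ * (t - sd x z)) = - (σ * t) := by linarith
      rw [this, abs_neg, abs_mul, hσabs, one_mul, abs_of_nonneg ht] at h3
      exact h3
  · have hr : 0 ≤ r := by linarith
    rw [sd_le_iff _ _ _ hr]
    intro j
    rw [hpi]
    by_cases h : j = i
    · subst h
      rw [if_pos rfl]
      have : x j - (x j + σ * (t - sd x z)) = - (σ * (t - sd x z)) := by ring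
      rw [this, abs_neg, abs_mul, hσabs, one_mul, abs_of_nonneg (by linarith)]
      linarith
    · rw [if_neg h, add_zero, sub_self, abs_zero]
      exact hr

/-- doubling on cubes -/
theorem doubling {m : ℕ} (q : QR (m + 1)) (hm : 1 ≤ m) : ∃ C : ℝ, 2 ≤ C ∧
    ∀ (x : E (m + 1)) (r M : ℝ), 0 < r → (∀ z, sd x z ≤ r → dist (q.f z) (q.f x) ≤ M) →
      ∀ z, sd x z ≤ 2 * r → dist (q.f z) (q.f x) ≤ C * M := by
  obtain ⟨C, hC2, hC⟩ := q.crossing hm (Real.log (3 / 2)) (Real.log_pos (by norm_num))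
  refine ⟨C, hC2, ?_⟩
  -- positive M
  have key : ∀ (x : E (m + 1)) (r M : ℝ), 0 < r → 0 < M →
      (∀ z, sd x z ≤ r → dist (q.f z) (q.f x) ≤ M) →
      ∀ z, sd x z ≤ 2 * r → dist (q.f z) (q.f x) ≤ C * M := by
    intro x r M hr hM h z hz
    rcases le_or_gt (sd x z) r with hzr | hzr
    · refine (h z hzr).trans ?_
      nlinarith
    have hD : 0 < sd x z := hr.trans hzr
    apply hC z (q.f x) (sd x z) (sd x z + r) M (dist (q.f z) (q.f x)) hD (by linarith) ?_ hM
    · intro t ht
      obtain ⟨p, hp1, hp2⟩ := cube_move x z t r ht.1.le ht.2.le hD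
      obtain ⟨p', hp1', hp2'⟩ := q.max_principle z (q.f x) z t (hD.trans ht.1)
        (by rw [sd_self]; exact (hD.trans ht.1).le)
      exact ⟨p, p', hp1, hp1', h p hp2, hp2'⟩
    · apply Real.log_le_log (by norm_num)
      rw [div_le_div_iff₀ (by norm_num) hD]
      linarith
  intro x r M hr h z hz
  have hM0 : 0 ≤ M := by
    have := h x (by rw [sd_self]; exact hr.le)
    rwa [dist_self] at this
  rcases eq_or_lt_of_le hM0 with hM | hM
  · -- M = 0
    rw [← hM, mul_zero]
    apply le_of_forall_pos_le_add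
    intro ε hε
    rw [zero_add]
    have := key x r (ε / C) hr (by positivity) (fun z hz => (h z hz).trans (by
      rw [← hM]; positivity)) z hz
    rwa [mul_div_cancel₀ _ (by positivity)] at this
  · exact key x r M hr hM h z hz

/-- iterated doubling -/
theorem doubling_iter {m : ℕ} (q : QR (m + 1)) (C : ℝ)
    (hC : ∀ (x : E (m + 1)) (r M : ℝ), 0 < r →
      (∀ z, sd x z ≤ r → dist (q.f z) (q.f x) ≤ M) →
      ∀ z, sd x z ≤ 2 * r → dist (q.f z) (q.f x) ≤ C * M) (k : ℕ) :
    ∀ (x : E (m + 1)) (r M : ℝ), 0 < r →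
      (∀ z, sd x z ≤ r → dist (q.f z) (q.f x) ≤ M) →
      ∀ z, sd x z ≤ 2 ^ k * r → dist (q.f z) (q.f x) ≤ C ^ k * M := by
  induction k with
  | zero =>
    intro x r M hr h z hz
    simpa using h z (by simpa using hz)
  | succ k ih =>
    intro x r M hr h z hz
    have := hC x (2 ^ k * r) (C ^ k * M) (by positivity) (ih x r M hr h) z (by
      rw [pow_succ] at hz; linarith)
    rw [pow_succ]
    linarith

/-- comparison of a connected set with a cube -/
theorem compare {m : ℕ} (q : QR (m + 1)) (hm : 1 ≤ m) : ∃ C : ℝ, 2 ≤ C ∧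
    ∀ (x : E (m + 1)) (r M : ℝ) (U : Set (E (m + 1))), 0 < r → IsPreconnected U → x ∈ U →
      (∃ u ∈ U, 2 * r ≤ sd x u) → (∀ u ∈ U, dist (q.f u) (q.f x) ≤ M) →
      ∀ z, sd x z ≤ r → dist (q.f z) (q.f x) ≤ C * M := by
  obtain ⟨C, hC2, hC⟩ := q.crossing hm (Real.log 2) (Real.log_pos (by norm_num))
  refine ⟨C, hC2, ?_⟩
  have key : ∀ (x : E (m + 1)) (r M : ℝ) (U : Set (E (m + 1))), 0 < r → 0 < M →
      IsPreconnected U → x ∈ U →
      (∃ u ∈ U, 2 * r ≤ sd x u) → (∀ u ∈ U, dist (q.f u) (q.f x) ≤ M) →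
      ∀ z, sd x z ≤ r → dist (q.f z) (q.f x) ≤ C * M := by
    intro x r M U hr hM hU hx hu hUM z hz
    obtain ⟨u, huU, hu⟩ := hu
    apply hC x (q.f x) r (2 * r) M (dist (q.f z) (q.f x)) hr (by linarith) ?_ hM
    · intro t ht
      have h1 := hU.intermediate_value hx huU (sd_cont x).continuousOn
      obtain ⟨p, hpU, hp⟩ := h1 ⟨by rw [sd_self]; exact (hr.trans ht.1).le, ht.2.le.trans hu⟩
      obtain ⟨p', hp', hp2'⟩ := q.max_principle x (q.f x) z t (hr.trans ht.1)
        (hz.trans ht.1.le)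
      exact ⟨p, p', hp, hp', hUM p hpU, hp2'⟩
    · apply le_of_eq
      congr 1
      field_simp
  intro x r M U hr hU hx hu hUM z hz
  have hM0 : 0 ≤ M := by
    have := hUM x hx
    rwa [dist_self] at this
  rcases eq_or_lt_of_le hM0 with hM | hM
  · rw [← hM, mul_zero]
    apply le_of_forall_pos_le_add
    intro ε hε
    rw [zero_add]
    have := key x r (ε / C) U hr (by positivity) hU hx hu (fun u hu => (hUM u hu).trans (by
      rw [← hM]; positivity)) z hz
    rwa [mul_div_cancel₀ _ (by positivity)] at this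
  · exact key x r M U hr hM hU hx hu hUM z hz

/-- oscillation on cube boundaries -/
lemma sphere_osc {n : ℕ} (q : QR n) (x z : E n) (t : ℝ) (ht : 0 < t) (hz : sd x z ≤ t) :
    ∃ p p', sd x p = t ∧ sd x p' = t ∧ dist (q.f z) (q.f x) ≤ dist (q.f p) (q.f p') := by
  obtain ⟨p, hp1, hp2⟩ := q.max_principle x (q.f x) z t ht hz
  obtain ⟨p', hp1', hp2'⟩ := q.max_principle x (q.f p) x t ht (by rw [sd_self]; exact ht.le)
  refine ⟨p, p', hp1, hp1', hp2.trans ?_⟩
  rw [dist_comm (q.f p) (q.f x), dist_comm (q.f p) (q.f p')]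
  exact hp2'

/-- energy lower bound on a cube -/
theorem energy_lower {m : ℕ} (q : QR (m + 1)) (hm : 1 ≤ m) (x z : E (m + 1)) (s r : ℝ)
    (hs : 0 < s) (hsr : s < r) (hz : sd x z ≤ s) :
    ENNReal.ofReal (dist (q.f z) (q.f x) ^ (m + 1) * Real.log (r / s)) ≤
      ENNReal.ofReal (cE m * q.K) * ∫⁻ w in {w | sd x w ≤ r}, ENNReal.ofReal (q.J w) := by
  have hK := q.hK
  have h1 := q.capE hm (fun w : E (m + 1) => w) contDiff_id x s r (dist (q.f z) (q.f x)) hs hsr
    dist_nonneg (by
    intro t ht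
    exact q.sphere_osc x z t (hs.trans ht.1) (hz.trans ht.1.le))
  refine h1.trans ?_
  rw [ENNReal.ofReal_mul (cE_nonneg m), mul_assoc]
  gcongr
  exact q.energy_J _

/-- modulus of continuity -/
theorem modulus {m : ℕ} (q : QR (m + 1)) (hm : 1 ≤ m) : ∃ C : ℝ, 0 < C ∧
    ∀ (x : E (m + 1)) (s r M : ℝ), 0 < s → s < r →
      (∀ z, sd x z ≤ r → dist (q.f z) (q.f x) ≤ M) →
      ∀ z, sd x z ≤ s → dist (q.f z) (q.f x) ^ (m + 1) * Real.log (r / s) ≤ C * M ^ (m + 1) := by
  obtain ⟨d, hd0, hd⟩ := q.degree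
  have hK := q.hK
  set V : ℝ := (volume : Measure (E (m + 1))).real (ball 0 1) with hV
  refine ⟨cE m * q.K * (d * V) + 1, by have := cE_nonneg m; positivity, ?_⟩
  intro x s r M hs hsr h z hz
  have hM0 : 0 ≤ M := by
    have := h x (by rw [sd_self]; linarith)
    rwa [dist_self] at this
  have h1 := q.energy_lower hm x z s r hs hsr hz
  have h2 : ∫⁻ w in {w | sd x w ≤ r}, ENNReal.ofReal (q.J w) ≤
      ENNReal.ofReal (d * (V * M ^ (m + 1))) := by
    have hQm : MeasurableSet {w | sd x w ≤ r} := (sd_closed x r).measurableSet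
    calc ∫⁻ w in {w | sd x w ≤ r}, ENNReal.ofReal (q.J w)
        ≤ ∫⁻ w, (closedBall (q.f x) M).indicator (fun _ => (1:ℝ≥0∞)) (q.f w) *
          ENNReal.ofReal (q.J w) := by
          rw [← lintegral_indicator hQm]
          apply lintegral_mono
          intro w
          simp only
          by_cases hw : w ∈ {w | sd x w ≤ r}
          · rw [indicator_of_mem hw, indicator_of_mem (by exact h w hw), one_mul]
          · rw [indicator_of_notMem hw]
            exact zero_le
      _ = ENNReal.ofReal d * ∫⁻ w, (closedBall (q.f x) M).indicator (fun _ => (1:ℝ≥0∞)) w :=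
          hd _ (measurable_const.indicator measurableSet_closedBall)
      _ = ENNReal.ofReal d * volume (closedBall (q.f x) M) := by
          rw [lintegral_indicator_const measurableSet_closedBall, one_mul]
      _ = ENNReal.ofReal d * ENNReal.ofReal (V * M ^ (m + 1)) := by
          congr 1
          rw [Measure.addHaar_closedBall _ _ hM0, mul_comm V, ENNReal.ofReal_mul (by positivity)]
          have h3 : Module.finrank ℝ (E (m + 1)) = m + 1 := by simp
          rw [h3, hV, Measure.real, ENNReal.ofReal_toReal measure_ball_lt_top.ne]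
      _ = _ := by rw [← ENNReal.ofReal_mul hd0]
  have h3 := h1.trans (mul_le_mul_right h2 _)
  have hc := cE_nonneg m
  rw [← ENNReal.ofReal_mul (by positivity), ENNReal.ofReal_le_ofReal_iff (by positivity)] at h3
  refine h3.trans ?_
  have : cE m * q.K * (d * (V * M ^ (m + 1))) = cE m * q.K * (d * V) * M ^ (m + 1) := by ring
  rw [this]
  have : 0 ≤ M ^ (m + 1) := by positivity
  nlinarith

/-- `f` is not constant on any cube -/
theorem nonconst {m : ℕ} (q : QR (m + 1)) (hm : 1 ≤ m) (x : E (m + 1)) (r : ℝ) (hr : 0 < r) :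
    ∃ z, sd x z ≤ r ∧ q.f z ≠ q.f x := by
  by_contra hcon
  push Not at hcon
  obtain ⟨C, hC2, hC⟩ := q.doubling hm
  have h1 : ∀ z, q.f z = q.f x := by
    intro z
    obtain ⟨k, hk⟩ := exists_nat_gt (sd x z / r)
    have h2 := q.doubling_iter C hC k x r 0 hr (fun w hw => by rw [hcon w hw, dist_self]) z (by
      rw [div_lt_iff₀ hr] at hk
      have h3 : (k:ℝ) ≤ 2 ^ k := by exact_mod_cast (Nat.lt_two_pow_self (n := k)).le
      nlinarith)
    rw [mul_zero] at h2
    exact dist_le_zero.mp h2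
  obtain ⟨R, hR0, hR⟩ := q.preimage_bdd ‖q.f x‖
  obtain ⟨z, hz⟩ := sd_sphere_nonempty (n := m + 1) (by omega) (0 : E (m + 1)) R hR0.le
  have h2 := hR z (by rw [h1 z])
  have h3 := sd_le_dist (0 : E (m + 1)) z
  rw [dist_comm, dist_zero_right] at h3
  linarith

/-- quantitative openness on cubes -/
theorem open_cube {m : ℕ} (q : QR (m + 1)) (C : ℝ)
    (hC : ∀ (x : E (m + 1)) (r M : ℝ) (U : Set (E (m + 1))), 0 < r → IsPreconnected U → x ∈ U →
      (∃ u ∈ U, 2 * r ≤ sd x u) → (∀ u ∈ U, dist (q.f u) (q.f x) ≤ M) →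
      ∀ z, sd x z ≤ r → dist (q.f z) (q.f x) ≤ C * M)
    (x z : E (m + 1)) (r ρ : ℝ) (hr : 0 < r) (hρ : 0 < ρ) (hz : sd x z ≤ r)
    (hρz : C * ρ < dist (q.f z) (q.f x)) :
    ∀ u ∈ q.comp (q.f x) ρ x, sd x u < 2 * r := by
  intro u hu
  by_contra hcon
  push Not at hcon
  have h1 := hC x r ρ (q.comp (q.f x) ρ x) hr (q.comp_preconn _ _ _)
    (q.comp_mem _ _ _ (mem_ball_self hρ)) ⟨u, hu, hcon⟩ (fun u hu => by
      have := q.comp_sub _ _ _ hu
      rw [mem_preimage, mem_ball] at this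
      exact this.le) z hz
  linarith

end QR

end Pool.Agent.Work.MP_0f0f21_an
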