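import Pool.Agent.Work.MP_0f0f21_an.Defs

set_option autoImplicit false
set_option linter.unusedSectionVars false

open MeasureTheory Metric Set Filter Topology Convolution
open scoped ENNReal NNReal ContDiff

namespace Pool.Agent.Work.MP_0f0f21_an

section Young

variable {G : Type*} [NormedAddCommGroup G] [InnerProductSpace ℝ G] [FiniteDimensional ℝ G]
  [MeasurableSpace G] [BorelSpace G]
variable {F : Type*} [NormedAddCommGroup F] [NormedSpace ℝ F] [CompleteSpace F]

/-- mollification of `h` by the normed bump function `φ` -/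
noncomputable def moll (φ : ContDiffBump (0 : G)) (h : G → F) : G → F :=
  (φ.normed volume ⋆[ContinuousLinearMap.lsmul ℝ ℝ, volume] h : G → F)

lemma moll_apply (φ : ContDiffBump (0 : G)) (h : G → F) (x : G) :
    moll φ h x = ∫ t, φ.normed volume (x - t) • h t := by
  rw [moll, convolution_eq_swap]
  simp

lemma lintegral_normed (φ : ContDiffBump (0 : G)) :
    ∫⁻ t, ENNReal.ofReal (φ.normed volume t) = 1 := by
  rw [← ofReal_integral_eq_lintegral_ofReal]
  · rw [φ.integral_normed]; simp
  · exact φ.integrable_normed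
  · exact Eventually.of_forall fun x => φ.nonneg_normed x

lemma lintegral_normed_left (φ : ContDiffBump (0 : G)) (x : G) :
    ∫⁻ t, ENNReal.ofReal (φ.normed volume (x - t)) = 1 := by
  rw [← lintegral_normed φ]
  exact lintegral_sub_left_eq_self (fun t => ENNReal.ofReal (φ.normed volume t)) x

lemma lintegral_normed_right (φ : ContDiffBump (0 : G)) (t : G) :
    ∫⁻ x, ENNReal.ofReal (φ.normed volume (x - t)) = 1 := by
  rw [← lintegral_normed φ]
  exact lintegral_sub_right_eq_self (fun t => ENNReal.ofReal (φ.normed volume t)) t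

lemma moll_young (φ : ContDiffBump (0 : G)) (h : G → F) (hh : AEStronglyMeasurable h volume)
    (n : ℕ) (hn : 1 ≤ n) :
    ∫⁻ x, ‖moll φ h x‖ₑ ^ n ≤ ∫⁻ x, ‖h x‖ₑ ^ n := by
  have hn0 : (0:ℝ) < n := by exact_mod_cast hn
  set k : G → G → ℝ≥0∞ := fun x t => ENNReal.ofReal (φ.normed volume (x - t)) with hk
  have hkc : Continuous (fun p : G × G => φ.normed volume (p.1 - p.2)) := by
    have h1 : Continuous (φ.normed (volume : Measure G)) := φ.continuous_normed
    exact h1.comp (continuous_fst.sub continuous_snd)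
  have hkm : Measurable (Function.uncurry k) := by
    exact ENNReal.measurable_ofReal.comp hkc.measurable
  -- pointwise Jensen
  have h1 : ∀ x, ‖moll φ h x‖ₑ ^ n ≤ ∫⁻ t, k x t * ‖h t‖ₑ ^ n := by
    intro x
    have hkx : Measurable (k x) := hkm.comp (by fun_prop : Measurable fun t : G => (x, t))
    set ν : Measure G := volume.withDensity (k x) with hν
    have hprob : IsProbabilityMeasure ν := ⟨by
      rw [hν, withDensity_apply _ MeasurableSet.univ, Measure.restrict_univ]
      exact lintegral_normed_left φ x⟩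
    have hhν : AEStronglyMeasurable h ν :=
      hh.mono_ac (withDensity_absolutelyContinuous _ _)
    have h2 : ‖moll φ h x‖ₑ ≤ ∫⁻ t, ‖h t‖ₑ ∂ν := by
      rw [moll_apply]
      refine (enorm_integral_le_lintegral_enorm _).trans ?_
      rw [hν, lintegral_withDensity_eq_lintegral_mul₀ hkx.aemeasurable hh.enorm]
      apply lintegral_mono
      intro t
      simp only [Pi.mul_apply]
      rw [enorm_smul]
      gcongr
      rw [hk]
      simp only
      rw [Real.enorm_eq_ofReal (φ.nonneg_normed _)]
    have h3 := eLpNorm'_le_eLpNorm'_of_exponent_le (p := 1) (q := (n:ℝ)) zero_lt_one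
      (by exact_mod_cast hn) ν hhν
    rw [eLpNorm', eLpNorm'] at h3
    simp only [ENNReal.rpow_one, one_div, inv_one] at h3
    have h4 : ‖moll φ h x‖ₑ ^ n ≤ ∫⁻ t, ‖h t‖ₑ ^ n ∂ν := by
      calc ‖moll φ h x‖ₑ ^ n ≤ ((∫⁻ t, ‖h t‖ₑ ^ (n:ℝ) ∂ν) ^ (n:ℝ)⁻¹) ^ n := by
            gcongr
            exact h2.trans h3
        _ = ∫⁻ t, ‖h t‖ₑ ^ (n:ℝ) ∂ν := by
            rw [← ENNReal.rpow_natCast, ← ENNReal.rpow_mul, inv_mul_cancel₀ hn0.ne',
              ENNReal.rpow_one]
        _ = ∫⁻ t, ‖h t‖ₑ ^ n ∂ν := by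
            simp only [ENNReal.rpow_natCast]
    refine h4.trans ?_
    rw [hν, lintegral_withDensity_eq_lintegral_mul₀ hkx.aemeasurable (hh.enorm.pow_const n)]
    rfl
  calc ∫⁻ x, ‖moll φ h x‖ₑ ^ n ≤ ∫⁻ x, ∫⁻ t, k x t * ‖h t‖ₑ ^ n := lintegral_mono h1
    _ = ∫⁻ t, ∫⁻ x, k x t * ‖h t‖ₑ ^ n := by
        apply lintegral_lintegral_swap
        apply AEMeasurable.mul hkm.aemeasurable
        exact (hh.enorm.pow_const n).comp_quasiMeasurePreserving Measure.quasiMeasurePreserving_snd
    _ = ∫⁻ t, ‖h t‖ₑ ^ n := by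
        apply lintegral_congr
        intro t
        rw [lintegral_mul_const]
        · rw [lintegral_normed_right φ t, one_mul]
        · exact hkm.comp (by fun_prop : Measurable fun x : G => (x, t))

lemma moll_add (φ : ContDiffBump (0 : G)) (h k : G → F) (hh : LocallyIntegrable h volume)
    (hk : LocallyIntegrable k volume) : moll φ (h + k) = moll φ h + moll φ k := by
  have h1 : ConvolutionExists (φ.normed volume) h (ContinuousLinearMap.lsmul ℝ ℝ) volume :=
    φ.hasCompactSupport_normed.convolutionExists_left _ φ.continuous_normed hh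
  have h2 : ConvolutionExists (φ.normed volume) k (ContinuousLinearMap.lsmul ℝ ℝ) volume :=
    φ.hasCompactSupport_normed.convolutionExists_left _ φ.continuous_normed hk
  exact h1.distrib_add h2

lemma moll_contDiff (φ : ContDiffBump (0 : G)) (h : G → F) (hh : LocallyIntegrable h volume) :
    ContDiff ℝ ∞ (moll φ h) :=
  φ.hasCompactSupport_normed.contDiff_convolution_left _ φ.contDiff_normed hh

/-- a fixed sequence of bump functions -/
noncomputable def bmp (k : ℕ) : ContDiffBump (0 : G) :=
  ⟨1 / (2 * ((k : ℝ) + 1)), 1 / ((k : ℝ) + 1), by positivity, by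
    apply one_div_lt_one_div_of_lt
    · positivity
    · linarith [(Nat.cast_nonneg k : (0:ℝ) ≤ k)]⟩

lemma bmp_rOut (k : ℕ) : (bmp k : ContDiffBump (0 : G)).rOut = 1 / ((k : ℝ) + 1) := rfl

lemma bmp_le_one (k : ℕ) : (bmp k : ContDiffBump (0 : G)).rOut ≤ 1 := by
  rw [bmp_rOut]
  apply div_le_one_of_le₀
  · linarith [(Nat.cast_nonneg k : (0:ℝ) ≤ k)]
  · positivity

lemma bmp_tendsto : Tendsto (fun k => (bmp k : ContDiffBump (0 : G)).rOut) atTop (𝓝 0) := by
  simp only [bmp_rOut]
  exact tendsto_one_div_add_atTop_nhds_zero_nat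

/-- local uniform convergence -/
lemma moll_unif (h : G → F) (hh : Continuous h) (R : ℝ) (ε : ℝ) (hε : 0 < ε) :
    ∀ᶠ k in atTop, ∀ x ∈ closedBall (0 : G) R, dist (moll (bmp k) h x) (h x) ≤ ε := by
  have huc : UniformContinuousOn h (closedBall (0 : G) (R + 1)) :=
    (isCompact_closedBall _ _).uniformContinuousOn_of_continuous hh.continuousOn
  obtain ⟨δ, hδ, hd⟩ := Metric.uniformContinuousOn_iff.mp huc ε hε
  have h1 : ∀ᶠ k in atTop, (bmp k : ContDiffBump (0 : G)).rOut < δ :=
    bmp_tendsto.eventually (gt_mem_nhds hδ)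
  filter_upwards [h1] with k hk x hx
  refine (bmp k : ContDiffBump (0 : G)).dist_normed_convolution_le hh.aestronglyMeasurable ?_
  intro y hy
  have h2 : dist y x < (bmp k : ContDiffBump (0 : G)).rOut := hy
  rw [mem_closedBall, dist_zero_right] at hx
  refine (hd y ?_ x ?_ (h2.trans hk)).le
  · rw [mem_closedBall, dist_zero_right]
    have h3 := bmp_le_one (G := G) k
    have h4 : ‖y‖ ≤ ‖x‖ + dist y x := by
      rw [dist_eq_norm]
      have := norm_add_le x (y - x)
      simpa using this
    linarith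
  · rw [mem_closedBall, dist_zero_right]
    linarith

lemma moll_Lp_cont (h : G → F) (hh : Continuous h) (hs : HasCompactSupport h) (n : ℕ)
    (hn : 1 ≤ n) :
    Tendsto (fun k => ∫⁻ x, ‖moll (bmp k) h x - h x‖ₑ ^ n) atTop (𝓝 0) := by
  obtain ⟨R, hR0, hR⟩ : ∃ R : ℝ, 0 < R ∧ tsupport h ⊆ closedBall (0:G) R := by
    obtain ⟨R, hR⟩ := hs.isCompact.isBounded.subset_closedBall (0:G)
    exact ⟨max R 1, by positivity, hR.trans (closedBall_subset_closedBall (le_max_left _ _))⟩
  set V : ℝ≥0∞ := volume (closedBall (0:G) (R + 1)) with hV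
  have hVt : V ≠ ⊤ := measure_closedBall_lt_top.ne
  rw [ENNReal.tendsto_nhds_zero]
  intro ε hε
  -- choose a small real number
  obtain ⟨δ, hδ, hδε⟩ : ∃ δ : ℝ, 0 < δ ∧ ENNReal.ofReal δ ^ n * V ≤ ε := by
    have ht : Tendsto (fun δ : ℝ => ENNReal.ofReal δ ^ n * V) (𝓝[>] 0) (𝓝 0) := by
      have h1 : Tendsto (fun δ : ℝ => ENNReal.ofReal δ) (𝓝[>] 0) (𝓝 0) := by
        have := (ENNReal.tendsto_ofReal (tendsto_id (α := ℝ) (x := 𝓝 0))).mono_left
          (nhdsWithin_le_nhds (s := Ioi (0:ℝ)))
        simpa using this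
      have h2 : Tendsto (fun δ : ℝ => ENNReal.ofReal δ ^ n) (𝓝[>] 0) (𝓝 (0 ^ n)) :=
        ((ENNReal.continuous_pow n).tendsto 0).comp h1
      rw [zero_pow (by omega)] at h2
      have h3 := ENNReal.Tendsto.mul_const h2 (b := V) (Or.inr hVt)
      simpa using h3
    have h1 := (ENNReal.tendsto_nhds_zero.mp ht ε hε).and self_mem_nhdsWithin
    obtain ⟨δ, h2, h3⟩ := h1.exists
    exact ⟨δ, h3, h2⟩
  have h0 : ∀ k, ∀ x, x ∉ closedBall (0:G) (R + 1) → moll (bmp k) h x = 0 := by
    intro k x hx
    rw [moll_apply]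
    apply integral_eq_zero_of_ae
    apply Eventually.of_forall
    intro t
    simp only [Pi.zero_apply, smul_eq_zero]
    by_cases ht : h t = 0
    · right; exact ht
    · left
      have h1 : t ∈ tsupport h := subset_tsupport h ht
      have h2 := hR h1
      rw [mem_closedBall, dist_zero_right] at h2 hx
      have h3 : x - t ∉ Function.support ((bmp k : ContDiffBump (0 : G)).normed volume) := by
        rw [ContDiffBump.support_normed_eq, mem_ball, dist_zero_right]
        have h4 := bmp_le_one (G := G) k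
        have h5 : ‖x‖ ≤ ‖x - t‖ + ‖t‖ := by
          have := norm_add_le (x - t) t
          simpa using this
        intro h6
        apply hx
        linarith
      simpa using h3
  have hh0 : ∀ x, x ∉ closedBall (0:G) (R + 1) → h x = 0 := by
    intro x hx
    apply image_eq_zero_of_notMem_tsupport
    intro h1
    exact hx (closedBall_subset_closedBall (by linarith) (hR h1))
  filter_upwards [moll_unif h hh (R + 1) δ hδ] with k hk
  refine le_trans ?_ hδε
  calc ∫⁻ x, ‖moll (bmp k) h x - h x‖ₑ ^ n
      ≤ ∫⁻ x, (closedBall (0:G) (R + 1)).indicator (fun _ => ENNReal.ofReal δ ^ n) x := by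
        apply lintegral_mono
        intro x
        by_cases hx : x ∈ closedBall (0:G) (R + 1)
        · simp only [indicator_of_mem hx]
          gcongr
          have h1 := hk x hx
          rw [dist_eq_norm] at h1
          rw [← ofReal_norm]
          exact ENNReal.ofReal_le_ofReal h1
        · simp only [indicator_of_notMem hx]
          rw [h0 k x hx, hh0 x hx]
          simp
          omega
    _ = ENNReal.ofReal δ ^ n * V := by
        rw [lintegral_indicator measurableSet_closedBall, setLIntegral_const]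

lemma lint_add_pow_le {α : Type*} [MeasurableSpace α] (μ : Measure α) (u v w : α → ℝ≥0∞)
    (n : ℕ) (hv : AEMeasurable v μ) (huvw : ∀ x, u x ≤ v x + w x) :
    ∫⁻ x, u x ^ n ∂μ ≤ 2 ^ n * (∫⁻ x, v x ^ n ∂μ + ∫⁻ x, w x ^ n ∂μ) := by
  rw [← lintegral_add_left' (hv.pow_const n), ← lintegral_const_mul' _ _ (by simp)]
  apply lintegral_mono
  intro x
  simp only
  calc u x ^ n ≤ (v x + w x) ^ n := by gcongr; exact huvw x
    _ ≤ (2 * max (v x) (w x)) ^ n := by
        gcongr
        rw [two_mul]
        exact add_le_add (le_max_left _ _) (le_max_right _ _)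
    _ = 2 ^ n * max (v x) (w x) ^ n := mul_pow _ _ _
    _ ≤ 2 ^ n * (v x ^ n + w x ^ n) := by
        gcongr
        rcases le_total (v x) (w x) with h | h
        · rw [max_eq_right h]; exact le_add_self
        · rw [max_eq_left h]; exact le_self_add

/-- `L^n` convergence of mollifications -/
lemma moll_Lp (h : G → F) (n : ℕ) (hn : 1 ≤ n) (hh : MemLp h n volume) :
    Tendsto (fun k => ∫⁻ x, ‖moll (bmp k) h x - h x‖ₑ ^ n) atTop (𝓝 0) := by
  have hn0 : (0:ℝ) < n := by exact_mod_cast hn
  have hnn : (1:ℝ≥0∞) ≤ n := by exact_mod_cast hn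
  have hhl : LocallyIntegrable h volume := hh.locallyIntegrable hnn
  rw [ENNReal.tendsto_nhds_zero]
  intro ε hε
  obtain ⟨δ, hδ, hδε⟩ : ∃ δ : ℝ≥0∞, 0 < δ ∧ 2 ^ n * (δ ^ n + 2 ^ n * (δ + δ ^ n)) ≤ ε := by
    have ht : Tendsto (fun δ : ℝ≥0∞ => 2 ^ n * (δ ^ n + 2 ^ n * (δ + δ ^ n))) (𝓝[>] 0)
        (𝓝 (2 ^ n * (0 ^ n + 2 ^ n * (0 + 0 ^ n)))) := by
      apply Tendsto.mono_left _ nhdsWithin_le_nhds
      have h1 : Tendsto (fun δ : ℝ≥0∞ => δ ^ n) (𝓝 0) (𝓝 (0 ^ n)) :=
        (ENNReal.continuous_pow n).tendsto 0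
      have h2 := ENNReal.Tendsto.const_mul (a := (2:ℝ≥0∞) ^ n) (tendsto_id.add h1)
        (Or.inr (by simp))
      exact ENNReal.Tendsto.const_mul (h1.add h2) (Or.inr (by simp))
    rw [zero_pow (by omega)] at ht
    simp only [add_zero, mul_zero] at ht
    have h1 := (ENNReal.tendsto_nhds_zero.mp ht ε hε).and self_mem_nhdsWithin
    obtain ⟨δ, h2, h3⟩ := h1.exists
    exact ⟨δ, h3, h2⟩
  obtain ⟨g, hg1, hg2, hg3, hg4⟩ := hh.exists_hasCompactSupport_eLpNorm_sub_le
    (by simp) hδ.ne'
  have hgl : LocallyIntegrable g volume := hg3.locallyIntegrable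
  have hdiff : ∫⁻ x, ‖h x - g x‖ₑ ^ n ≤ δ ^ n := by
    rw [eLpNorm_eq_lintegral_rpow_enorm_toReal (by positivity) (by simp)] at hg2
    simp only [ENNReal.toReal_natCast, Pi.sub_apply, one_div] at hg2
    calc ∫⁻ x, ‖h x - g x‖ₑ ^ n = ((∫⁻ x, ‖h x - g x‖ₑ ^ (n:ℝ)) ^ (n:ℝ)⁻¹) ^ n := by
          rw [← ENNReal.rpow_natCast _ n, ← ENNReal.rpow_mul, inv_mul_cancel₀ hn0.ne',
            ENNReal.rpow_one]
          simp only [ENNReal.rpow_natCast]
      _ ≤ δ ^ n := by gcongr
  have hsubm : AEStronglyMeasurable (h - g) volume :=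
    hh.aestronglyMeasurable.sub hg3.aestronglyMeasurable
  have hdec : ∀ k, moll (bmp k) h = moll (bmp k) (h - g) + moll (bmp k) g := by
    intro k
    rw [← moll_add _ _ _ (hhl.sub hgl) hgl, sub_add_cancel]
  filter_upwards [ENNReal.tendsto_nhds_zero.mp (moll_Lp_cont g hg3 hg1 n hn) δ hδ] with k hk
  refine le_trans ?_ hδε
  have hc1 : Continuous (moll (bmp k : ContDiffBump (0:G)) (h - g)) :=
    (moll_contDiff _ _ (hhl.sub hgl)).continuous
  have hc2 : Continuous (moll (bmp k : ContDiffBump (0:G)) g) :=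
    (moll_contDiff _ _ hgl).continuous
  refine (lint_add_pow_le volume (fun x => ‖moll (bmp k) h x - h x‖ₑ)
    (fun x => ‖moll (bmp k) (h - g) x‖ₑ)
    (fun x => ‖moll (bmp k) g x - g x‖ₑ + ‖g x - h x‖ₑ) n hc1.enorm.measurable.aemeasurable
    ?_).trans ?_
  · intro x
    rw [hdec k]
    simp only [Pi.add_apply]
    have : moll (bmp k) (h - g) x + moll (bmp k) g x - h x =
        moll (bmp k) (h - g) x + ((moll (bmp k) g x - g x) + (g x - h x)) := by abel
    rw [this]
    exact (enorm_add_le _ _).trans (by gcongr; exact enorm_add_le _ _)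
  · gcongr
    · refine (moll_young _ _ hsubm n hn).trans ?_
      exact hdiff
    · refine (lint_add_pow_le volume _
        (fun x => ‖moll (bmp k) g x - g x‖ₑ) (fun x => ‖g x - h x‖ₑ) n
        (hc2.sub hg3).enorm.measurable.aemeasurable (fun x => le_rfl)).trans ?_
      gcongr
      calc ∫⁻ x, ‖g x - h x‖ₑ ^ n = ∫⁻ x, ‖h x - g x‖ₑ ^ n := by
            congr 1; ext x; rw [← enorm_neg]; congr 2; abel
        _ ≤ δ ^ n := hdiff

/-- local `L^n` convergence of mollifications -/
lemma moll_Lp_loc (h : G → F) (n : ℕ) (hn : 1 ≤ n) (hm : AEStronglyMeasurable h volume)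
    (hh : LocallyIntegrable (fun x => ‖h x‖ ^ n) volume) (R : ℝ) :
    Tendsto (fun k => ∫⁻ x in closedBall (0:G) R, ‖moll (bmp k) h x - h x‖ₑ ^ n) atTop
      (𝓝 0) := by
  have hn0 : (0:ℝ) < n := by exact_mod_cast hn
  set h1 : G → F := (closedBall (0:G) (R + 1)).indicator h with hh1
  have hmem : MemLp h1 n volume := by
    refine ⟨hm.indicator measurableSet_closedBall, ?_⟩
    rw [eLpNorm_lt_top_iff_lintegral_rpow_enorm_lt_top (by positivity) (by simp)]
    have h2 : IntegrableOn (fun x => ‖h x‖ ^ n) (closedBall (0:G) (R + 1)) volume :=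
      hh.integrableOn_isCompact (isCompact_closedBall _ _)
    have h3 := h2.2
    rw [hasFiniteIntegral_iff_enorm, ← lintegral_indicator measurableSet_closedBall] at h3
    refine lt_of_le_of_lt (lintegral_mono fun x => ?_) h3
    simp only [ENNReal.toReal_natCast, ENNReal.rpow_natCast]
    by_cases hx : x ∈ closedBall (0:G) (R + 1)
    · rw [hh1, indicator_of_mem hx, indicator_of_mem hx, enorm_pow, enorm_norm]
    · rw [hh1, indicator_of_notMem hx, indicator_of_notMem hx]
      simp
      omega
  have key := moll_Lp h1 n hn hmem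
  refine tendsto_of_tendsto_of_tendsto_of_le_of_le tendsto_const_nhds key (fun _ => zero_le) ?_
  intro k
  simp only
  rw [← lintegral_indicator measurableSet_closedBall]
  apply lintegral_mono
  intro x
  by_cases hx : x ∈ closedBall (0:G) R
  · rw [indicator_of_mem hx]
    have hx' : x ∈ closedBall (0:G) (R + 1) := closedBall_subset_closedBall (by linarith) hx
    have e1 : h1 x = h x := by rw [hh1, indicator_of_mem hx']
    have e2 : moll (bmp k) h1 x = moll (bmp k) h x := by
      rw [moll_apply, moll_apply]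
      apply integral_congr_ae
      apply Eventually.of_forall
      intro t
      simp only
      by_cases ht : t ∈ closedBall (0:G) (R + 1)
      · rw [hh1, indicator_of_mem ht]
      · have h3 : x - t ∉ Function.support ((bmp k : ContDiffBump (0 : G)).normed volume) := by
          rw [ContDiffBump.support_normed_eq, mem_ball, dist_zero_right]
          rw [mem_closedBall, dist_zero_right] at ht hx
          have h4 := bmp_le_one (G := G) k
          have h5 : ‖t‖ ≤ ‖x‖ + ‖x - t‖ := by
            have := norm_sub_le x (x - t)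
            simpa using this
          intro h6
          apply ht
          linarith
        have h4 : (bmp k : ContDiffBump (0 : G)).normed volume (x - t) = 0 := by simpa using h3
        rw [h4, zero_smul, zero_smul]
    simp only
    rw [e1, e2]
  · rw [indicator_of_notMem hx]
    exact zero_le

end Young

section WeakDeriv

variable {n : ℕ}

/-- the derivative of the mollification is the mollification of the weak derivative -/
lemma moll_hasFDerivAt (f : E n → E n) (g : E n → (E n →L[ℝ] E n)) (hf : Continuous f)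
    (hg : IsWeakDeriv f g) (φ : ContDiffBump (0 : E n)) (x : E n) :
    HasFDerivAt (moll φ f) (moll φ g x) x := by
  have hfl : LocallyIntegrable f (volume : Measure (E n)) := hf.locallyIntegrable
  have h1 := (φ.hasCompactSupport_normed (μ := (volume : Measure (E n)))).hasFDerivAt_convolution_left
    (ContinuousLinearMap.lsmul ℝ ℝ) (μ := (volume : Measure (E n)))
    (φ.contDiff_normed (n := 1)) hfl x
  have hφs : ContDiff ℝ ∞ (φ.normed (volume : Measure (E n))) := φ.contDiff_normed
  have hφc : HasCompactSupport (φ.normed (volume : Measure (E n))) := φ.hasCompactSupport_normed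
  have key : moll φ g x = (fderiv ℝ (φ.normed volume)
      ⋆[ContinuousLinearMap.precompL (E n) (ContinuousLinearMap.lsmul ℝ ℝ), volume] f) x := ?_
  · rw [key]
    exact h1
  ext1 v
  rw [convolution_eq_swap]
  have hint : Integrable (fun t => (ContinuousLinearMap.precompL (E n)
      (ContinuousLinearMap.lsmul ℝ ℝ)) (fderiv ℝ (φ.normed (volume : Measure (E n))) (x - t))
        (f t)) (volume : Measure (E n)) := by
    have h2 : ConvolutionExists (fderiv ℝ (φ.normed (volume : Measure (E n)))) f
        (ContinuousLinearMap.precompL (E n) (ContinuousLinearMap.lsmul ℝ ℝ)) volume :=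
      (hφc.fderiv ℝ).convolutionExists_left _ (hφs.continuous_fderiv (by simp)) hfl
    have h3 := (h2 x)
    exact h3.integrable_swap
  rw [ContinuousLinearMap.integral_apply hint]
  have e1 : ∀ t, ((ContinuousLinearMap.precompL (E n)
      (ContinuousLinearMap.lsmul ℝ ℝ)) (fderiv ℝ (φ.normed (volume : Measure (E n))) (x - t))
        (f t)) v = (fderiv ℝ (φ.normed (volume : Measure (E n))) (x - t) v) • f t := by
    intro t
    rfl
  simp only [e1]
  -- test function
  set ψ : E n → ℝ := fun t => φ.normed (volume : Measure (E n)) (x - t) with hψ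
  have hψs : ContDiff ℝ ∞ ψ := hφs.comp (contDiff_const.sub contDiff_id)
  have hψc : HasCompactSupport ψ := by
    have := hφc.comp_homeomorph (Homeomorph.subLeft x)
    exact this
  have h4 := hg.2 ψ hψs hψc v
  have e2 : ∀ t, fderiv ℝ ψ t v = -(fderiv ℝ (φ.normed (volume : Measure (E n))) (x - t) v) := by
    intro t
    have h5 : HasFDerivAt ψ ((fderiv ℝ (φ.normed (volume : Measure (E n))) (x - t)).comp
        (-ContinuousLinearMap.id ℝ (E n))) t := by
      have h6 : HasFDerivAt (φ.normed (volume : Measure (E n)))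
          (fderiv ℝ (φ.normed (volume : Measure (E n))) (x - t)) (x - t) :=
        (hφs.differentiable (by simp) (x - t)).hasFDerivAt
      have h7 : HasFDerivAt (fun t : E n => x - t) (-ContinuousLinearMap.id ℝ (E n)) t := by
        exact (hasFDerivAt_id t).const_sub x
      exact h6.comp t h7
    rw [h5.fderiv]
    simp
  simp only [e2, neg_smul, integral_neg, neg_inj] at h4
  rw [h4, moll_apply]
  have hint2 : Integrable (fun t => φ.normed volume (x - t) • g t) (volume : Measure (E n)) := by
    have h2 : ConvolutionExists (φ.normed (volume : Measure (E n))) g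
        (ContinuousLinearMap.lsmul ℝ ℝ) volume :=
      hφc.convolutionExists_left _ hφs.continuous hg.1
    have h3 := (h2 x).integrable_swap
    simpa using h3
  rw [ContinuousLinearMap.integral_apply hint2]
  rfl

end WeakDeriv

end Pool.Agent.Work.MP_0f0f21_an
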