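import Pool.Agent.Work.MP_0f0f21_an.UMap

set_option autoImplicit false

open Metric Set Filter Topology

namespace Pool.Agent.Work.MP_0f0f21_an

variable {n : ℕ}

lemma Col.pullAff {A B : Set (E n)} {m : ℕ} {d e : ℝ} (h : Col A m d e) {a : E n} {r : ℝ}
    (hr : 0 < r) (hB : ∀ u ∈ B, a + r • u ∈ A) : Col B m (d / r) (e / r) := by
  obtain ⟨κ, l, hkl⟩ := h
  apply Col.of_label (fun u => κ (a + r • u)) (fun u => l (a + r • u))
  intro x hx y hy hxy
  obtain ⟨h1, h2⟩ := hkl _ (hB x hx) _ (hB y hy) hxy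
  rw [dist_aff hr] at h1 h2
  constructor
  · intro hd
    apply h1
    rw [lt_div_iff₀ hr] at hd
    linarith
  · intro hl
    have := h2 hl
    rw [le_div_iff₀ hr]
    linarith

lemma Col.pushAff {A B : Set (E n)} {m : ℕ} {d e : ℝ} (h : Col B m d e) {a : E n} {r : ℝ}
    (hr : 0 < r) (hB : ∀ z ∈ A, r⁻¹ • (z - a) ∈ B) : Col A m (r * d) (r * e) := by
  obtain ⟨κ, l, hkl⟩ := h
  apply Col.of_label (fun z => κ (r⁻¹ • (z - a))) (fun z => l (r⁻¹ • (z - a)))
  intro x hx y hy hxy
  obtain ⟨h1, h2⟩ := hkl _ (hB x hx) _ (hB y hy) hxy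
  have h3 : dist x y = r * dist (r⁻¹ • (x - a)) (r⁻¹ • (y - a)) := by
    rw [← dist_aff (a := a) hr, aff_surj hr, aff_surj hr]
  rw [h3]
  constructor
  · intro hd
    exact h1 (lt_of_mul_lt_mul_left hd hr.le)
  · intro hl
    exact mul_le_mul_of_nonneg_left (h2 hl) hr.le

lemma hyper_le : ((hyperfilter ℕ : Ultrafilter ℕ) : Filter ℕ) ≤ atTop := by
  rw [← Nat.cofinite_eq_atTop]
  exact hyperfilter_le_cofinite

lemma resc_zero {f : E n → E n} {a b : E n} {r ρ : ℝ} (h : f a = b) :
    resc f a b r ρ 0 = 0 := by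
  simp [resc, h]

/-- Claim 1 -/
theorem claim1 {f : E n → E n} {N : ℕ} {C c : ℝ} {w : ℝ → ℝ} (h : BQ f N C c w)
    {A : Set (E n)} {m : ℕ} (hA : NagataLE (f '' A) m) : NagataLE A m := by
  classical
  obtain ⟨C1, hC1, hcolf⟩ := Col_of_NagataLE hA
  have key : ∀ ε > 0, ∃ δ > 0, ∀ (x : E n), ∀ r > 0,
      Col (A ∩ closedBall x r) m (δ * r) (ε * r) := by
    by_contra hcon
    push Not at hcon
    obtain ⟨ε, hε, hcon⟩ := hcon
    have h1 := fun i : ℕ => hcon (1 / ((i:ℝ) + 1)) (by positivity)
    choose x r hr hbad using h1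
    have hL : ∀ i, ∃ L > 0, (∀ z ∈ closedBall (x i) (r i), dist (f z) (f (x i)) ≤ L) ∧
        ∃ z ∈ closedBall (x i) (r i), L ≤ dist (f z) (f (x i)) := by
      intro i
      have hc : ContinuousOn (fun z => dist (f z) (f (x i))) (closedBall (x i) (r i)) :=
        (h.cont.dist continuous_const).continuousOn
      obtain ⟨z, hz, hmax⟩ := (isCompact_closedBall (x i) (r i)).exists_isMaxOn
        ⟨x i, mem_closedBall_self (hr i).le⟩ hc
      obtain ⟨z', hz', hne⟩ := h.nonconst (x i) (r i) (hr i)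
      refine ⟨dist (f z) (f (x i)), ?_, fun w hw => hmax hw, z, hz, le_rfl⟩
      exact lt_of_lt_of_le (dist_pos.mpr hne) (hmax hz')
    choose L hL hLup hLlow using hL
    set g : ℕ → E n → E n := fun i => resc f (x i) (f (x i)) (r i) (L i) with hg
    have hBG : ∀ i, BG (g i) N C c w := fun i => h.rescale (x i) (f (x i)) (hr i) (hL i)
    have h0 : ∀ i, g i 0 = 0 := fun i => resc_zero rfl
    have hdist0 : ∀ i z, dist (g i z) (g i 0) =
        (L i)⁻¹ * dist (f (x i + r i • z)) (f (x i)) := by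
      intro i z
      rw [hg]
      simp only
      rw [dist_resc (hL i), smul_zero, add_zero]
    have hball : ∀ i, ∀ z ∈ closedBall (0 : E n) 1, x i + r i • z ∈ closedBall (x i) (r i) := by
      intro i z hz
      rw [mem_closedBall] at hz ⊢
      have := dist_aff (a := x i) (hr i) z 0
      rw [smul_zero, add_zero] at this
      rw [this]
      have := hr i
      nlinarith
    have hup : ∀ i, ∀ z ∈ closedBall (0 : E n) 1, dist (g i z) (g i 0) ≤ 1 := by
      intro i z hz
      rw [hdist0, inv_mul_le_iff₀ (hL i), mul_one]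
      exact hLup i _ (hball i z hz)
    have hlow : ∀ i, ∃ z ∈ closedBall (0 : E n) 1, 1 ≤ dist (g i z) (g i 0) := by
      intro i
      obtain ⟨z, hz, hzL⟩ := hLlow i
      refine ⟨(r i)⁻¹ • (z - x i), ?_, ?_⟩
      · rw [mem_closedBall] at hz ⊢
        have h3 := dist_aff (a := x i) (hr i) ((r i)⁻¹ • (z - x i)) 0
        rw [aff_surj (hr i), smul_zero, add_zero] at h3
        rw [h3] at hz
        have := hr i
        exact le_of_mul_le_mul_left (by linarith) this
      · rw [hdist0, aff_surj (hr i), le_inv_mul_iff₀ (hL i), mul_one]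
        exact hzL
    set U : Ultrafilter ℕ := hyperfilter ℕ with hUdef
    have hU : (U : Filter ℕ) ≤ atTop := hyper_le
    obtain ⟨G, hGc, hGo, hGfib, hGseq⟩ := exists_limit_map h.one_le h.c_pos h.w_lim hBG h0 hup
      hlow U
    set A' : ℕ → Set (E n) := fun i => {u | u ∈ closedBall (0 : E n) 1 ∧ x i + r i • u ∈ A} with hA'
    have hA'K : ∀ i, A' i ⊆ closedBall (0 : E n) 1 := fun i u hu => hu.1
    set T : Set (E n) := ulim U A' with hT
    have hTc : IsCompact T := isCompact_ulim hU (isCompact_closedBall (0 : E n) 1) hA'K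
    have hGT : ∀ s > 0, Col (G '' T) m s (C1 * s) := by
      intro s hs
      have h3 : Col (ulim U (fun i => g i '' A' i)) m s (C1 * s) := by
        apply Col.ulim hU
        filter_upwards with i
        have h4 := (hcolf (L i * s) (by have := hL i; positivity)).pullAff
          (B := g i '' A' i) (a := f (x i)) (r := L i) (hL i) (by
            rintro _ ⟨u, hu, rfl⟩
            refine ⟨x i + r i • u, hu.2, ?_⟩
            rw [hg]
            simp only [resc]
            rw [smul_inv_smul₀ (hL i).ne', add_sub_cancel])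
        refine h4.mono Subset.rfl (le_of_eq ?_) (le_of_eq ?_)
        · rw [mul_div_cancel_left₀ _ (hL i).ne']
        · have := (hL i).ne'
          field_simp
      refine h3.mono ?_ le_rfl le_rfl
      rintro _ ⟨t, ht, rfl⟩
      obtain ⟨a, ha, hat⟩ := exists_seq hU ht
      apply mem_ulim_of_seq (a := fun i => g i (a i))
      · filter_upwards [ha] with i hi
        exact ⟨a i, hi, rfl⟩
      · exact hGseq a t hat
    have hPG : PCol (G '' T) m := by
      intro ε' hε'
      refine ⟨ε' / C1, by positivity, ?_⟩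
      have := hGT (ε' / C1) (by positivity)
      rwa [mul_div_cancel₀ _ hC1.ne'] at this
    have hPT : PCol T m := PCol.comap hTc hGc.continuousOn (fun y =>
      (finite_of_encard_le_coe (hGfib y)).subset (fun z hz => hz.2)) hPG
    obtain ⟨δ, hδ, hcol⟩ := hPT (ε / 2) (by positivity)
    set η : ℝ := min (δ / 4) (ε / 4) with hη
    have hη0 : 0 < η := by positivity
    have hη1 : η ≤ δ / 4 := min_le_left _ _
    have hη2 : η ≤ ε / 4 := min_le_right _ _
    have hnear := ulim_near (U := U) (A := A') (isCompact_closedBall (0 : E n) 1) hA'K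
      (g := fun _ u => u) (G := fun u => u) (fun u x hu => hu) hη0
    have hsmall : ∀ᶠ i : ℕ in (U : Filter ℕ), 1 / ((i:ℝ) + 1) < δ / 2 :=
      hU (tendsto_one_div_add_atTop_nhds_zero_nat.eventually (gt_mem_nhds (by positivity)))
    obtain ⟨i, hi1, hi2⟩ := (hnear.and hsmall).exists
    apply hbad i
    have h5 : Col (A' i) m (δ - 2 * η) (ε / 2 + 2 * η) := hcol.thicken (by
      intro u hu
      obtain ⟨t, ht, hut⟩ := hi1 u hu
      exact ⟨t, ht, hut.le⟩)
    have h6 := (h5.mono (d' := δ / 2) (e' := ε) Subset.rfl (by linarith) (by linarith)).pushAff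
      (A := A ∩ closedBall (x i) (r i)) (a := x i) (hr i) (by
        intro z hz
        refine ⟨?_, ?_⟩
        · have h7 := hz.2
          rw [mem_closedBall] at h7 ⊢
          have h3 := dist_aff (a := x i) (hr i) ((r i)⁻¹ • (z - x i)) 0
          rw [aff_surj (hr i), smul_zero, add_zero] at h3
          rw [h3] at h7
          have := hr i
          exact le_of_mul_le_mul_left (by linarith) this
        · rw [aff_surj (hr i)]
          exact hz.1)
    refine h6.mono Subset.rfl ?_ ?_
    · have := hr i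
      nlinarith
    · rw [mul_comm]
  obtain ⟨c', hc', hcol⟩ := patch key
  exact NagataLE_of_Col c' hc' hcol

/-- Claim 2 -/
theorem claim2 {f : E n → E n} {N : ℕ} {C c : ℝ} {w : ℝ → ℝ} (h : BQ f N C c w)
    {A : Set (E n)} {m : ℕ} (hA : NagataLE A m) : NagataLE (f '' A) m := by
  classical
  obtain ⟨C1, hC1, hcolA⟩ := Col_of_NagataLE hA
  have key : ∀ ε > 0, ∃ δ > 0, ∀ (y : E n), ∀ ρ > 0,
      Col (f '' A ∩ closedBall y ρ) m (δ * ρ) (ε * ρ) := by
    by_contra hcon
    push Not at hcon
    obtain ⟨ε, hε, hcon⟩ := hcon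
    have h1 := fun i : ℕ => hcon (1 / ((i:ℝ) + 1)) (by positivity)
    choose y ρ hρ hbad using h1
    have h2 := fun i : ℕ => h.cover (y i) (ρ i) (hρ i)
    choose p r hr hp hcov hup' hlow' using h2
    set U : Ultrafilter ℕ := hyperfilter ℕ with hUdef
    have hU : (U : Filter ℕ) ≤ atTop := hyper_le
    set g : Fin N → ℕ → E n → E n := fun j i => resc f (p i j) (y i) (r i j) (ρ i) with hg
    have hBG : ∀ j i, BG (g j i) N C c w := fun j i => h.rescale _ _ (hr i j) (hρ i)
    have h0 : ∀ j i, g j i 0 = 0 := fun j i => resc_zero (hp i j)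
    have hdist0 : ∀ j i z, dist (g j i z) (g j i 0) =
        (ρ i)⁻¹ * dist (f (p i j + r i j • z)) (y i) := by
      intro j i z
      rw [hg]
      simp only
      rw [dist_resc (hρ i), smul_zero, add_zero, hp i j]
    have hball : ∀ j i, ∀ z ∈ closedBall (0 : E n) 1,
        p i j + r i j • z ∈ closedBall (p i j) (r i j) := by
      intro j i z hz
      rw [mem_closedBall] at hz ⊢
      have := dist_aff (a := p i j) (hr i j) z 0
      rw [smul_zero, add_zero] at this
      rw [this]
      have := hr i j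
      nlinarith
    have hball' : ∀ j i, ∀ z ∈ closedBall (p i j) (r i j),
        (r i j)⁻¹ • (z - p i j) ∈ closedBall (0 : E n) 1 := by
      intro j i z hz
      rw [mem_closedBall] at hz ⊢
      have h3 := dist_aff (a := p i j) (hr i j) ((r i j)⁻¹ • (z - p i j)) 0
      rw [aff_surj (hr i j), smul_zero, add_zero] at h3
      rw [h3] at hz
      have := hr i j
      exact le_of_mul_le_mul_left (by linarith) this
    have hup : ∀ j i, ∀ z ∈ closedBall (0 : E n) 1, dist (g j i z) (g j i 0) ≤ C := by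
      intro j i z hz
      rw [hdist0, inv_mul_le_iff₀ (hρ i)]
      have := hup' i j _ (hball j i z hz)
      linarith
    have hlow : ∀ j i, ∃ z ∈ closedBall (0 : E n) 1, 1 ≤ dist (g j i z) (g j i 0) := by
      intro j i
      obtain ⟨z, hz, hzL⟩ := hlow' i j
      refine ⟨(r i j)⁻¹ • (z - p i j), hball' j i z hz, ?_⟩
      rw [hdist0, aff_surj (hr i j), le_inv_mul_iff₀ (hρ i), mul_one]
      exact hzL
    have h3 := fun j => exists_limit_map h.one_le h.c_pos h.w_lim (hBG j) (h0 j) (hup j)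
      (hlow j) U
    choose G hGc hGo hGfib hGseq using h3
    set A' : Fin N → ℕ → Set (E n) := fun j i =>
      {u | u ∈ closedBall (0 : E n) 1 ∧ p i j + r i j • u ∈ A} with hA'
    have hA'K : ∀ j i, A' j i ⊆ closedBall (0 : E n) 1 := fun j i u hu => hu.1
    have hTc : ∀ j, IsCompact (ulim U (A' j)) := fun j =>
      isCompact_ulim hU (isCompact_closedBall (0 : E n) 1) (hA'K j)
    have hPT : ∀ j, PCol (ulim U (A' j)) m := by
      intro j ε' hε'
      refine ⟨ε' / C1, by positivity, ?_⟩
      apply Col.ulim hU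
      filter_upwards with i
      have h4 := (hcolA (r i j * (ε' / C1)) (by have := hr i j; positivity)).pullAff
        (B := A' j i) (a := p i j) (r := r i j) (hr i j) (fun u hu => hu.2)
      refine h4.mono Subset.rfl (le_of_eq ?_) (le_of_eq ?_)
      · rw [mul_div_cancel_left₀ _ (hr i j).ne']
      · have := (hr i j).ne'
        field_simp
    have hPG : ∀ j, PCol (G j '' (ulim U (A' j))) m := fun j =>
      PCol.map_open (hGc j) (hGo j) N (hGfib j) (hTc j) (hPT j)
    have hPU : PCol (⋃ j, G j '' (ulim U (A' j))) m := PCol.iUnion hPG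
    obtain ⟨δ, hδ, hcol⟩ := hPU (ε / 2) (by positivity)
    set η : ℝ := min (δ / 4) (ε / 4) with hη
    have hη0 : 0 < η := by positivity
    have hη1 : η ≤ δ / 4 := min_le_left _ _
    have hη2 : η ≤ ε / 4 := min_le_right _ _
    have hnear : ∀ᶠ i in (U : Filter ℕ), ∀ j, ∀ u ∈ A' j i, ∃ t ∈ ulim U (A' j),
        dist (g j i u) (G j t) < η := by
      rw [eventually_all]
      intro j
      exact ulim_near (U := U) (A := A' j) (isCompact_closedBall (0 : E n) 1) (hA'K j)
        (g := g j) (G := G j) (hGseq j) hη0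
    have hsmall : ∀ᶠ i : ℕ in (U : Filter ℕ), 1 / ((i:ℝ) + 1) < δ / 2 :=
      hU (tendsto_one_div_add_atTop_nhds_zero_nat.eventually (gt_mem_nhds (by positivity)))
    obtain ⟨i, hi1, hi2⟩ := (hnear.and hsmall).exists
    apply hbad i
    set B : Set (E n) := ⋃ j, g j i '' A' j i with hB
    have h5 : Col B m (δ - 2 * η) (ε / 2 + 2 * η) := hcol.thicken (by
      intro v hv
      obtain ⟨j, hj⟩ := mem_iUnion.mp hv
      obtain ⟨u, hu, rfl⟩ := hj
      obtain ⟨t, ht, hut⟩ := hi1 j u hu
      exact ⟨G j t, mem_iUnion.mpr ⟨j, t, ht, rfl⟩, hut.le⟩)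
    have h6 := (h5.mono (d' := δ / 2) (e' := ε) Subset.rfl (by linarith) (by linarith)).pushAff
      (A := f '' A ∩ closedBall (y i) (ρ i)) (a := y i) (hρ i) (by
        rintro _ ⟨⟨a, ha, rfl⟩, hz⟩
        have h7 : a ∈ ⋃ j, closedBall (p i j) (r i j) := hcov i hz
        obtain ⟨j, hj⟩ := mem_iUnion.mp h7
        refine mem_iUnion.mpr ⟨j, (r i j)⁻¹ • (a - p i j), ⟨hball' j i a hj, ?_⟩, ?_⟩
        · rw [aff_surj (hr i j)]
          exact ha
        · rw [hg]
          simp only [resc]
          rw [aff_surj (hr i j)])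
    refine h6.mono Subset.rfl ?_ ?_
    · have := hρ i
      nlinarith
    · rw [mul_comm]
  obtain ⟨c', hc', hcol⟩ := patch key
  exact NagataLE_of_Col c' hc' hcol

theorem nagata_iff_of_BQ {f : E n → E n} {N : ℕ} {C c : ℝ} {w : ℝ → ℝ} (h : BQ f N C c w)
    (A : Set (E n)) (m : ℕ) : NagataLE (f '' A) m ↔ NagataLE A m :=
  ⟨claim1 h, claim2 h⟩

end Pool.Agent.Work.MP_0f0f21_an
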