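import Pool.Agent.Work.MP_0f0f21_an.Sum

set_option autoImplicit false

open Metric Set Filter Topology

namespace Pool.Agent.Work.MP_0f0f21_an

variable {X Y : Type} [MetricSpace X] [MetricSpace Y]

omit [MetricSpace Y] in
lemma fibre_count {g : X → Y} {F : Set X} {η : ℝ}
    (hsep : ∀ p ∈ F, ∀ q ∈ F, p ≠ q → 2 * η ≤ dist p q) {y' : Y}
    (hy' : ∀ p ∈ F, y' ∈ g '' ball p η) :
    ∃ z : X → X, (∀ p ∈ F, z p ∈ ball p η ∧ g (z p) = y') ∧ InjOn z F := by
  classical
  have h1 : ∀ p, ∃ z, p ∈ F → z ∈ ball p η ∧ g z = y' := by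
    intro p
    by_cases hp : p ∈ F
    · obtain ⟨z, hz1, hz2⟩ := hy' p hp
      exact ⟨z, fun _ => ⟨hz1, hz2⟩⟩
    · exact ⟨p, fun h => absurd h hp⟩
  choose z hz using h1
  refine ⟨z, hz, ?_⟩
  intro p hp q hq hpq
  by_contra hne
  have h1 := (hz p hp).1
  have h2 := (hz q hq).1
  rw [mem_ball] at h1 h2
  rw [← hpq] at h2
  have h3 := hsep p hp q hq hne
  have h4 := dist_triangle_left p q (z p)
  linarith

lemma isOpen_interImage {g : X → Y} (hgo : IsOpenMap g) {F : Set X} (hF : F.Finite) (η : ℝ) :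
    IsOpen {y' | ∀ p ∈ F, y' ∈ g '' ball p η} := by
  have : {y' | ∀ p ∈ F, y' ∈ g '' ball p η} = ⋂ p ∈ F, g '' ball p η := by
    ext y'
    simp only [mem_ofPred_eq, mem_iInter]
  rw [this]
  exact hF.isOpen_biInter (fun p _ => hgo _ isOpen_ball)

lemma isOpen_le_encard {g : X → Y} (hgo : IsOpenMap g) (k : ℕ) :
    IsOpen {y | (k : ℕ∞) ≤ (g ⁻¹' {y}).encard} := by
  rw [isOpen_iff_mem_nhds]
  intro y hy
  obtain ⟨F, hF1, hF2⟩ := exists_subset_encard_eq hy
  have hFf : F.Finite := finite_of_encard_eq_coe hF2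
  obtain ⟨η, hη, hsep⟩ := finite_sep hFf
  have hV := isOpen_interImage hgo hFf (η / 2)
  refine mem_of_superset (hV.mem_nhds ?_) ?_
  · intro p hp
    exact ⟨p, mem_ball_self (by positivity), hF1 hp⟩
  · intro y' hy'
    obtain ⟨z, hz1, hz2⟩ := fibre_count (g := g) (F := F) (η := η / 2) (by
      intro p hp q hq hpq
      have := hsep p hp q hq hpq
      linarith) hy'
    show (k : ℕ∞) ≤ (g ⁻¹' {y'}).encard
    rw [← hF2, ← hz2.encard_image]
    apply encard_le_encard
    rintro _ ⟨p, hp, rfl⟩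
    exact (hz1 p hp).2

/-- D4b: pushing forward along an open map with fibres of at most `N` points -/
theorem PCol.map_open [ProperSpace Y] [SecondCountableTopology Y] {g : X → Y}
    (hgc : Continuous g) (hgo : IsOpenMap g) (N : ℕ) (hfib : ∀ y, (g ⁻¹' {y}).encard ≤ N)
    {T : Set X} (hT : IsCompact T) {m : ℕ} (h : PCol T m) : PCol (g '' T) m := by
  classical
  have hfin : ∀ y, (g ⁻¹' {y}).Finite := fun y => finite_of_encard_le_coe (hfib y)
  have hloc : ∀ y : Y, ∃ Ey : Set Y, Ey ∈ 𝓝[{y' | (g ⁻¹' {y'}).encard = (g ⁻¹' {y}).encard}] y ∧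
      PCol (g '' T ∩ Ey) m := by
    intro y
    obtain ⟨η₀, hη₀, hsep₀⟩ := finite_sep (hfin y)
    set η : ℝ := η₀ / 4 with hη
    have hη0 : 0 < η := by positivity
    have hsep : ∀ p ∈ g ⁻¹' {y}, ∀ q ∈ g ⁻¹' {y}, p ≠ q → 4 * η ≤ dist p q := by
      intro p hp q hq hpq
      have := hsep₀ p hp q hq hpq
      linarith
    have hV := isOpen_interImage hgo (hfin y) η
    have hyV : y ∈ {y' | ∀ p ∈ g ⁻¹' {y}, y' ∈ g '' ball p η} := by
      intro p hp
      exact ⟨p, mem_ball_self hη0, hp⟩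
    obtain ⟨r, hr, hrV⟩ := Metric.nhds_basis_closedBall.mem_iff.mp (hV.mem_nhds hyV)
    -- lower bound
    have hkey : ∀ y' ∈ closedBall y r, ∃ z : X → X,
        (∀ p ∈ g ⁻¹' {y}, z p ∈ ball p η ∧ g (z p) = y') ∧ InjOn z (g ⁻¹' {y}) := by
      intro y' hy'
      exact fibre_count (fun p hp q hq hpq => by have := hsep p hp q hq hpq; linarith) (hrV hy')
    set Ey : Set Y := closedBall y r ∩ {y' | (g ⁻¹' {y'}).encard = (g ⁻¹' {y}).encard} with hEy
    have hEyc : IsClosed Ey := by
      have h1 : Ey = closedBall y r ∩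
          {y' | (((hfin y).toFinset.card + 1 : ℕ) : ℕ∞) ≤ (g ⁻¹' {y'}).encard}ᶜ := by
        ext y'
        simp only [hEy, mem_inter_iff, mem_compl_iff, mem_ofPred_eq]
        apply and_congr_right
        intro hy'
        have h2 : (g ⁻¹' {y}).encard = ((hfin y).toFinset.card : ℕ) := by
          rw [(hfin y).encard_eq_coe_toFinset_card]
        have h3 : (g ⁻¹' {y'}).encard = ((hfin y').toFinset.card : ℕ) := by
          rw [(hfin y').encard_eq_coe_toFinset_card]
        obtain ⟨z, hz1, hz2⟩ := hkey y' hy'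
        have h4 : (g ⁻¹' {y}).encard ≤ (g ⁻¹' {y'}).encard := by
          rw [← hz2.encard_image]
          apply encard_le_encard
          rintro _ ⟨p, hp, rfl⟩
          exact (hz1 p hp).2
        rw [h2, h3] at h4 ⊢
        have h4' : (hfin y).toFinset.card ≤ (hfin y').toFinset.card := by exact_mod_cast h4
        constructor
        · intro h5 h6
          have h5' : (hfin y').toFinset.card = (hfin y).toFinset.card := by exact_mod_cast h5
          have h6' : (hfin y).toFinset.card + 1 ≤ (hfin y').toFinset.card := by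
            exact_mod_cast h6
          omega
        · intro h5
          have h5' : ¬ ((hfin y).toFinset.card + 1 ≤ (hfin y').toFinset.card) := by
            intro h6
            exact h5 (by exact_mod_cast h6)
          have : (hfin y').toFinset.card = (hfin y).toFinset.card := by omega
          rw [this]
      rw [h1]
      exact isClosed_closedBall.inter (isOpen_le_encard hgo _).isClosed_compl
    have hEyK : IsCompact Ey := (isCompact_closedBall y r).of_isClosed_subset hEyc
      inter_subset_left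
    refine ⟨Ey, ?_, ?_⟩
    · rw [hEy, inter_comm]
      exact inter_mem_nhdsWithin _ (closedBall_mem_nhds y hr)
    · -- the pieces
      set K : X → Set X := fun p => T ∩ (g ⁻¹' Ey ∩ closedBall p η) with hK
      have hKc : ∀ p, IsCompact (K p) := fun p =>
        hT.inter_right ((hEyc.preimage hgc).inter isClosed_closedBall)
      -- every preimage of a point of `Ey` is one of the `z p`
      have hall : ∀ y' ∈ Ey, ∃ z : X → X,
          (∀ p ∈ g ⁻¹' {y}, z p ∈ ball p η) ∧ z '' (g ⁻¹' {y}) = g ⁻¹' {y'} := by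
        intro y' hy'
        obtain ⟨z, hz1, hz2⟩ := hkey y' hy'.1
        refine ⟨z, fun p hp => (hz1 p hp).1, ?_⟩
        apply ((hfin y).image z).eq_of_subset_of_encard_le
        · rintro _ ⟨p, hp, rfl⟩
          exact (hz1 p hp).2
        · rw [hz2.encard_image]
          exact le_of_eq hy'.2
      have hKinj : ∀ p ∈ g ⁻¹' {y}, InjOn g (K p) := by
        intro p hp x hx x' hx' hxx
        obtain ⟨z, hz1, hz2⟩ := hall (g x) hx.2.1
        have huq : ∀ w, w ∈ g ⁻¹' {g x} → w ∈ closedBall p η → w = z p := by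
          intro w hw hwp
          rw [← hz2] at hw
          obtain ⟨q, hq, rfl⟩ := hw
          by_cases hqp : q = p
          · rw [hqp]
          · exfalso
            have h1 := hz1 q hq
            have h2 := hsep q hq p hp hqp
            rw [mem_ball] at h1
            rw [mem_closedBall] at hwp
            have h3 := dist_triangle_left q p (z q)
            linarith
        rw [huq x rfl hx.2.2, huq x' hxx.symm hx'.2.2]
      have hP : ∀ p : g ⁻¹' {y}, PCol (g '' (K p.1)) m := fun p =>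
        PCol.map (hKc p.1) hgc.continuousOn (hKinj p.1 p.2) (h.mono inter_subset_left)
      have : Fintype (g ⁻¹' {y}) := (hfin y).fintype
      refine (PCol.iUnion hP).mono ?_
      rintro y' ⟨⟨x, hx, rfl⟩, hy'⟩
      obtain ⟨z, hz1, hz2⟩ := hall (g x) hy'
      have hxz : x ∈ z '' (g ⁻¹' {y}) := by rw [hz2]; rfl
      obtain ⟨p, hp, hpx⟩ := hxz
      rw [mem_iUnion]
      refine ⟨⟨p, hp⟩, x, ⟨hx, hy', ?_⟩, rfl⟩
      rw [← hpx]
      exact ball_subset_closedBall (hz1 p hp)
  choose Ey hEy1 hEy2 using hloc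
  rcases T.eq_empty_or_nonempty with rfl | ⟨x₀, hx₀⟩
  · rw [image_empty]
    intro ε _
    exact ⟨1, one_pos, Col.empty _ _ _⟩
  have hcount : ∀ k : Fin (N + 1), ∃ t : Set Y, t.Countable ∧
      {y | (g ⁻¹' {y}).encard = ((k:ℕ):ℕ∞)} ⊆ ⋃ y ∈ t, Ey y := by
    intro k
    obtain ⟨t, _, ht1, ht2⟩ := TopologicalSpace.countable_cover_nhdsWithin
      (f := Ey) (s := {y | (g ⁻¹' {y}).encard = ((k:ℕ):ℕ∞)}) (by
        intro y hy
        have h1 := hEy1 y
        have h2 : (g ⁻¹' {y}).encard = ((k:ℕ):ℕ∞) := hy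
        rw [h2] at h1
        exact h1)
    exact ⟨t, ht1, ht2⟩
  choose t ht1 ht2 using hcount
  set S : Set Y := (⋃ k, t k) ∪ {g x₀} with hS
  have hSc : S.Countable := (countable_iUnion ht1).union (countable_singleton _)
  have hSne : S.Nonempty := ⟨g x₀, Or.inr rfl⟩
  obtain ⟨e, he⟩ := hSc.exists_eq_range hSne
  apply PCol.sum (hT.image hgc) (A := fun i => g '' T ∩ Ey (e i)) ?_ (fun i => hEy2 (e i))
  intro y hy
  have h1 : ∃ k : Fin (N + 1), (g ⁻¹' {y}).encard = ((k:ℕ):ℕ∞) := by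
    have h2 := hfib y
    rw [(hfin y).encard_eq_coe_toFinset_card] at h2 ⊢
    have h3 : (hfin y).toFinset.card ≤ N := by exact_mod_cast h2
    exact ⟨⟨(hfin y).toFinset.card, by omega⟩, rfl⟩
  obtain ⟨k, hk⟩ := h1
  have h2 := ht2 k hk
  rw [mem_iUnion₂] at h2
  obtain ⟨y1, hy1, hy2⟩ := h2
  have h3 : y1 ∈ S := Or.inl (mem_iUnion.mpr ⟨k, hy1⟩)
  rw [he] at h3
  obtain ⟨i, rfl⟩ := h3
  rw [mem_iUnion]
  exact ⟨i, hy, hy2⟩

end Pool.Agent.Work.MP_0f0f21_an
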