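import Pool.Agent.Work.MP_0f0f21_an.Col

set_option autoImplicit false

open Metric Set Filter Topology

namespace Pool.Agent.Work.MP_0f0f21_an

section General

variable {X : Type} [MetricSpace X]

/-- uniform families of sets, with a scale for each index -/
def UCol {ι : Type} (sc : ι → ℝ) (A : ι → Set X) (m : ℕ) : Prop :=
  ∀ ε > 0, ∃ δ > 0, ∀ i, Col (A i) m (δ * sc i) (ε * sc i)

lemma UCol.union {ι : Type} {sc : ι → ℝ} (hsc : ∀ i, 0 < sc i) {A B : ι → Set X} {m : ℕ}
    (hA : UCol sc A m) (hB : UCol sc B m) : UCol sc (fun i => A i ∪ B i) m := by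
  intro ε hε
  obtain ⟨δA, hδA, hA⟩ := hA (ε / 2) (by positivity)
  obtain ⟨δB, hδB, hB⟩ := hB (min (δA / 2) (ε / 8)) (by positivity)
  set δ : ℝ := min δB (min (δA / 4) (ε / 8)) with hδ
  have hδ0 : 0 < δ := by positivity
  have h1 : δ ≤ δB := min_le_left _ _
  have h2 : δ ≤ δA / 4 := (min_le_right _ _).trans (min_le_left _ _)
  have h3 : δ ≤ ε / 8 := (min_le_right _ _).trans (min_le_right _ _)
  have h4 : min (δA / 2) (ε / 8) ≤ δA / 2 := min_le_left _ _
  have h5 : min (δA / 2) (ε / 8) ≤ ε / 8 := min_le_right _ _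
  have h6 : 0 < min (δA / 2) (ε / 8) := by positivity
  refine ⟨δ, hδ0, fun i => ?_⟩
  have hs := hsc i
  have h := (hA i).union ((hB i).mono (d' := δ * sc i) Subset.rfl (by gcongr) le_rfl)
    (by positivity) (by positivity) (by positivity) (by nlinarith) (by nlinarith)
  refine h.mono Subset.rfl le_rfl ?_
  nlinarith

lemma UCol.biUnion {ι J : Type} {sc : ι → ℝ} (hsc : ∀ i, 0 < sc i) {A : J → ι → Set X} {m : ℕ}
    (s : Finset J) (hA : ∀ j ∈ s, UCol sc (A j) m) : UCol sc (fun i => ⋃ j ∈ s, A j i) m := by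
  classical
  induction s using Finset.induction_on with
  | empty =>
    intro ε hε
    refine ⟨1, one_pos, fun i => ?_⟩
    simpa using Col.empty m _ _
  | insert a s ha ih =>
    have h1 := ih (fun j hj => hA j (Finset.mem_insert_of_mem hj))
    have h2 := hA a (Finset.mem_insert_self a s)
    have h3 := h2.union hsc h1
    intro ε hε
    obtain ⟨δ, hδ, h⟩ := h3 ε hε
    refine ⟨δ, hδ, fun i => ?_⟩
    have := h i
    simpa only [Finset.set_biUnion_insert] using this

lemma UCol.iUnion {ι J : Type} [Fintype J] {sc : ι → ℝ} (hsc : ∀ i, 0 < sc i)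
    {A : J → ι → Set X} {m : ℕ} (hA : ∀ j, UCol sc (A j) m) :
    UCol sc (fun i => ⋃ j, A j i) m := by
  have := UCol.biUnion hsc (Finset.univ : Finset J) (fun j _ => hA j)
  simpa using this

lemma UCol.mono {ι : Type} {sc : ι → ℝ} {A B : ι → Set X} {m : ℕ}
    (hA : UCol sc A m) (h : ∀ i, B i ⊆ A i) : UCol sc B m := by
  intro ε hε
  obtain ⟨δ, hδ, hA⟩ := hA ε hε
  exact ⟨δ, hδ, fun i => (hA i).mono (h i) le_rfl le_rfl⟩

/-- the property of a single set -/
def PCol (T : Set X) (m : ℕ) : Prop := ∀ ε > 0, ∃ δ > 0, Col T m δ ε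

lemma PCol.toU {T : Set X} {m : ℕ} (h : PCol T m) :
    UCol (fun _ : Unit => (1:ℝ)) (fun _ => T) m := by
  intro ε hε
  obtain ⟨δ, hδ, h⟩ := h ε hε
  exact ⟨δ, hδ, fun _ => by simpa using h⟩

lemma PCol.ofU {T : Set X} {m : ℕ} (h : UCol (fun _ : Unit => (1:ℝ)) (fun _ => T) m) :
    PCol T m := by
  intro ε hε
  obtain ⟨δ, hδ, h⟩ := h ε hε
  exact ⟨δ, hδ, by simpa using h ()⟩

lemma PCol.union {A B : Set X} {m : ℕ} (hA : PCol A m) (hB : PCol B m) : PCol (A ∪ B) m :=
  PCol.ofU (hA.toU.union (fun _ => one_pos) hB.toU)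

lemma PCol.iUnion {J : Type} [Fintype J] {A : J → Set X} {m : ℕ} (hA : ∀ j, PCol (A j) m) :
    PCol (⋃ j, A j) m :=
  PCol.ofU (UCol.iUnion (fun _ => one_pos) (fun j => (hA j).toU))

lemma PCol.mono {A B : Set X} {m : ℕ} (hA : PCol A m) (h : B ⊆ A) : PCol B m := by
  intro ε hε
  obtain ⟨δ, hδ, hA⟩ := hA ε hε
  exact ⟨δ, hδ, hA.mono h le_rfl le_rfl⟩

end General

section Grid

variable {n : ℕ}

/-- the index of the cube of side `r` containing `x` -/
noncomputable def cubeIdx (r : ℝ) (x : E n) : Fin n → ℤ := fun i => ⌊x i / r⌋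

lemma cube_diam {r : ℝ} (hr : 0 < r) {x y : E n} (h : cubeIdx r x = cubeIdx r y) :
    dist x y ≤ (n + 1) * r := by
  have h1 : ∀ i, dist (x i) (y i) ≤ r := by
    intro i
    have h2 : ⌊x i / r⌋ = ⌊y i / r⌋ := congrFun h i
    have h3 := Int.floor_le (x i / r)
    have h4 := Int.lt_floor_add_one (x i / r)
    have h5 := Int.floor_le (y i / r)
    have h6 := Int.lt_floor_add_one (y i / r)
    rw [h2] at h3 h4
    have h7 : |x i / r - y i / r| ≤ 1 := by rw [abs_le]; constructor <;> linarith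
    rw [← sub_div, abs_div, abs_of_pos hr, div_le_one hr] at h7
    rwa [Real.dist_eq]
  rw [EuclideanSpace.dist_eq]
  have h2 : ∑ i, dist (x i) (y i) ^ 2 ≤ ((n + 1) * r) ^ 2 := by
    calc ∑ i, dist (x i) (y i) ^ 2 ≤ ∑ _i : Fin n, r ^ 2 := by
          apply Finset.sum_le_sum
          intro i _
          exact pow_le_pow_left₀ dist_nonneg (h1 i) 2
      _ = n * r ^ 2 := by simp
      _ ≤ ((n + 1) * r) ^ 2 := by
          have : (n:ℝ) ≤ (n + 1) ^ 2 := by nlinarith [Nat.cast_nonneg (α := ℝ) n]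
          nlinarith [sq_nonneg r]
  calc √(∑ i, dist (x i) (y i) ^ 2) ≤ √(((n + 1) * r) ^ 2) := Real.sqrt_le_sqrt h2
    _ = (n + 1) * r := Real.sqrt_sq (by positivity)

lemma cube_sep {r : ℝ} (hr : 0 < r) {x y : E n}
    (hpar : ∀ i, (cubeIdx r x i : ZMod 2) = (cubeIdx r y i : ZMod 2)) (hd : dist x y < r) :
    cubeIdx r x = cubeIdx r y := by
  funext i
  have h1 : dist (x i) (y i) < r := by
    refine lt_of_le_of_lt ?_ hd
    rw [EuclideanSpace.dist_eq]
    apply Real.le_sqrt_of_sq_le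
    exact Finset.single_le_sum (f := fun j => dist (x j) (y j) ^ 2) (fun j _ => by positivity)
      (Finset.mem_univ i)
  have hpi := hpar i
  rw [ZMod.intCast_eq_intCast_iff_dvd_sub] at hpi
  simp only [cubeIdx] at hpi ⊢
  have h3 := Int.floor_le (x i / r)
  have h4 := Int.lt_floor_add_one (x i / r)
  have h5 := Int.floor_le (y i / r)
  have h6 := Int.lt_floor_add_one (y i / r)
  have h7 : |x i / r - y i / r| < 1 := by
    rw [← sub_div, abs_div, abs_of_pos hr, div_lt_one hr]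
    rwa [Real.dist_eq] at h1
  rw [abs_lt] at h7
  have h8 : (⌊x i / r⌋ : ℝ) < ⌊y i / r⌋ + 2 := by linarith
  have h9 : (⌊y i / r⌋ : ℝ) < ⌊x i / r⌋ + 2 := by linarith
  have h8' : ⌊x i / r⌋ < ⌊y i / r⌋ + 2 := by exact_mod_cast h8
  have h9' : ⌊y i / r⌋ < ⌊x i / r⌋ + 2 := by exact_mod_cast h9
  have hpi' : (2:ℤ) ∣ ⌊y i / r⌋ - ⌊x i / r⌋ := by exact_mod_cast hpi
  omega

/-- patching local coloured covers -/
theorem patch {A : Set (E n)} {m : ℕ}
    (h : ∀ ε > 0, ∃ δ > 0, ∀ (x : E n), ∀ r > 0, Col (A ∩ closedBall x r) m (δ * r) (ε * r)) :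
    ∃ c > 0, ∀ s > 0, Col A m s (c * s) := by
  classical
  set cls : (Fin n → ZMod 2) → {r : ℝ // 0 < r} → Set (E n) := fun p r =>
    {x | x ∈ A ∧ ∀ i, (cubeIdx r.1 x i : ZMod 2) = p i} with hcls
  have hU : ∀ p, UCol (fun r : {r : ℝ // 0 < r} => r.1) (cls p) m := by
    intro p ε hε
    obtain ⟨δ, hδ, hloc⟩ := h (ε / (n + 1)) (by positivity)
    refine ⟨min (δ * (n + 1)) 1, by positivity, ?_⟩
    rintro ⟨r, hr⟩
    have h1 : ∀ z : Fin n → ℤ, ∃ (κ : E n → Fin (m + 1)) (l : E n → E n),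
        ∀ x ∈ {x | x ∈ A ∧ cubeIdx r x = z}, ∀ y ∈ {x | x ∈ A ∧ cubeIdx r x = z}, κ x = κ y →
        (dist x y < δ * ((n + 1) * r) → l x = l y) ∧
        (l x = l y → dist x y ≤ ε / (n + 1) * ((n + 1) * r)) := by
      intro z
      by_cases hz : ∃ x0, x0 ∈ A ∧ cubeIdx r x0 = z
      · obtain ⟨x0, hx0, hz⟩ := hz
        have h2 := hloc x0 ((n + 1) * r) (by positivity)
        have h3 := h2.mono (B := {x | x ∈ A ∧ cubeIdx r x = z}) (by
          intro x hx
          refine ⟨hx.1, ?_⟩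
          rw [mem_closedBall]
          exact cube_diam hr (hx.2.trans hz.symm)) le_rfl le_rfl
        exact h3
      · refine ⟨fun _ => 0, fun x => x, ?_⟩
        intro x hx
        exact absurd ⟨x, hx⟩ hz
    choose κ l hkl using h1
    apply Col.of_label (L := (Fin n → ℤ) × E n) (fun x => κ (cubeIdx r x) x)
      (fun x => (cubeIdx r x, l (cubeIdx r x) x))
    intro x hx y hy hxy
    constructor
    · intro hd
      have hd1 : dist x y < r := by
        refine hd.trans_le ?_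
        calc min (δ * (n + 1)) 1 * r ≤ 1 * r := by
              apply mul_le_mul_of_nonneg_right (min_le_right _ _) hr.le
          _ = r := one_mul r
      have hd2 : dist x y < δ * ((n + 1) * r) := by
        refine hd.trans_le ?_
        calc min (δ * (n + 1)) 1 * r ≤ (δ * (n + 1)) * r := by
              apply mul_le_mul_of_nonneg_right (min_le_left _ _) hr.le
          _ = _ := by ring
      have hc : cubeIdx r x = cubeIdx r y := cube_sep hr (fun i => by
        rw [hx.2 i, hy.2 i]) hd1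
      rw [hc] at hxy ⊢
      have := (hkl (cubeIdx r y) x ⟨hx.1, hc⟩ y ⟨hy.1, rfl⟩ hxy).1 hd2
      rw [this]
    · intro hl
      simp only [Prod.mk.injEq] at hl
      obtain ⟨hc, hl⟩ := hl
      rw [hc] at hxy hl
      have := (hkl (cubeIdx r y) x ⟨hx.1, hc⟩ y ⟨hy.1, rfl⟩ hxy).2 hl
      refine this.trans (le_of_eq ?_)
      field_simp
  have hA := UCol.iUnion (J := Fin n → ZMod 2) (fun r : {r : ℝ // 0 < r} => r.2) hU
  obtain ⟨δ, hδ, hcol⟩ := hA 1 one_pos
  refine ⟨1 / δ, by positivity, ?_⟩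
  intro s hs
  have h1 := hcol ⟨s / δ, by positivity⟩
  refine h1.mono ?_ ?_ ?_
  · intro x hx
    rw [mem_iUnion]
    exact ⟨fun i => (cubeIdx (s / δ) x i : ZMod 2), hx, fun i => rfl⟩
  · simp only
    rw [mul_div_cancel₀ _ hδ.ne']
  · simp only
    rw [one_mul]
    apply le_of_eq
    ring

end Grid

end Pool.Agent.Work.MP_0f0f21_an
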