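import Pool.Agent.Work.MP_0f0f21_an.L1

set_option autoImplicit false

open MeasureTheory Metric Set Filter Topology
open scoped ENNReal NNReal ContDiff Manifold

namespace Pool.Agent.Work.MP_0f0f21_an

variable {n : ℕ}

/-- quasiregular maps of polynomial type, bundled with their data -/
structure QR (n : ℕ) where
  f : E n → E n
  g : E n → (E n →L[ℝ] E n)
  hn : 1 ≤ n
  hf : Continuous f
  hg : IsWeakDeriv f g
  hgn : LocallyIntegrable (fun x => ‖g x‖ ^ n) volume
  K : ℝ
  hK : 1 ≤ K
  hqr : ∀ᵐ x, ‖g x‖ ^ n ≤ K * (g x).det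
  hprop : Tendsto f (cocompact (E n)) (cocompact (E n))

namespace QR

variable (q : QR n)

/-- the Jacobian -/
noncomputable def J (x : E n) : ℝ := (q.g x).det

/-- the smooth approximations -/
noncomputable def F (k : ℕ) : E n → E n := moll (bmp k) q.f

lemma F_smooth (k : ℕ) : ContDiff ℝ ∞ (q.F k) := moll_contDiff _ _ q.hf.locallyIntegrable

lemma F_fderiv (k : ℕ) (x : E n) : fderiv ℝ (q.F k) x = moll (bmp k) q.g x :=
  (moll_hasFDerivAt q.f q.g q.hf q.hg _ x).fderiv

lemma F_unif (R ε : ℝ) (hε : 0 < ε) :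
    ∀ᶠ k in atTop, ∀ x ∈ closedBall (0 : E n) R, dist (q.F k x) (q.f x) ≤ ε :=
  moll_unif q.f q.hf R ε hε

lemma F_Ln (R : ℝ) :
    Tendsto (fun k => ∫⁻ x in closedBall (0:E n) R, ‖fderiv ℝ (q.F k) x - q.g x‖ₑ ^ n) atTop
      (𝓝 0) := by
  have h := moll_Lp_loc q.g n q.hn q.hg.1.aestronglyMeasurable q.hgn R
  refine h.congr fun k => ?_
  apply lintegral_congr
  intro x
  rw [q.F_fderiv]

lemma g_Ln (R : ℝ) : ∫⁻ x in closedBall (0:E n) R, ‖q.g x‖ₑ ^ n ≠ ⊤ := by
  have h2 : IntegrableOn (fun x => ‖q.g x‖ ^ n) (closedBall (0:E n) R) volume :=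
    q.hgn.integrableOn_isCompact (isCompact_closedBall _ _)
  have h3 := h2.2
  rw [hasFiniteIntegral_iff_enorm] at h3
  refine ne_of_lt (lt_of_le_of_lt (lintegral_mono fun x => ?_) h3)
  rw [enorm_pow, enorm_norm]

lemma det_zero' (hn : 1 ≤ n) : (0 : E n →L[ℝ] E n).det = 0 := by
  have : (0 : E n →L[ℝ] E n).det = LinearMap.det (0 : E n →ₗ[ℝ] E n) := rfl
  rw [this, LinearMap.det_zero]
  simp
  omega

lemma J_meas : AEStronglyMeasurable q.J volume :=
  ContinuousLinearMap.continuous_det.comp_aestronglyMeasurable q.hg.1.aestronglyMeasurable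

lemma J_nonneg : ∀ᵐ x, 0 ≤ q.J x := by
  filter_upwards [q.hqr] with x hx
  have h1 : 0 ≤ ‖q.g x‖ ^ n := by positivity
  have h2 := q.hK
  have h3 : 0 ≤ q.K * (q.g x).det := h1.trans hx
  exact nonneg_of_mul_nonneg_right h3 (by linarith)

lemma J_locInt : LocallyIntegrable q.J volume := by
  obtain ⟨C, hC0, hC⟩ := det_deg n q.hn
  have h1 : LocallyIntegrable (fun x => C * ‖q.g x‖ ^ n) volume := by
    have := q.hgn.smul C
    exact this
  refine h1.mono q.J_meas ?_
  apply Eventually.of_forall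
  intro x
  have h2 := hC (q.g x) 0
  rw [det_zero' q.hn, sub_zero, sub_zero, norm_zero, add_zero] at h2
  refine h2.trans ?_
  rw [Real.norm_eq_abs, abs_of_nonneg (by positivity)]
  apply le_of_eq
  congr 1
  have : ‖q.g x‖ * ‖q.g x‖ ^ (n - 1) = ‖q.g x‖ ^ ((n - 1) + 1) := by ring
  rw [this, Nat.sub_add_cancel q.hn]

lemma J_intOn (R : ℝ) : IntegrableOn q.J (closedBall (0:E n) R) volume :=
  q.J_locInt.integrableOn_isCompact (isCompact_closedBall _ _)

lemma J_L1 (R : ℝ) :
    Tendsto (fun k => ∫⁻ x in closedBall (0:E n) R, ‖(fderiv ℝ (q.F k) x).det - q.J x‖ₑ) atTop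
      (𝓝 0) := by
  obtain ⟨C, hC0, hC⟩ := det_deg n q.hn
  exact L1conv (volume.restrict (closedBall (0:E n) R)) n q.hn
    (fun k => fderiv ℝ (q.F k)) q.g (fun a => a.det) C hC0 hC
    q.hg.1.aestronglyMeasurable.restrict (q.g_Ln R) (q.F_Ln R)

end QR

/-- determinant of a rank one perturbation of the identity -/
lemma det_rank_one (l : E n →L[ℝ] ℝ) (v : E n) :
    (ContinuousLinearMap.id ℝ (E n) + l.smulRight v).det = 1 + l v := by
  have h1 := LinearMap.transvection.det (l : E n →ₗ[ℝ] ℝ) v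
  have h2 : ((ContinuousLinearMap.id ℝ (E n) + l.smulRight v : E n →L[ℝ] E n) :
      E n →ₗ[ℝ] E n) = LinearMap.transvection (l : E n →ₗ[ℝ] ℝ) v := by
    ext x
    simp [LinearMap.transvection]
  have h3 : (ContinuousLinearMap.id ℝ (E n) + l.smulRight v).det =
      LinearMap.det ((ContinuousLinearMap.id ℝ (E n) + l.smulRight v : E n →L[ℝ] E n) :
      E n →ₗ[ℝ] E n) := rfl
  rw [h3, h2, h1]
  rfl

lemma det_comp' (a b : E n →L[ℝ] E n) : (a.comp b).det = a.det * b.det := by
  have : (a.comp b).det = LinearMap.det ((a : E n →ₗ[ℝ] E n) ∘ₗ (b : E n →ₗ[ℝ] E n)) := rfl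
  rw [this, LinearMap.det_comp]

/-- product of a uniformly convergent bounded sequence and an `L^1` convergent one -/
lemma L1prod {α : Type*} [MeasurableSpace α] (μ : Measure α) (P : ℕ → α → ℝ) (P0 : α → ℝ)
    (D : ℕ → α → ℝ) (D0 : α → ℝ) (C : ℝ) (hC : ∀ k x, |P k x| ≤ C)
    (hP : ∀ ε > 0, ∀ᶠ k in atTop, ∀ᵐ x ∂μ, |P k x - P0 x| ≤ ε)
    (hD0 : Integrable D0 μ)
    (hD : Tendsto (fun k => ∫⁻ x, ‖D k x - D0 x‖ₑ ∂μ) atTop (𝓝 0)) :
    Tendsto (fun k => ∫⁻ x, ‖P k x * D k x - P0 x * D0 x‖ₑ ∂μ) atTop (𝓝 0) := by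
  rw [ENNReal.tendsto_nhds_zero]
  intro ε hε
  set M := ∫⁻ x, ‖D0 x‖ₑ ∂μ with hM
  have hMt : M ≠ ⊤ := hD0.2.ne
  obtain ⟨δ, hδ, hδε⟩ : ∃ δ : ℝ, 0 < δ ∧ ENNReal.ofReal δ * M ≤ ε / 2 := by
    have ht : Tendsto (fun δ : ℝ => ENNReal.ofReal δ * M) (𝓝[>] 0) (𝓝 0) := by
      have h1 : Tendsto (fun δ : ℝ => ENNReal.ofReal δ) (𝓝[>] 0) (𝓝 0) := by
        have := (ENNReal.tendsto_ofReal (tendsto_id (α := ℝ) (x := 𝓝 0))).mono_left
          (nhdsWithin_le_nhds (s := Ioi (0:ℝ)))
        simpa using this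
      have h3 := ENNReal.Tendsto.mul_const h1 (b := M) (Or.inr hMt)
      simpa using h3
    have h1 := (ENNReal.tendsto_nhds_zero.mp ht (ε / 2) (ENNReal.half_pos hε.ne')).and
      self_mem_nhdsWithin
    obtain ⟨δ, h2, h3⟩ := h1.exists
    exact ⟨δ, h3, h2⟩
  have ht2 : Tendsto (fun k => ENNReal.ofReal C * ∫⁻ x, ‖D k x - D0 x‖ₑ ∂μ) atTop (𝓝 0) := by
    have := ENNReal.Tendsto.const_mul (a := ENNReal.ofReal C) hD (Or.inr (by simp))
    simpa using this
  filter_upwards [ENNReal.tendsto_nhds_zero.mp ht2 (ε / 2) (ENNReal.half_pos hε.ne'), hP δ hδ]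
    with k hk hk2
  calc ∫⁻ x, ‖P k x * D k x - P0 x * D0 x‖ₑ ∂μ
      ≤ ∫⁻ x, (ENNReal.ofReal δ * ‖D0 x‖ₑ + ENNReal.ofReal C * ‖D k x - D0 x‖ₑ) ∂μ := by
        apply lintegral_mono_ae
        filter_upwards [hk2] with x hx
        have h1 : P k x * D k x - P0 x * D0 x =
            (P k x - P0 x) * D0 x + P k x * (D k x - D0 x) := by ring
        rw [h1]
        refine (enorm_add_le _ _).trans ?_
        rw [enorm_mul, enorm_mul]
        gcongr
        · rw [← ofReal_norm, Real.norm_eq_abs]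
          exact ENNReal.ofReal_le_ofReal hx
        · rw [← ofReal_norm, Real.norm_eq_abs]
          exact ENNReal.ofReal_le_ofReal (hC k x)
    _ = ENNReal.ofReal δ * M + ENNReal.ofReal C * ∫⁻ x, ‖D k x - D0 x‖ₑ ∂μ := by
        rw [lintegral_add_left' (hD0.1.enorm.const_mul _), lintegral_const_mul' _ _ (by simp),
          lintegral_const_mul' _ _ (by simp)]
    _ ≤ ε / 2 + ε / 2 := add_le_add hδε hk
    _ = ε := ENNReal.add_halves ε

namespace QR

variable (q : QR n)

/-- the key identity: the push-forward of `J` is locally translation invariant -/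
theorem push_zero (W : Set (E n)) (hW : IsOpen W) (hWb : Bornology.IsBounded W)
    (ψ : E n → ℝ) (hψ : ContDiff ℝ 2 ψ) (hψc : HasCompactSupport ψ)
    (hfr : ∀ x ∈ frontier W, q.f x ∉ tsupport ψ) (v : E n) :
    ∫ x in W, (fderiv ℝ ψ (q.f x) v) * q.J x = 0 := by
  classical
  set S := tsupport ψ with hS
  have hScl : IsClosed S := isClosed_tsupport ψ
  obtain ⟨R, hR⟩ : ∃ R : ℝ, closure W ⊆ closedBall (0 : E n) R :=
    hWb.closure.subset_closedBall 0
  have hWR : W ⊆ closedBall (0 : E n) R := subset_closure.trans hR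
  have hclW : IsCompact (closure W) :=
    (isCompact_closedBall (0:E n) R).of_isClosed_subset isClosed_closure hR
  set Z := closure W ∩ q.f ⁻¹' S with hZ
  have hZc : IsCompact Z := hclW.inter_right (hScl.preimage q.hf)
  have hZW : Z ⊆ W := by
    intro x hx
    by_contra hxW
    have : x ∈ frontier W := by
      rw [hW.frontier_eq]
      exact ⟨hx.1, hxW⟩
    exact hfr x this hx.2
  -- cutoff
  obtain ⟨χ', hχ0, hχ1, hχI⟩ := exists_contMDiffMap_zero_one_nhds_of_isClosed (n := 2)
    (M := E n) 𝓘(ℝ, E n) hW.isClosed_compl hZc.isClosed (by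
      rw [Set.disjoint_left]
      intro x hx hx2
      exact hx (hZW hx2))
  set χ : E n → ℝ := fun x => χ' x with hχdef
  have hχs : ContDiff ℝ 2 χ := χ'.contMDiff.contDiff
  set N : Set (E n) := interior {x | χ x = 1} with hN
  have hNo : IsOpen N := isOpen_interior
  have hZN : Z ⊆ N := by
    intro x hx
    rw [hN, mem_interior_iff_mem_nhds]
    exact (Filter.Eventually.filter_mono (nhds_le_nhdsSet hx) hχ1)
  have hχout : ∀ x, x ∉ W → χ =ᶠ[𝓝 x] 0 := by
    intro x hx
    exact (Filter.Eventually.filter_mono (nhds_le_nhdsSet hx) hχ0)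
  -- distance
  set T := closure W \ N with hT
  have hTc : IsCompact T := hclW.diff hNo
  have hdisj : Disjoint (q.f '' T) S := by
    rw [Set.disjoint_left]
    rintro _ ⟨x, hx, rfl⟩ hx2
    exact hx.2 (hZN ⟨hx.1, hx2⟩)
  obtain ⟨δ, hδ, hδd⟩ := hdisj.exists_thickenings (hTc.image q.hf) hScl
  have hev : ∀ᶠ k in atTop, ∫ x in W, (fderiv ℝ ψ (q.F k x) v) *
      (fderiv ℝ (q.F k) x).det = 0 := by
    filter_upwards [q.F_unif R (δ / 2) (by positivity)] with k hk
    have hFs : ContDiff ℝ 2 (q.F k) := (q.F_smooth k).of_le (WithTop.coe_le_coe.mpr (le_top : (2:ℕ∞) ≤ ⊤))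
    have hTS : ∀ x ∈ T, q.F k x ∉ S := by
      intro x hx hx2
      have h1 : q.F k x ∈ thickening δ (q.f '' T) := by
        rw [mem_thickening_iff]
        refine ⟨q.f x, ⟨x, hx, rfl⟩, ?_⟩
        have := hk x (hR hx.1)
        linarith
      have h2 : q.F k x ∈ thickening δ S := self_subset_thickening hδ S hx2
      exact (Set.disjoint_left.mp hδd h1) h2
    set h : E n → E n := fun x => (χ x * ψ (q.F k x)) • v with hh
    have hhs : ContDiff ℝ 1 h :=
      ((hχs.mul (hψ.comp hFs)).smul contDiff_const).of_le (by norm_num)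
    have hhc : HasCompactSupport h := by
      apply HasCompactSupport.intro hclW
      intro x hx
      have h1 := (hχout x fun h' => hx (subset_closure h')).self_of_nhds
      simp only [hh]
      rw [h1]
      simp
    have key := nl (q.F k) h (hFs.of_le (by norm_num)) hhs hhc
    rw [← integral_indicator hW.measurableSet]
    rw [← key]
    congr 1
    ext x
    by_cases hxW : x ∈ W
    · rw [indicator_of_mem hxW]
      by_cases hxN : x ∈ N
      · have e1 : h =ᶠ[𝓝 x] fun y => ψ (q.F k y) • v := by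
          filter_upwards [hNo.mem_nhds hxN] with y hy
          have : χ y = 1 := (interior_subset hy : y ∈ {x | χ x = 1})
          simp only [hh]
          rw [this, one_mul]
        have hFd : HasFDerivAt (q.F k) (fderiv ℝ (q.F k) x) x :=
          (hFs.differentiable (by norm_num) x).hasFDerivAt
        have hψd : HasFDerivAt ψ (fderiv ℝ ψ (q.F k x)) (q.F k x) :=
          (hψ.differentiable (by norm_num) _).hasFDerivAt
        have e2 : HasFDerivAt (fun y => ψ (q.F k y) • v)
            (((fderiv ℝ ψ (q.F k x)).comp (fderiv ℝ (q.F k) x)).smulRight v) x :=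
          (hψd.comp x hFd).smul_const v
        rw [e1.fderiv_eq, e2.fderiv]
        have e3 : fderiv ℝ (q.F k) x +
            ((fderiv ℝ ψ (q.F k x)).comp (fderiv ℝ (q.F k) x)).smulRight v =
            (ContinuousLinearMap.id ℝ (E n) + (fderiv ℝ ψ (q.F k x)).smulRight v).comp
              (fderiv ℝ (q.F k) x) := by
          ext u
          simp
        rw [e3, det_comp', det_rank_one]
        ring
      · have hxT : x ∈ T := ⟨subset_closure hxW, hxN⟩
        have h1 := hTS x hxT
        have h2 : ∀ᶠ y in 𝓝 x, q.F k y ∉ S :=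
          (hFs.continuous.tendsto x).eventually (hScl.isOpen_compl.mem_nhds h1)
        have e1 : h =ᶠ[𝓝 x] fun _ => 0 := by
          filter_upwards [h2] with y hy
          have : ψ (q.F k y) = 0 := image_eq_zero_of_notMem_tsupport hy
          simp only [hh]
          rw [this]
          simp
        have e2 : fderiv ℝ ψ (q.F k x) = 0 := by
          have : q.F k x ∉ tsupport (fderiv ℝ ψ) := fun h' => h1 (tsupport_fderiv_subset ℝ h')
          exact image_eq_zero_of_notMem_tsupport this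
        rw [e1.fderiv_eq, e2]
        simp
    · rw [indicator_of_notMem hxW]
      have e1 : h =ᶠ[𝓝 x] fun _ => 0 := by
        filter_upwards [hχout x hxW] with y hy
        simp only [hh]
        rw [hy]
        simp
      rw [e1.fderiv_eq]
      simp
  -- the limit
  have hψd : Continuous (fderiv ℝ ψ) := hψ.continuous_fderiv (by norm_num)
  have hdc : Continuous (fun z => fderiv ℝ ψ z v) := hψd.clm_apply continuous_const
  have hds : HasCompactSupport (fun z => fderiv ℝ ψ z v) := by
    have := (hψc.fderiv ℝ)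
    apply this.comp_left (g := fun l : E n →L[ℝ] ℝ => l v)
    simp
  obtain ⟨C, hC⟩ := hds.exists_bound_of_continuous hdc
  have huc : UniformContinuous (fun z => fderiv ℝ ψ z v) := hds.uniformContinuous_of_continuous hdc
  have hlim : Tendsto (fun k => ∫ x in W, (fderiv ℝ ψ (q.F k x) v) *
      (fderiv ℝ (q.F k) x).det) atTop (𝓝 (∫ x in W, (fderiv ℝ ψ (q.f x) v) * q.J x)) := by
    have hJW : Integrable q.J (volume.restrict W) := (q.J_intOn R).mono_set hWR
    apply tendsto_integral_of_L1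
    · exact (hdc.comp q.hf).aestronglyMeasurable.mul hJW.1
    · apply Eventually.of_forall
      intro k
      have h1 : Continuous fun x => (fderiv ℝ ψ (q.F k x) v) * (fderiv ℝ (q.F k) x).det := by
        have hFs := q.F_smooth k
        apply (hdc.comp hFs.continuous).mul
        exact ContinuousLinearMap.continuous_det.comp (hFs.continuous_fderiv (by simp))
      exact (h1.continuousOn.integrableOn_compact (isCompact_closedBall 0 R)).mono_set hWR
    · apply L1prod (volume.restrict W) (fun k x => fderiv ℝ ψ (q.F k x) v)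
        (fun x => fderiv ℝ ψ (q.f x) v) (fun k x => (fderiv ℝ (q.F k) x).det) q.J C
      · intro k x
        exact hC _
      · intro ε hε
        obtain ⟨η, hη, hη2⟩ := Metric.uniformContinuous_iff.mp huc ε hε
        filter_upwards [q.F_unif R (η / 2) (by positivity)] with k hk
        filter_upwards [ae_restrict_mem hW.measurableSet] with x hx
        have h1 := hk x (hWR hx)
        have h2 := hη2 (a := q.F k x) (b := q.f x) (by linarith)
        rw [Real.dist_eq] at h2
        exact h2.le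
      · exact hJW
      · refine tendsto_of_tendsto_of_tendsto_of_le_of_le tendsto_const_nhds (q.J_L1 R)
          (fun _ => zero_le) ?_
        intro k
        exact lintegral_mono_set hWR
  have h0 : Tendsto (fun k => ∫ x in W, (fderiv ℝ ψ (q.F k x) v) *
      (fderiv ℝ (q.F k) x).det) atTop (𝓝 0) := by
    apply tendsto_const_nhds.congr'
    filter_upwards [hev] with k hk
    exact hk.symm
  exact tendsto_nhds_unique hlim h0

end QR

end Pool.Agent.Work.MP_0f0f21_an
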