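import Pool.Agent.Work.MP_0f0f21_an.Patch

set_option autoImplicit false

open Metric Set Filter Topology

namespace Pool.Agent.Work.MP_0f0f21_an

section General

variable {X Y : Type} [MetricSpace X] [MetricSpace Y]

lemma finite_sep {F : Set X} (hF : F.Finite) :
    ∃ η > 0, ∀ p ∈ F, ∀ q ∈ F, p ≠ q → η ≤ dist p q := by
  have : Finite F := hF
  by_cases h : F.Nontrivial
  · refine ⟨F.infsep, infsep_pos_iff_nontrivial_of_finite.mpr h, ?_⟩
    intro p hp q hq hpq
    exact infsep_le_dist_of_mem hp hq hpq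
  · refine ⟨1, one_pos, ?_⟩
    intro p hp q hq hpq
    exact absurd ⟨p, hp, q, hq, hpq⟩ h

/-- points with value near `y` are near the fibre over `y` -/
lemma fibre_near {T : Set X} (hT : IsCompact T) {g : X → Y} (hg : ContinuousOn g T) (y : Y)
    {η : ℝ} (hη : 0 < η) :
    ∃ lam > 0, ∀ x ∈ T, dist (g x) y < lam → ∃ p ∈ T, g p = y ∧ dist x p < η := by
  set K : Set X := {x | x ∈ T ∧ ∀ p ∈ T, g p = y → η ≤ dist x p} with hK
  have hKc : IsCompact K := by
    have : K = T ∩ ⋂ p ∈ {p | p ∈ T ∧ g p = y}, {x | η ≤ dist x p} := by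
      ext x
      simp only [hK, mem_ofPred_eq, mem_inter_iff, mem_iInter, and_imp]
    rw [this]
    apply hT.inter_right
    apply isClosed_biInter
    intro p _
    exact isClosed_le continuous_const (continuous_id.dist continuous_const)
  rcases K.eq_empty_or_nonempty with hKe | hKne
  · refine ⟨1, one_pos, fun x hx _ => ?_⟩
    by_contra hcon
    push Not at hcon
    have : x ∈ K := ⟨hx, fun p hp hpy => hcon p hp hpy⟩
    rw [hKe] at this
    exact this
  · have hKT : K ⊆ T := fun x hx => hx.1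
    have hc : ContinuousOn (fun x => dist (g x) y) K :=
      continuous_dist.comp_continuousOn ((hg.mono hKT).prodMk continuousOn_const)
    obtain ⟨x0, hx0, hmin⟩ := hKc.exists_isMinOn hKne hc
    refine ⟨dist (g x0) y, ?_, ?_⟩
    · rw [gt_iff_lt, dist_pos]
      intro h
      have := hx0.2 x0 hx0.1 h
      rw [dist_self] at this
      linarith
    · intro x hx hd
      by_contra hcon
      push Not at hcon
      have hxK : x ∈ K := ⟨hx, fun p hp hpy => hcon p hp hpy⟩
      have := hmin hxK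
      simp only [mem_ofPred_eq] at this
      linarith

/-- D4a: pulling back along a map with finite fibres -/
theorem PCol.comap {T : Set X} (hT : IsCompact T) {g : X → Y} (hg : ContinuousOn g T)
    (hfib : ∀ y, {x | x ∈ T ∧ g x = y}.Finite) {m : ℕ} (h : PCol (g '' T) m) : PCol T m := by
  classical
  rcases T.eq_empty_or_nonempty with rfl | ⟨x₀, hx₀⟩
  · intro ε _
    exact ⟨1, one_pos, Col.empty _ _ _⟩
  intro ε hε
  have h1 : ∀ y : Y, ∃ η > 0, η ≤ ε / 2 ∧ ∀ p ∈ {x | x ∈ T ∧ g x = y},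
      ∀ q ∈ {x | x ∈ T ∧ g x = y}, p ≠ q → 4 * η ≤ dist p q := by
    intro y
    obtain ⟨η, hη, h1⟩ := finite_sep (hfib y)
    refine ⟨min (η / 4) (ε / 2), by positivity, min_le_right _ _, ?_⟩
    intro p hp q hq hpq
    have h2 := h1 p hp q hq hpq
    have h3 := min_le_left (η / 4) (ε / 2)
    linarith
  choose η hη hηε hsep using h1
  have h2 : ∀ y : Y, ∃ lam > 0, ∀ x ∈ T, dist (g x) y < lam →
      ∃ p ∈ T, g p = y ∧ dist x p < η y := fun y => fibre_near hT hg y (hη y)
  choose lam hlam hnear using h2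
  have hgT : IsCompact (g '' T) := hT.image_of_continuousOn hg
  obtain ⟨t, ht⟩ := hgT.elim_nhds_subcover (fun y => ball y (lam y))
    (fun y _ => ball_mem_nhds y (hlam y))
  obtain ⟨ht1, ht2⟩ := ht
  obtain ⟨ρ, hρ, hleb⟩ := lebesgue_number_lemma_of_metric (ι := t)
    (c := fun y => ball y.1 (lam y.1)) hgT (fun _ => isOpen_ball) (by
      refine ht2.trans ?_
      intro z hz
      rw [mem_iUnion₂] at hz
      obtain ⟨y, hy, hz⟩ := hz
      rw [mem_iUnion]
      exact ⟨⟨y, hy⟩, hz⟩)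
  obtain ⟨i₀, _⟩ := hleb (g x₀) ⟨x₀, hx₀, rfl⟩
  -- a lower bound for η on t
  obtain ⟨η₀, hη₀, hη₀t⟩ : ∃ η₀ > 0, ∀ y ∈ t, η₀ ≤ η y := by
    obtain ⟨y, hy, hmin⟩ := t.exists_min_image η ⟨i₀.1, i₀.2⟩
    exact ⟨η y, hη y, hmin⟩
  obtain ⟨δ', hδ', κ, l, hkl⟩ := h (ρ / 2) (by positivity)
  -- index of the class
  have h3 : ∀ (k : Fin (m + 1)) (b : Y), ∃ i : t, ∀ x ∈ T, κ (g x) = k → l (g x) = b →
      dist (g x) i.1 < lam i.1 := by
    intro k b
    by_cases hz : ∃ z ∈ T, κ (g z) = k ∧ l (g z) = b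
    · obtain ⟨z, hz, hzk, hzb⟩ := hz
      obtain ⟨i, hi⟩ := hleb (g z) ⟨z, hz, rfl⟩
      refine ⟨i, ?_⟩
      intro x hx hxk hxb
      have h4 := (hkl (g x) ⟨x, hx, rfl⟩ (g z) ⟨z, hz, rfl⟩ (hxk.trans hzk.symm)).2
        (hxb.trans hzb.symm)
      have h5 : g x ∈ ball (g z) ρ := by rw [mem_ball]; linarith
      exact hi h5
    · refine ⟨i₀, ?_⟩
      intro x hx hxk hxb
      exact absurd ⟨x, hx, hxk, hxb⟩ hz
  choose idx hidx using h3
  -- the fibre point
  have h4 : ∀ x ∈ T, ∃ p ∈ T, g p = (idx (κ (g x)) (l (g x))).1 ∧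
      dist x p < η (idx (κ (g x)) (l (g x))).1 := fun x hx =>
    hnear _ x hx (hidx _ _ x hx rfl rfl)
  choose! fp hfp1 hfp2 hfp3 using h4
  -- uniform continuity
  have huc := hT.uniformContinuousOn_of_continuous hg
  rw [Metric.uniformContinuousOn_iff] at huc
  obtain ⟨δ₁, hδ₁, huc⟩ := huc δ' hδ'
  refine ⟨min δ₁ η₀, by positivity, ?_⟩
  apply Col.of_label (L := Y × X) (fun x => κ (g x)) (fun x => (l (g x), fp x))
  intro x hx y hy hxy
  constructor
  · intro hd
    have hd1 : dist x y < δ₁ := hd.trans_le (min_le_left _ _)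
    have hd2 : dist x y < η₀ := hd.trans_le (min_le_right _ _)
    have h5 := (hkl (g x) ⟨x, hx, rfl⟩ (g y) ⟨y, hy, rfl⟩ hxy).1 (huc x hx y hy hd1)
    have h6 : fp x = fp y := by
      by_contra hne
      have h7 : idx (κ (g x)) (l (g x)) = idx (κ (g y)) (l (g y)) := by rw [hxy, h5]
      have h8 := hfp2 x hx
      have h9 := hfp3 x hx
      rw [h7] at h8 h9
      have h10 := hsep _ (fp x) ⟨hfp1 x hx, h8⟩ (fp y) ⟨hfp1 y hy, hfp2 y hy⟩ hne
      have h11 := hfp3 y hy
      have h12 := hη₀t _ (idx (κ (g y)) (l (g y))).2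
      have h13 := dist_triangle4 (fp x) x y (fp y)
      rw [dist_comm (fp x) x] at h13
      linarith
    rw [h5, h6]
  · intro hl
    simp only [Prod.mk.injEq] at hl
    have h7 : idx (κ (g x)) (l (g x)) = idx (κ (g y)) (l (g y)) := by rw [hxy, hl.1]
    have h9 := hfp3 x hx
    have h11 := hfp3 y hy
    rw [hl.2, h7] at h9
    have h12 := hηε (idx (κ (g y)) (l (g y))).1
    have h13 := dist_triangle_right x y (fp y)
    linarith

/-- pushing forward along an injective map of a compact set -/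
theorem PCol.map {K : Set X} (hK : IsCompact K) {g : X → Y} (hg : ContinuousOn g K)
    (hinj : InjOn g K) {m : ℕ} (h : PCol K m) : PCol (g '' K) m := by
  classical
  rcases K.eq_empty_or_nonempty with rfl | ⟨x₀, hx₀⟩
  · intro ε _
    refine ⟨1, one_pos, ?_⟩
    rw [image_empty]
    exact Col.empty _ _ _
  intro ε hε
  have huc := hK.uniformContinuousOn_of_continuous hg
  rw [Metric.uniformContinuousOn_iff] at huc
  obtain ⟨ε', hε', huc⟩ := huc ε hε
  obtain ⟨δ', hδ', κ, l, hkl⟩ := h (ε' / 2) (by positivity)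
  -- lower modulus
  obtain ⟨δ, hδ, hlow⟩ : ∃ δ > 0, ∀ x ∈ K, ∀ y ∈ K, dist (g x) (g y) < δ → dist x y < δ' := by
    set Q : Set (X × X) := (K ×ˢ K) ∩ {p | δ' ≤ dist p.1 p.2} with hQ
    have hQc : IsCompact Q := (hK.prod hK).inter_right
      (isClosed_le continuous_const (continuous_fst.dist continuous_snd))
    rcases Q.eq_empty_or_nonempty with hQe | hQne
    · refine ⟨1, one_pos, ?_⟩
      intro x hx y hy _
      by_contra hcon
      have : (x, y) ∈ Q := ⟨⟨hx, hy⟩, not_lt.mp hcon⟩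
      rw [hQe] at this
      exact this
    · have hc : ContinuousOn (fun p : X × X => dist (g p.1) (g p.2)) Q := by
        exact continuous_dist.comp_continuousOn
          ((hg.comp continuousOn_fst (fun p hp => hp.1.1)).prodMk
          (hg.comp continuousOn_snd (fun p hp => hp.1.2)))
      obtain ⟨p, hp, hmin⟩ := hQc.exists_isMinOn hQne hc
      refine ⟨dist (g p.1) (g p.2), ?_, ?_⟩
      · rw [gt_iff_lt, dist_pos]
        intro h5
        have h6 := hinj hp.1.1 hp.1.2 h5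
        have h7 : δ' ≤ dist p.1 p.2 := hp.2
        rw [h6, dist_self] at h7
        linarith
      · intro x hx y hy hd
        by_contra hcon
        have h5 : (x, y) ∈ Q := ⟨⟨hx, hy⟩, not_lt.mp hcon⟩
        have h6 := hmin h5
        simp only [mem_ofPred_eq] at h6
        linarith
  have h5 : ∀ y ∈ g '' K, ∃ x ∈ K, g x = y := fun y hy => hy
  have : Nonempty X := ⟨x₀⟩
  choose! iv hiv1 hiv2 using h5
  refine ⟨δ, hδ, ?_⟩
  apply Col.of_label (L := X) (fun y => κ (iv y)) (fun y => l (iv y))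
  intro x hx y hy hxy
  have h6 := hkl (iv x) (hiv1 x hx) (iv y) (hiv1 y hy) hxy
  constructor
  · intro hd
    apply h6.1
    apply hlow (iv x) (hiv1 x hx) (iv y) (hiv1 y hy)
    rwa [hiv2 x hx, hiv2 y hy]
  · intro hl
    have h7 := h6.2 hl
    have h8 := huc (iv x) (hiv1 x hx) (iv y) (hiv1 y hy) (by linarith)
    rw [hiv2 x hx, hiv2 y hy] at h8
    exact h8.le

/-- D4c: countable sums -/
theorem PCol.sum {T : Set X} (hT : IsCompact T) {m : ℕ} {A : ℕ → Set X} (hTA : T ⊆ ⋃ i, A i)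
    (hA : ∀ i, PCol (A i) m) : PCol T m := by
  classical
  intro ε hε
  set 𝒞 : Set X → Prop := fun O => IsOpen O ∧ ∃ δ > 0, ∃ ε', 0 ≤ ε' ∧ ε' < ε ∧ Col O m δ ε' with h𝒞
  have hstep : ∀ (O : {O : Set X // 𝒞 O}) (i : ℕ), ∃ O' : {O : Set X // 𝒞 O},
      O.1 ⊆ O'.1 ∧ A i ⊆ O'.1 := by
    rintro ⟨O, hO, δ, hδ, ε', hε'0, hε', hcol⟩ i
    have hη : 0 < ε - ε' := by linarith
    obtain ⟨δ₀, hδ₀, hB⟩ := hA i (min (δ / 4) ((ε - ε') / 16)) (by positivity)
    set δ₁ : ℝ := min δ₀ (min (δ / 4) ((ε - ε') / 16)) with hδ₁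
    have hδ₁0 : 0 < δ₁ := by positivity
    have e1 : δ₁ ≤ δ₀ := min_le_left _ _
    have e2 : δ₁ ≤ δ / 4 := (min_le_right _ _).trans (min_le_left _ _)
    have e3 : δ₁ ≤ (ε - ε') / 16 := (min_le_right _ _).trans (min_le_right _ _)
    have e4 : min (δ / 4) ((ε - ε') / 16) ≤ δ / 4 := min_le_left _ _
    have e5 : min (δ / 4) ((ε - ε') / 16) ≤ (ε - ε') / 16 := min_le_right _ _
    have e6 : 0 < min (δ / 4) ((ε - ε') / 16) := by positivity
    have hthick : Col (Metric.thickening (δ₁ / 4) (A i)) m (δ₁ / 2)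
        (min (δ / 4) ((ε - ε') / 16) + δ₁ / 2) := by
      have := (hB.mono (d' := δ₁) Subset.rfl e1 le_rfl).thicken
        (B := Metric.thickening (δ₁ / 4) (A i)) (η := δ₁ / 4) (by
          intro x hx
          rw [Metric.mem_thickening_iff] at hx
          obtain ⟨a, ha, hxa⟩ := hx
          exact ⟨a, ha, hxa.le⟩)
      refine this.mono Subset.rfl (by linarith) (by linarith)
    have hun := hcol.union hthick (by positivity) hε'0 (by positivity) (by linarith) (by linarith)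
    refine ⟨⟨O ∪ Metric.thickening (δ₁ / 4) (A i), hO.union Metric.isOpen_thickening,
      δ₁ / 2, by positivity, _, ?_, ?_, hun⟩, subset_union_left, ?_⟩
    · positivity
    · linarith
    · exact (Metric.self_subset_thickening (by positivity) _).trans subset_union_right
  choose F hF1 hF2 using hstep
  have hempty : 𝒞 (∅ : Set X) := ⟨isOpen_empty, 1, one_pos, 0, le_rfl, hε, Col.empty _ _ _⟩
  set O : ℕ → {O : Set X // 𝒞 O} := fun k => Nat.rec ⟨∅, hempty⟩ (fun j o => F o j) k with hO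
  have hOs : ∀ k, O (k + 1) = F (O k) k := fun k => rfl
  have hmono : Monotone (fun k => (O k).1) := by
    apply monotone_nat_of_le_succ
    intro k
    rw [hOs]
    exact hF1 _ _
  have hcov : T ⊆ ⋃ k, (O k).1 := by
    intro x hx
    obtain ⟨i, hi⟩ := mem_iUnion.mp (hTA hx)
    rw [mem_iUnion]
    refine ⟨i + 1, ?_⟩
    rw [hOs]
    exact hF2 _ _ hi
  obtain ⟨k, hk⟩ := hT.elim_directed_cover (fun k => (O k).1) (fun k => (O k).2.1) hcov
    hmono.directed_le
  obtain ⟨_, δ, hδ, ε', _, hε', hcol⟩ := (O k).2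
  exact ⟨δ, hδ, hcol.mono hk le_rfl hε'.le⟩

end General

end Pool.Agent.Work.MP_0f0f21_an
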