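import Pool.Agent.Work.MP_0f0f21_an.Push

set_option autoImplicit false

open MeasureTheory Metric Set Filter Topology
open scoped ENNReal NNReal ContDiff

namespace Pool.Agent.Work.MP_0f0f21_an

variable {n : ℕ}

namespace QR

variable (q : QR n)

/-- local translation invariance of the push-forward of the Jacobian -/
theorem push_translate (W : Set (E n)) (hW : IsOpen W) (hWb : Bornology.IsBounded W)
    (y : E n) (ρ : ℝ) (hfr : ∀ x ∈ frontier W, q.f x ∉ ball y ρ)
    (ψ : E n → ℝ) (hψ : ContDiff ℝ 2 ψ) (η : ℝ) (hη : tsupport ψ ⊆ closedBall 0 η)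
    (a b : E n) (ha : dist a y + η < ρ) (hb : dist b y + η < ρ) :
    ∫ x in W, ψ (q.f x - a) * q.J x = ∫ x in W, ψ (q.f x - b) * q.J x := by
  have hψc : HasCompactSupport ψ :=
    HasCompactSupport.of_support_subset_isCompact (isCompact_closedBall (0 : E n) η)
      ((subset_tsupport ψ).trans hη)
  obtain ⟨R, hR⟩ : ∃ R : ℝ, W ⊆ closedBall (0 : E n) R := hWb.subset_closedBall 0
  have hJW : Integrable q.J (volume.restrict W) := (q.J_intOn R).mono_set hR
  have hψd : Continuous (fderiv ℝ ψ) := hψ.continuous_fderiv (by norm_num)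
  obtain ⟨C, hC⟩ := (hψc.fderiv ℝ).exists_bound_of_continuous hψd
  obtain ⟨C0, hC0⟩ := hψc.exists_bound_of_continuous hψ.continuous
  have hCnn : 0 ≤ C := (norm_nonneg _).trans (hC 0)
  set c : ℝ → E n := fun t => a + t • (b - a) with hc
  set F : ℝ → ℝ := fun t => ∫ x in W, ψ (q.f x - c t) * q.J x with hF
  have hder : ∀ t ∈ Icc (0:ℝ) 1, HasDerivAt F 0 t := by
    intro t ht
    have h1 := (hasDerivAt_integral_of_dominated_loc_of_deriv_le (μ := volume.restrict W)
      (F := fun t x => ψ (q.f x - c t) * q.J x)
      (F' := fun t x => -(fderiv ℝ ψ (q.f x - c t) (b - a)) * q.J x)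
      (x₀ := t) (s := univ) (bound := fun x => C * ‖b - a‖ * ‖q.J x‖) univ_mem ?_ ?_ ?_ ?_ ?_
      ?_).2
    · have h2 : ∫ x in W, -(fderiv ℝ ψ (q.f x - c t) (b - a)) * q.J x = 0 := by
        set ψt : E n → ℝ := fun z => ψ (z - c t) with hψt
        have hs : ContDiff ℝ 2 ψt := hψ.comp (contDiff_id.sub contDiff_const)
        have hts : tsupport ψt ⊆ closedBall (c t) η := by
          apply closure_minimal _ isClosed_closedBall
          intro z hz
          have h3 : z - c t ∈ closedBall (0 : E n) η := hη (subset_tsupport ψ hz)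
          rw [mem_closedBall, dist_zero_right] at h3
          rw [mem_closedBall, dist_eq_norm]
          exact h3
        have hcs : HasCompactSupport ψt :=
          HasCompactSupport.of_support_subset_isCompact (isCompact_closedBall (c t) η)
            ((subset_tsupport ψt).trans hts)
        have hcb : closedBall (c t) η ⊆ ball y ρ := by
          intro z hz
          rw [mem_closedBall] at hz
          rw [mem_ball]
          have h4 : dist (c t) y ≤ (1 - t) * dist a y + t * dist b y := by
            have : c t - y = (1 - t) • (a - y) + t • (b - y) := by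
              simp only [hc]
              module
            rw [dist_eq_norm, this]
            refine (norm_add_le _ _).trans ?_
            rw [norm_smul, norm_smul, Real.norm_eq_abs, Real.norm_eq_abs,
              abs_of_nonneg (by linarith [ht.2]), abs_of_nonneg ht.1, dist_eq_norm, dist_eq_norm]
          have h5 : (1 - t) * dist a y + t * dist b y < ρ - η := by
            rcases eq_or_lt_of_le ht.2 with h6 | h6
            · rw [h6]; linarith
            · have h7 : (1 - t) * dist a y < (1 - t) * (ρ - η) :=
                mul_lt_mul_of_pos_left (by linarith) (by linarith)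
              have h8 : t * dist b y ≤ t * (ρ - η) :=
                mul_le_mul_of_nonneg_left (by linarith) ht.1
              nlinarith
          linarith [dist_triangle z (c t) y]
        have h6 := q.push_zero W hW hWb ψt hs hcs
          (fun x hx hx2 => hfr x hx (hcb (hts hx2))) (b - a)
        have h7 : ∀ x, fderiv ℝ ψt (q.f x) (b - a) = fderiv ℝ ψ (q.f x - c t) (b - a) := by
          intro x
          have h8 : HasFDerivAt ψt (fderiv ℝ ψ (q.f x - c t)) (q.f x) := by
            have h9 : HasFDerivAt ψ (fderiv ℝ ψ (q.f x - c t)) (q.f x - c t) :=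
              (hψ.differentiable (by norm_num) _).hasFDerivAt
            have h10 : HasFDerivAt (fun z : E n => z - c t) (ContinuousLinearMap.id ℝ (E n))
                (q.f x) := (hasFDerivAt_id _).sub_const _
            have h11 := h9.comp (q.f x) h10
            rwa [ContinuousLinearMap.comp_id] at h11
          rw [h8.fderiv]
        simp only [h7] at h6
        simp only [neg_mul, integral_neg, h6, neg_zero]
      rw [h2] at h1
      exact h1
    · apply Eventually.of_forall
      intro s
      apply AEStronglyMeasurable.mul _ hJW.1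
      exact (hψ.continuous.comp (q.hf.sub continuous_const)).aestronglyMeasurable
    · apply hJW.bdd_mul (c := C0)
      · exact (hψ.continuous.comp (q.hf.sub continuous_const)).aestronglyMeasurable
      · exact Eventually.of_forall fun x => hC0 _
    · apply AEStronglyMeasurable.mul _ hJW.1
      exact ((hψd.comp (q.hf.sub continuous_const)).clm_apply
        continuous_const).neg.aestronglyMeasurable
    · apply Eventually.of_forall
      intro x s _
      rw [norm_mul, norm_neg]
      gcongr
      exact (ContinuousLinearMap.le_opNorm _ _).trans (by gcongr; exact hC _)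
    · exact hJW.norm.const_mul _
    · apply Eventually.of_forall
      intro x s _
      have h2 : HasDerivAt (fun s : ℝ => q.f x - c s) (-(b - a)) s := by
        have h3 : HasDerivAt c (b - a) s := by
          have h3 := ((hasDerivAt_id s).smul_const (b - a)).const_add a
          rw [one_smul] at h3
          exact h3
        simpa using h3.const_sub (q.f x)
      have h3 : HasFDerivAt ψ (fderiv ℝ ψ (q.f x - c s)) (q.f x - c s) :=
        (hψ.differentiable (by norm_num) _).hasFDerivAt
      have h4 := h3.comp_hasDerivAt s h2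
      rw [map_neg] at h4
      exact h4.mul_const _
  have h1 := constant_of_has_deriv_right_zero (f := F) (a := 0) (b := 1)
    (fun t ht => (hder t ht).continuousAt.continuousWithinAt)
    (fun t ht => (hder t ⟨ht.1, ht.2.le⟩).hasDerivWithinAt) 1 (by simp)
  simp only [hF, hc] at h1
  simp only [zero_smul, add_zero, one_smul, add_sub_cancel] at h1
  exact h1.symm

lemma preimage_bdd (ρ : ℝ) : ∃ R : ℝ, 0 < R ∧ ∀ x, ‖q.f x‖ ≤ ρ → ‖x‖ < R := by
  have h1 : q.f ⁻¹' (closedBall 0 ρ)ᶜ ∈ cocompact (E n) :=
    q.hprop (isCompact_closedBall (0 : E n) ρ).compl_mem_cocompact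
  rw [mem_cocompact] at h1
  obtain ⟨t, ht, ht2⟩ := h1
  obtain ⟨R, hR⟩ := ht.isBounded.subset_ball (0 : E n)
  refine ⟨max R 1, by positivity, ?_⟩
  intro x hx
  by_contra hcon
  push Not at hcon
  have h2 : x ∉ t := by
    intro h3
    have h4 := hR h3
    rw [mem_ball, dist_zero_right] at h4
    linarith [le_max_left R 1]
  have h3 := ht2 h2
  apply h3
  simpa using hx

/-- global translation invariance -/
theorem push_translate_global (ψ : E n → ℝ) (hψ : ContDiff ℝ 2 ψ) (hψc : HasCompactSupport ψ)
    (a : E n) :
    ∫ x, ψ (q.f x - a) * q.J x = ∫ x, ψ (q.f x) * q.J x := by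
  obtain ⟨η, hη⟩ := hψc.isCompact.isBounded.subset_closedBall (0 : E n)
  have hηmax : tsupport ψ ⊆ closedBall 0 (max η 0) :=
    hη.trans (closedBall_subset_closedBall (le_max_left _ _))
  set η' := max η 0 with hη'
  have hη0 : 0 ≤ η' := le_max_right _ _
  obtain ⟨R, hR0, hR⟩ := q.preimage_bdd (‖a‖ + η' + 1)
  have h1 := q.push_translate (ball 0 R) isOpen_ball isBounded_ball 0 (‖a‖ + η' + 1) (by
    intro x hx hx2
    rw [frontier_ball (0 : E n) hR0.ne'] at hx
    have h2 := hR x (by
      rw [mem_ball, dist_zero_right] at hx2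
      exact hx2.le)
    rw [mem_sphere, dist_zero_right] at hx
    linarith) ψ hψ η' hηmax a 0 (by rw [dist_zero_right]; linarith)
    (by rw [dist_self]; linarith [norm_nonneg a])
  have h2 : ∀ c : E n, ‖c‖ ≤ ‖a‖ → ∫ x in ball 0 R, ψ (q.f x - c) * q.J x =
      ∫ x, ψ (q.f x - c) * q.J x := by
    intro c hc
    rw [← integral_indicator measurableSet_ball]
    congr 1
    ext x
    by_cases hx : x ∈ ball (0 : E n) R
    · rw [indicator_of_mem hx]
    · rw [indicator_of_notMem hx]
      have h3 : q.f x - c ∉ tsupport ψ := by
        intro h4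
        have h5 := hηmax h4
        rw [mem_closedBall, dist_zero_right] at h5
        apply hx
        rw [mem_ball, dist_zero_right]
        apply hR
        have h6 : ‖q.f x‖ ≤ ‖q.f x - c‖ + ‖c‖ := by
          have := norm_add_le (q.f x - c) c
          simpa using this
        linarith
      rw [image_eq_zero_of_notMem_tsupport h3, zero_mul]
  rw [h2 a le_rfl, h2 0 (by simp)] at h1
  simpa using h1

/-- the measure with density `J` -/
noncomputable def ν : Measure (E n) := volume.withDensity fun x => ENNReal.ofReal (q.J x)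

/-- its push-forward -/
noncomputable def μ : Measure (E n) := q.ν.map q.f

lemma J_ofReal_meas : AEMeasurable (fun x => ENNReal.ofReal (q.J x)) volume :=
  q.J_meas.aemeasurable.ennreal_ofReal

instance : IsFiniteMeasureOnCompacts q.μ := by
  refine ⟨fun K hK => ?_⟩
  rw [μ, Measure.map_apply q.hf.measurable hK.measurableSet, ν]
  obtain ⟨ρ, hρ⟩ := hK.isBounded.subset_closedBall (0 : E n)
  obtain ⟨R, hR0, hR⟩ := q.preimage_bdd ρ
  rw [withDensity_apply _ (q.hf.measurable hK.measurableSet)]
  have h1 : q.f ⁻¹' K ⊆ closedBall 0 R := by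
    intro x hx
    have := hρ hx
    rw [mem_closedBall, dist_zero_right] at this
    rw [mem_closedBall, dist_zero_right]
    exact (hR x this).le
  refine (lintegral_mono_set h1).trans_lt ?_
  have h2 := (q.J_intOn R).2
  rw [hasFiniteIntegral_iff_enorm] at h2
  refine lt_of_le_of_lt (lintegral_mono fun x => ?_) h2
  rw [← ofReal_norm, Real.norm_eq_abs]
  exact ENNReal.ofReal_le_ofReal (le_abs_self _)

lemma lintegral_μ (Θ : E n → ℝ≥0∞) (hΘ : Measurable Θ) :
    ∫⁻ z, Θ z ∂q.μ = ∫⁻ x, Θ (q.f x) * ENNReal.ofReal (q.J x) := by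
  have h1 := lintegral_withDensity_eq_lintegral_mul₀ q.J_ofReal_meas
      (hΘ.comp q.hf.measurable).aemeasurable
  rw [μ, lintegral_map hΘ q.hf.measurable, ν]
  refine h1.trans ?_
  apply lintegral_congr
  intro x
  simp [mul_comm]

lemma μ_open (U : Set (E n)) (hU : IsOpen U) (hUb : Bornology.IsBounded U) (a : E n) :
    q.μ ((fun z => a + z) ⁻¹' U) = q.μ U := by
  obtain ⟨φ, hφ1, hφ2, hφ3⟩ := hU.exists_contDiff_support_eq (n := ⊤)
  set ψ : ℕ → E n → ℝ := fun k z => Real.smoothTransition ((k : ℝ) * φ z) with hψ
  have hφnn : ∀ z, 0 ≤ φ z := fun z => (hφ3 ⟨z, rfl⟩).1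
  have hψs : ∀ k, ContDiff ℝ 2 (ψ k) := by
    intro k
    have h1 : ContDiff ℝ ∞ (ψ k) :=
      Real.smoothTransition.contDiff.comp (contDiff_const.mul hφ2)
    exact h1.of_le (WithTop.coe_le_coe.mpr (le_top : (2:ℕ∞) ≤ ⊤))
  have hψ0 : ∀ k z, z ∉ U → ψ k z = 0 := by
    intro k z hz
    have : φ z = 0 := by
      by_contra h
      apply hz
      rw [← hφ1]
      exact h
    simp [hψ, this]
  have hψc : ∀ k, HasCompactSupport (ψ k) := by
    intro k
    obtain ⟨R, hR⟩ := hUb.subset_closedBall (0 : E n)
    apply HasCompactSupport.intro (isCompact_closedBall (0 : E n) R)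
    intro z hz
    exact hψ0 k z fun h => hz (hR h)
  have hψnn : ∀ k z, 0 ≤ ψ k z := fun k z => Real.smoothTransition.nonneg _
  -- convert integrals
  have h1 : ∀ k (c : E n), ∫⁻ z, ENNReal.ofReal (ψ k (z - c)) ∂q.μ =
      ENNReal.ofReal (∫ x, ψ k (q.f x - c) * q.J x) := by
    intro k c
    have hmm : Measurable fun z => ENNReal.ofReal (ψ k (z - c)) :=
      ENNReal.measurable_ofReal.comp
      ((hψs k).continuous.comp (continuous_id.sub continuous_const)).measurable
    rw [q.lintegral_μ _ hmm]
    rw [ofReal_integral_eq_lintegral_ofReal]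
    · apply lintegral_congr
      intro x
      rw [ENNReal.ofReal_mul (hψnn _ _)]
    · -- integrability
      obtain ⟨C, hC⟩ := (hψc k).exists_bound_of_continuous (hψs k).continuous
      obtain ⟨η, hη⟩ := (hψc k).isCompact.isBounded.subset_closedBall (0 : E n)
      obtain ⟨R, hR0, hR⟩ := q.preimage_bdd (η + ‖c‖)
      have h2 : (fun x => ψ k (q.f x - c) * q.J x) =
          (closedBall (0 : E n) R).indicator (fun x => ψ k (q.f x - c) * q.J x) := by
        ext x
        by_cases hx : x ∈ closedBall (0 : E n) R
        · rw [indicator_of_mem hx]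
        · rw [indicator_of_notMem hx]
          have h3 : q.f x - c ∉ tsupport (ψ k) := by
            intro h4
            have h5 := hη h4
            rw [mem_closedBall, dist_zero_right] at h5
            apply hx
            rw [mem_closedBall, dist_zero_right]
            apply (hR x _).le
            have h6 : ‖q.f x‖ ≤ ‖q.f x - c‖ + ‖c‖ := by
              have := norm_add_le (q.f x - c) c
              simpa using this
            linarith
          rw [image_eq_zero_of_notMem_tsupport h3, zero_mul]
      rw [h2, integrable_indicator_iff measurableSet_closedBall]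
      apply (q.J_intOn R).bdd_mul (c := C)
      · exact ((hψs k).continuous.comp (q.hf.sub continuous_const)).aestronglyMeasurable
      · exact Eventually.of_forall fun x => hC _
    · filter_upwards [q.J_nonneg] with x hx
      exact mul_nonneg (hψnn _ _) hx
  have h2 : ∀ k (c : E n), ∫⁻ z, ENNReal.ofReal (ψ k (z - c)) ∂q.μ =
      ∫⁻ z, ENNReal.ofReal (ψ k z) ∂q.μ := by
    intro k c
    have h3 := h1 k 0
    simp only [sub_zero] at h3
    rw [h1 k c, h3, q.push_translate_global (ψ k) (hψs k) (hψc k) c]
  -- limits
  have h3 : ∀ c : E n, q.μ ((fun z => z - c) ⁻¹' U) =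
      ⨆ k, ∫⁻ z, ENNReal.ofReal (ψ k (z - c)) ∂q.μ := by
    intro c
    rw [← lintegral_iSup]
    · rw [← lintegral_indicator_one ((hU.preimage (by fun_prop)).measurableSet)]
      apply lintegral_congr
      intro z
      by_cases hz : z - c ∈ U
      · rw [indicator_of_mem (by exact hz)]
        apply le_antisymm
        · have hp : 0 < φ (z - c) := by
            rw [← hφ1] at hz
            exact lt_of_le_of_ne (hφnn _) (Ne.symm hz)
          obtain ⟨k, hk⟩ := exists_nat_gt (1 / φ (z - c))
          apply le_iSup_of_le k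
          have : ψ k (z - c) = 1 := by
            apply Real.smoothTransition.one_of_one_le
            rw [div_lt_iff₀ hp] at hk
            exact hk.le
          rw [this]
          simp
        · apply iSup_le
          intro k
          simp only [Pi.one_apply]
          rw [← ENNReal.ofReal_one]
          exact ENNReal.ofReal_le_ofReal (Real.smoothTransition.le_one _)
      · rw [indicator_of_notMem (by exact hz)]
        symm
        simp only [ENNReal.iSup_eq_zero]
        intro k
        rw [hψ0 k _ hz]
        simp
    · intro k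
      exact ENNReal.measurable_ofReal.comp
        ((hψs k).continuous.comp (continuous_id.sub continuous_const)).measurable
    · intro i j hij z
      apply ENNReal.ofReal_le_ofReal
      apply Real.smoothTransition.monotone
      have : (i : ℝ) ≤ j := by exact_mod_cast hij
      exact mul_le_mul_of_nonneg_right this (hφnn _)
  have h4 := h3 (-a)
  have h5 := h3 0
  simp only [h2] at h4 h5
  simp only [sub_neg_eq_add, sub_zero] at h4 h5
  rw [← h5] at h4
  have h6 : (fun z : E n => a + z) = fun z => z + a := by ext z; rw [add_comm]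
  rw [h6, h4]
  rfl

instance : Measure.IsAddLeftInvariant q.μ := by
  refine ⟨fun a => ?_⟩
  have hfin : IsFiniteMeasureOnCompacts (q.μ.map (a + ·)) := by
    refine ⟨fun K hK => ?_⟩
    rw [Measure.map_apply (by fun_prop) hK.measurableSet]
    apply IsCompact.measure_lt_top
    exact (Homeomorph.addLeft a).isCompact_preimage.mpr hK
  apply Measure.OuterRegular.ext_isOpen_isBounded
  intro U hU hUb
  rw [Measure.map_apply (by fun_prop) hU.measurableSet]
  exact q.μ_open U hU hUb a

/-- the push-forward of the Jacobian is a multiple of Lebesgue measure -/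
theorem μ_eq : ∃ d : ℝ≥0, q.μ = d • (volume : Measure (E n)) :=
  ⟨_, Measure.isAddLeftInvariant_eq_smul q.μ volume⟩

/-- change of variables inequality -/
theorem degree : ∃ d : ℝ, 0 ≤ d ∧ ∀ Θ : E n → ℝ≥0∞, Measurable Θ →
    ∫⁻ x, Θ (q.f x) * ENNReal.ofReal (q.J x) = ENNReal.ofReal d * ∫⁻ z, Θ z := by
  obtain ⟨d, hd⟩ := q.μ_eq
  refine ⟨d, d.2, fun Θ hΘ => ?_⟩
  rw [← q.lintegral_μ Θ hΘ, hd, lintegral_smul_measure]
  simp [ENNReal.smul_def]

end QR

end Pool.Agent.Work.MP_0f0f21_an
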