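import Pool.Agent.Work.MP_0f0f21_an.Ulim

set_option autoImplicit false

open Metric Set Filter Topology

namespace Pool.Agent.Work.MP_0f0f21_an

variable {n : ℕ}

/-- the scale invariant part of `BQ` -/
structure BG (g : E n → E n) (N : ℕ) (C c : ℝ) (w : ℝ → ℝ) : Prop where
  fib : ∀ y, (g ⁻¹' {y}).encard ≤ N
  dbl : ∀ x r M, 0 < r → (∀ z ∈ closedBall x r, dist (g z) (g x) ≤ M) →
      ∀ z ∈ closedBall x (2 * r), dist (g z) (g x) ≤ C * M
  mod : ∀ x r M s, 0 < r → 0 < s → s ≤ 1 → (∀ z ∈ closedBall x r, dist (g z) (g x) ≤ M) →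
      ∀ z ∈ closedBall x (s * r), dist (g z) (g x) ≤ w s * M
  opn : ∀ x r M, 0 < r → (∃ z ∈ closedBall x r, M ≤ dist (g z) (g x)) →
      ball (g x) (c * M) ⊆ g '' ball x r

/-- rescaling of a map -/
noncomputable def resc (f : E n → E n) (a b : E n) (r ρ : ℝ) : E n → E n :=
  fun u => ρ⁻¹ • (f (a + r • u) - b)

lemma dist_resc {f : E n → E n} {a b : E n} {r ρ : ℝ} (hρ : 0 < ρ) (u v : E n) :
    dist (resc f a b r ρ u) (resc f a b r ρ v) = ρ⁻¹ * dist (f (a + r • u)) (f (a + r • v)) := by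
  simp only [resc]
  rw [dist_smul₀, Real.norm_eq_abs, abs_of_pos (inv_pos.mpr hρ), dist_sub_right]

lemma dist_aff {a : E n} {r : ℝ} (hr : 0 < r) (u v : E n) :
    dist (a + r • u) (a + r • v) = r * dist u v := by
  rw [dist_add_left, dist_smul₀, Real.norm_eq_abs, abs_of_pos hr]

lemma aff_surj {r : ℝ} (hr : 0 < r) (a z : E n) : a + r • (r⁻¹ • (z - a)) = z := by
  rw [smul_inv_smul₀ hr.ne', add_sub_cancel]

theorem BQ.rescale {f : E n → E n} {N : ℕ} {C c : ℝ} {w : ℝ → ℝ} (h : BQ f N C c w)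
    (a b : E n) {r ρ : ℝ} (hr : 0 < r) (hρ : 0 < ρ) : BG (resc f a b r ρ) N C c w := by
  have hpull : ∀ (u : E n) (s M : ℝ),
      (∀ z ∈ closedBall u s, dist (resc f a b r ρ z) (resc f a b r ρ u) ≤ M) →
      ∀ z ∈ closedBall (a + r • u) (r * s), dist (f z) (f (a + r • u)) ≤ ρ * M := by
    intro u s M hM z hz
    have h1 := hM (r⁻¹ • (z - a)) (by
      rw [mem_closedBall] at hz ⊢
      rw [← aff_surj hr a z, dist_aff hr] at hz
      exact le_of_mul_le_mul_left hz hr)
    rw [dist_resc hρ, aff_surj hr, inv_mul_le_iff₀ hρ] at h1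
    exact h1
  constructor
  · intro y
    refine le_trans ?_ (h.fib (ρ • y + b))
    apply encard_le_encard_of_injOn (f := fun u => a + r • u)
    · intro u hu
      have h1 : ρ⁻¹ • (f (a + r • u) - b) = y := hu
      show f (a + r • u) = ρ • y + b
      rw [← h1, smul_inv_smul₀ hρ.ne', sub_add_cancel]
    · intro u _ v _ huv
      have h1 : dist (a + r • u) (a + r • v) = 0 := by
        simp only at huv
        rw [huv, dist_self]
      rw [dist_aff hr] at h1
      rcases mul_eq_zero.mp h1 with h2 | h2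
      · exact absurd h2 hr.ne'
      · exact dist_eq_zero.mp h2
  · intro x s M hs hM z hz
    have h1 := h.dbl (a + r • x) (r * s) (ρ * M) (by positivity) (hpull x s M hM) (a + r • z) (by
      rw [mem_closedBall] at hz ⊢
      rw [dist_aff hr]
      nlinarith)
    rw [dist_resc hρ, inv_mul_le_iff₀ hρ]
    linarith
  · intro x s M t hs ht ht1 hM z hz
    have h1 := h.mod (a + r • x) (r * s) (ρ * M) t (by positivity) ht ht1 (hpull x s M hM)
      (a + r • z) (by
      rw [mem_closedBall] at hz ⊢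
      rw [dist_aff hr]
      nlinarith)
    rw [dist_resc hρ, inv_mul_le_iff₀ hρ]
    linarith
  · intro x s M hs hM y hy
    obtain ⟨z, hz, hzM⟩ := hM
    have h1 := h.opn (a + r • x) (r * s) (ρ * M) (by positivity) ⟨a + r • z, by
      rw [mem_closedBall] at hz ⊢
      rw [dist_aff hr]
      nlinarith, by
      rw [dist_resc hρ, le_inv_mul_iff₀ hρ] at hzM
      exact hzM⟩
    have h2 : ρ • y + b ∈ ball (f (a + r • x)) (c * (ρ * M)) := by
      rw [mem_ball] at hy ⊢
      have h3 : f (a + r • x) = ρ • (resc f a b r ρ x) + b := by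
        simp only [resc]
        rw [smul_inv_smul₀ hρ.ne', sub_add_cancel]
      rw [h3, dist_add_right, dist_smul₀, Real.norm_eq_abs, abs_of_pos hρ]
      nlinarith
    obtain ⟨z', hz', hz2⟩ := h1 h2
    refine ⟨r⁻¹ • (z' - a), ?_, ?_⟩
    · rw [mem_ball] at hz' ⊢
      rw [← aff_surj hr a z', dist_aff hr] at hz'
      exact lt_of_mul_lt_mul_left hz' hr.le
    · simp only [resc]
      rw [aff_surj hr, hz2, add_sub_cancel_right, inv_smul_smul₀ hρ.ne']

lemma BG.dbl_iter {g : E n → E n} {N : ℕ} {C c : ℝ} {w : ℝ → ℝ} (h : BG g N C c w) (k : ℕ)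
    (x : E n) (r M : ℝ) (hr : 0 < r) (hM : ∀ z ∈ closedBall x r, dist (g z) (g x) ≤ M) :
    ∀ z ∈ closedBall x (2 ^ k * r), dist (g z) (g x) ≤ C ^ k * M := by
  induction k with
  | zero => simpa using hM
  | succ k ih =>
    have h1 := h.dbl x (2 ^ k * r) (C ^ k * M) (by positivity) ih
    intro z hz
    have h2 := h1 z (by
      have h3 : (2:ℝ) * (2 ^ k * r) = 2 ^ (k + 1) * r := by ring
      rw [h3]
      exact hz)
    refine h2.trans (le_of_eq ?_)
    ring

/-- the limit map -/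
theorem exists_limit_map {N : ℕ} {C c C' : ℝ} {w : ℝ → ℝ} (hC : 1 ≤ C) (hc : 0 < c)
    (hw : Tendsto w (𝓝[>] 0) (𝓝 0)) {g : ℕ → E n → E n} (hg : ∀ i, BG (g i) N C c w)
    (h0 : ∀ i, g i 0 = 0) (hup : ∀ i, ∀ z ∈ closedBall (0 : E n) 1, dist (g i z) (g i 0) ≤ C')
    (hlow : ∀ i, ∃ z ∈ closedBall (0 : E n) 1, 1 ≤ dist (g i z) (g i 0))
    (U : Ultrafilter ℕ) :
    ∃ G : E n → E n, Continuous G ∧ IsOpenMap G ∧ (∀ y, (G ⁻¹' {y}).encard ≤ N) ∧
      ∀ (u : ℕ → E n) (x : E n), Tendsto u U (𝓝 x) →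
        Tendsto (fun i => g i (u i)) U (𝓝 (G x)) := by
  classical
  have hC' : 1 ≤ C' := by
    obtain ⟨z, hz, hz1⟩ := hlow 0
    exact hz1.trans (hup 0 z hz)
  have hC0 : 0 < C := by linarith
  -- upper bounds
  have hupk : ∀ (k : ℕ) (i : ℕ), ∀ z ∈ closedBall (0 : E n) (2 ^ k),
      dist (g i z) (g i 0) ≤ C ^ k * C' := by
    intro k i z hz
    exact (hg i).dbl_iter k 0 1 C' one_pos (hup i) z (by rwa [mul_one])
  have hpow : ∀ R : ℝ, ∃ k : ℕ, R ≤ 2 ^ k := by
    intro R
    obtain ⟨k, hk⟩ := pow_unbounded_of_one_lt R (one_lt_two)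
    exact ⟨k, hk.le⟩
  -- equicontinuity
  have hM : ∀ x : E n, ∃ M : ℝ, 0 < M ∧ ∀ i, ∀ z ∈ closedBall x 1, dist (g i z) (g i x) ≤ M := by
    intro x
    obtain ⟨k, hk⟩ := hpow (1 + ‖x‖)
    refine ⟨2 * (C ^ k * C'), by positivity, ?_⟩
    intro i z hz
    have h1 : z ∈ closedBall (0 : E n) (2 ^ k) := by
      rw [mem_closedBall] at hz ⊢
      have := dist_triangle z x 0
      rw [dist_zero_right x] at this
      linarith
    have h2 : x ∈ closedBall (0 : E n) (2 ^ k) := by
      rw [mem_closedBall, dist_zero_right]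
      linarith
    have h3 := hupk k i z h1
    have h4 := hupk k i x h2
    have h5 := dist_triangle_right (g i z) (g i x) (g i 0)
    linarith
  have hequi : ∀ (x : E n) (η : ℝ), 0 < η → ∃ s > 0, ∀ i, ∀ z ∈ closedBall x s,
      dist (g i z) (g i x) < η := by
    intro x η hη
    obtain ⟨M, hM0, hM⟩ := hM x
    have h1 : Tendsto (fun s => w s * M) (𝓝[>] 0) (𝓝 0) := by
      have := hw.mul_const M
      rwa [zero_mul] at this
    have h2 : ∀ᶠ s in 𝓝[>] (0:ℝ), w s * M < η := h1.eventually (gt_mem_nhds hη)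
    have h3 : ∀ᶠ s in 𝓝[>] (0:ℝ), s ∈ Ioc (0:ℝ) 1 := Ioc_mem_nhdsGT one_pos
    obtain ⟨s, hs1, hs2⟩ := (h2.and h3).exists
    refine ⟨s, hs2.1, ?_⟩
    intro i z hz
    have h4 := (hg i).mod x 1 M s one_pos hs2.1 hs2.2 (hM i) z (by rwa [mul_one])
    linarith
  -- pointwise limits
  have hlim : ∀ x : E n, ∃ y : E n, Tendsto (fun i => g i x) U (𝓝 y) := by
    intro x
    obtain ⟨k, hk⟩ := hpow ‖x‖
    have h1 : closedBall (0 : E n) (C ^ k * C') ∈ (U.map (fun i => g i x)) := by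
      show ∀ᶠ i in (U : Filter ℕ), g i x ∈ closedBall (0 : E n) (C ^ k * C')
      filter_upwards with i
      have := hupk k i x (by rw [mem_closedBall, dist_zero_right]; exact hk)
      rwa [h0] at this
    obtain ⟨y, _, hy⟩ := (isCompact_closedBall (0 : E n) (C ^ k * C')).ultrafilter_le_nhds
      (U.map (fun i => g i x)) (le_principal_iff.mpr h1)
    exact ⟨y, hy⟩
  choose G hG using hlim
  have hseq : ∀ (u : ℕ → E n) (x : E n), Tendsto u U (𝓝 x) →
        Tendsto (fun i => g i (u i)) U (𝓝 (G x)) := by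
    intro u x hu
    rw [Metric.tendsto_nhds]
    intro η hη
    obtain ⟨s, hs, hsi⟩ := hequi x (η / 2) (by positivity)
    have h1 := (Metric.tendsto_nhds.mp hu) s hs
    have h2 := (Metric.tendsto_nhds.mp (hG x)) (η / 2) (by positivity)
    filter_upwards [h1, h2] with i h3 h4
    have h5 := hsi i (u i) (mem_closedBall.mpr h3.le)
    have := dist_triangle (g i (u i)) (g i x) (G x)
    linarith
  have hGc : Continuous G := by
    rw [Metric.continuous_iff]
    intro x η hη
    obtain ⟨s, hs, hsi⟩ := hequi x (η / 2) (by positivity)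
    refine ⟨s, hs, fun z hz => ?_⟩
    have h1 : Tendsto (fun i => dist (g i z) (g i x)) U (𝓝 (dist (G z) (G x))) :=
      (hG z).dist (hG x)
    have h2 : dist (G z) (G x) ≤ η / 2 := by
      apply le_of_tendsto h1
      filter_upwards with i
      exact (hsi i z (mem_closedBall.mpr hz.le)).le
    linarith
  -- lower bounds
  have hlowx : ∀ (x : E n) (r : ℝ), 0 < r → ∃ μ > 0, ∀ i, ∃ z ∈ closedBall x r,
      μ ≤ dist (g i z) (g i x) := by
    intro x r hr
    obtain ⟨k, hk⟩ := hpow ((1 + ‖x‖) / r)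
    refine ⟨1 / (4 * C ^ k), by positivity, ?_⟩
    intro i
    by_contra hcon
    push Not at hcon
    have h1 := (hg i).dbl_iter k x r (1 / (4 * C ^ k)) hr (fun z hz => (hcon z hz).le)
    have hk' : 1 + ‖x‖ ≤ 2 ^ k * r := (div_le_iff₀ hr).mp hk
    obtain ⟨z, hz, hz1⟩ := hlow i
    have h2 := h1 z (by
      rw [mem_closedBall] at hz ⊢
      have := dist_triangle_right z x 0
      rw [dist_zero_right x] at this
      linarith)
    have h3 := h1 0 (by
      rw [mem_closedBall, dist_zero_left]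
      linarith [norm_nonneg x])
    have h4 : C ^ k * (1 / (4 * C ^ k)) = 1 / 4 := by
      field_simp
    rw [h4] at h2 h3
    have h5 := dist_triangle_right (g i z) (g i 0) (g i x)
    linarith
  have hopen : ∀ (x : E n) (r : ℝ), 0 < r → ∃ μ > 0, ∀ i,
      ball (g i x) μ ⊆ g i '' ball x r := by
    intro x r hr
    obtain ⟨μ, hμ, hμi⟩ := hlowx x r hr
    exact ⟨c * μ, by positivity, fun i => (hg i).opn x r μ hr (hμi i)⟩
  have hGo : IsOpenMap G := by
    apply IsOpenMap.of_nhds_le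
    intro x
    rw [Filter.le_map_iff]
    intro W hW
    obtain ⟨r, hr, hrW⟩ := Metric.nhds_basis_closedBall.mem_iff.mp hW
    obtain ⟨μ, hμ, hμi⟩ := hopen x r hr
    refine mem_of_superset (ball_mem_nhds (G x) hμ) ?_
    intro y hy
    have h1 : ∀ᶠ i in (U : Filter ℕ), y ∈ ball (g i x) μ := by
      have h2 : Tendsto (fun i => dist y (g i x)) U (𝓝 (dist y (G x))) :=
        tendsto_const_nhds.dist (hG x)
      exact h2.eventually (gt_mem_nhds hy)
    have h3 : ∀ i, ∃ z : E n, y ∈ ball (g i x) μ → (z ∈ ball x r ∧ g i z = y) := by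
      intro i
      by_cases hi : y ∈ ball (g i x) μ
      · obtain ⟨z, hz1, hz2⟩ := hμi i hi
        exact ⟨z, fun _ => ⟨hz1, hz2⟩⟩
      · exact ⟨x, fun h => absurd h hi⟩
    choose z hz using h3
    have h4 : closedBall x r ∈ U.map z := by
      show ∀ᶠ i in (U : Filter ℕ), z i ∈ closedBall x r
      filter_upwards [h1] with i hi
      exact ball_subset_closedBall (hz i hi).1
    obtain ⟨z₀, hz₀, hlz⟩ := (isCompact_closedBall x r).ultrafilter_le_nhds (U.map z)
      (le_principal_iff.mpr h4)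
    have h5 := hseq z z₀ hlz
    have h6 : Tendsto (fun i => g i (z i)) U (𝓝 y) := by
      apply tendsto_const_nhds.congr'
      filter_upwards [h1] with i hi
      exact (hz i hi).2.symm
    exact ⟨z₀, hrW hz₀, tendsto_nhds_unique h5 h6⟩
  refine ⟨G, hGc, hGo, ?_, hseq⟩
  intro y
  by_contra hcon
  rw [not_le] at hcon
  have h1 : ((N + 1 : ℕ) : ℕ∞) ≤ (G ⁻¹' {y}).encard := by
    push_cast
    exact Order.add_one_le_of_lt hcon
  obtain ⟨F, hF1, hF2⟩ := exists_subset_encard_eq h1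
  have hFf : F.Finite := finite_of_encard_eq_coe hF2
  obtain ⟨η, hη, hsep⟩ := finite_sep hFf
  have h2 : ∀ p ∈ F, ∀ᶠ i in (U : Filter ℕ), y ∈ g i '' ball p (η / 2) := by
    intro p hp
    obtain ⟨μ, hμ, hμi⟩ := hopen p (η / 2) (by positivity)
    have h3 : G p = y := hF1 hp
    have h4 := hG p
    rw [h3] at h4
    have h5 : ∀ᶠ i in (U : Filter ℕ), y ∈ ball (g i p) μ := by
      have h6 : Tendsto (fun i => dist y (g i p)) U (𝓝 (dist y y)) :=
        tendsto_const_nhds.dist h4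
      rw [dist_self] at h6
      exact h6.eventually (gt_mem_nhds hμ)
    filter_upwards [h5] with i hi
    exact hμi i hi
  have h3 : ∀ᶠ i in (U : Filter ℕ), ∀ p ∈ F, y ∈ g i '' ball p (η / 2) := by
    rw [hFf.eventually_all]
    exact h2
  obtain ⟨i, hi⟩ := h3.exists
  obtain ⟨z, hz1, hz2⟩ := fibre_count (g := g i) (F := F) (η := η / 2) (by
      intro p hp q hq hpq
      have := hsep p hp q hq hpq
      linarith) hi
  have h4 : ((N + 1 : ℕ) : ℕ∞) ≤ N := by
    calc ((N + 1 : ℕ) : ℕ∞) = F.encard := hF2.symm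
      _ = (z '' F).encard := hz2.encard_image.symm
      _ ≤ (g i ⁻¹' {y}).encard := by
        apply encard_le_encard
        rintro _ ⟨p, hp, rfl⟩
        exact (hz1 p hp).2
      _ ≤ N := (hg i).fib y
  have h5 : N + 1 ≤ N := by exact_mod_cast h4
  omega

end Pool.Agent.Work.MP_0f0f21_an
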