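import Pool.Agent.Work.MP_0f0f21_an.Open
import Pool.Agent.Work.MP_0f0f21_an.BQ

set_option autoImplicit false

open Metric Set Filter Topology

namespace Pool.Agent.Work.MP_0f0f21_an

section Sets

variable {X Y : Type} [MetricSpace X] [MetricSpace Y]

/-- the limit of a sequence of sets along an ultrafilter -/
def ulim (U : Ultrafilter ℕ) (A : ℕ → Set X) : Set X :=
  {x | ∀ η > 0, ∀ᶠ i in (U : Filter ℕ), ∃ a ∈ A i, dist a x < η}

lemma isClosed_ulim (U : Ultrafilter ℕ) (A : ℕ → Set X) : IsClosed (ulim U A) := by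
  rw [← isOpen_compl_iff, Metric.isOpen_iff]
  intro x hx
  have hx' : ¬ ∀ η > 0, ∀ᶠ i in (U : Filter ℕ), ∃ a ∈ A i, dist a x < η := hx
  push Not at hx'
  obtain ⟨η, hη, h⟩ := hx'
  refine ⟨η / 2, by positivity, ?_⟩
  intro y hy hyU
  have h1 := hyU (η / 2) (by positivity)
  have h' : ∀ᶠ i in (U : Filter ℕ), ∀ a ∈ A i, η ≤ dist a x := h
  obtain ⟨j, hj1, hj2⟩ := (h'.and h1).exists
  obtain ⟨a, ha, hay⟩ := hj2
  have h2 := hj1 a ha
  rw [mem_ball] at hy
  have := dist_triangle a y x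
  linarith

lemma mem_ulim_of_seq {U : Ultrafilter ℕ} {A : ℕ → Set X} {a : ℕ → X} {x : X}
    (ha : ∀ᶠ i in (U : Filter ℕ), a i ∈ A i) (hx : Tendsto a U (𝓝 x)) : x ∈ ulim U A := by
  intro η hη
  have h1 := (Metric.tendsto_nhds.mp hx) η hη
  filter_upwards [ha, h1] with i h2 h3
  exact ⟨a i, h2, h3⟩

lemma exists_seq {U : Ultrafilter ℕ} (hU : (U : Filter ℕ) ≤ atTop) {A : ℕ → Set X} {x : X}
    (hx : x ∈ ulim U A) : ∃ a : ℕ → X, (∀ᶠ i in (U : Filter ℕ), a i ∈ A i) ∧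
      Tendsto a U (𝓝 x) := by
  classical
  have h1 : ∀ i, ∃ a : X, (A i).Nonempty → a ∈ A i ∧
      dist x a < infDist x (A i) + 1 / ((i:ℝ) + 1) := by
    intro i
    by_cases hi : (A i).Nonempty
    · have h2 : infDist x (A i) < infDist x (A i) + 1 / ((i:ℝ) + 1) := by
        have : (0:ℝ) < 1 / ((i:ℝ) + 1) := by positivity
        linarith
      obtain ⟨a, ha, hxa⟩ := (infDist_lt_iff hi).mp h2
      exact ⟨a, fun _ => ⟨ha, hxa⟩⟩
    · exact ⟨x, fun h => absurd h hi⟩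
  choose a ha using h1
  refine ⟨a, ?_, ?_⟩
  · filter_upwards [hx 1 one_pos] with i hi
    obtain ⟨b, hb, _⟩ := hi
    exact (ha i ⟨b, hb⟩).1
  · rw [Metric.tendsto_nhds]
    intro η hη
    have h3 : ∀ᶠ i : ℕ in atTop, 1 / ((i:ℝ) + 1) < η / 2 :=
      tendsto_one_div_add_atTop_nhds_zero_nat.eventually (gt_mem_nhds (by positivity))
    filter_upwards [hx (η / 2) (by positivity), hU h3] with i hi hi'
    obtain ⟨b, hb, hbx⟩ := hi
    have h4 := (ha i ⟨b, hb⟩).2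
    have h5 : infDist x (A i) ≤ dist x b := infDist_le_dist_of_mem hb
    rw [dist_comm x b] at h5
    rw [dist_comm (a i) x]
    linarith

lemma ulim_subset {U : Ultrafilter ℕ} (hU : (U : Filter ℕ) ≤ atTop) {A : ℕ → Set X} {K : Set X}
    (hK : IsClosed K) (hA : ∀ i, A i ⊆ K) : ulim U A ⊆ K := by
  intro x hx
  obtain ⟨a, ha, hax⟩ := exists_seq hU hx
  apply hK.mem_of_tendsto hax
  filter_upwards [ha] with i hi
  exact hA i hi

lemma isCompact_ulim {U : Ultrafilter ℕ} (hU : (U : Filter ℕ) ≤ atTop) {A : ℕ → Set X}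
    {K : Set X} (hK : IsCompact K) (hA : ∀ i, A i ⊆ K) : IsCompact (ulim U A) :=
  hK.of_isClosed_subset (isClosed_ulim U A) (ulim_subset hU hK.isClosed hA)

/-- the sets are close to their limit, after mapping -/
lemma ulim_near {U : Ultrafilter ℕ} {A : ℕ → Set X} {K : Set X} (hK : IsCompact K)
    (hA : ∀ i, A i ⊆ K) {g : ℕ → X → Y} {G : X → Y}
    (hg : ∀ (u : ℕ → X) (x : X), Tendsto u U (𝓝 x) → Tendsto (fun i => g i (u i)) U (𝓝 (G x)))
    {η : ℝ} (hη : 0 < η) :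
    ∀ᶠ i in (U : Filter ℕ), ∀ u ∈ A i, ∃ t ∈ ulim U A, dist (g i u) (G t) < η := by
  classical
  by_contra hcon
  rw [← Ultrafilter.eventually_not] at hcon
  have h1 : ∀ᶠ i in (U : Filter ℕ), ∃ u ∈ A i, ∀ t ∈ ulim U A, η ≤ dist (g i u) (G t) := by
    filter_upwards [hcon] with i hi
    push Not at hi
    exact hi
  obtain ⟨i₀, u₀, hu₀, _⟩ := h1.exists
  have h2 : ∀ i, ∃ u : X, (∃ u ∈ A i, ∀ t ∈ ulim U A, η ≤ dist (g i u) (G t)) →
      (u ∈ A i ∧ ∀ t ∈ ulim U A, η ≤ dist (g i u) (G t)) := by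
    intro i
    by_cases hi : ∃ u ∈ A i, ∀ t ∈ ulim U A, η ≤ dist (g i u) (G t)
    · obtain ⟨u, hu⟩ := hi
      exact ⟨u, fun _ => hu⟩
    · exact ⟨u₀, fun h => absurd h hi⟩
  choose u hu using h2
  have hev : ∀ᶠ i in (U : Filter ℕ), u i ∈ A i ∧ ∀ t ∈ ulim U A, η ≤ dist (g i (u i)) (G t) := by
    filter_upwards [h1] with i hi
    exact hu i hi
  have hKU : K ∈ (U.map u) := by
    show ∀ᶠ i in (U : Filter ℕ), u i ∈ K
    filter_upwards [hev] with i hi
    exact hA i hi.1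
  obtain ⟨x, _, hx⟩ := hK.ultrafilter_le_nhds (U.map u) (le_principal_iff.mpr hKU)
  have hux : Tendsto u U (𝓝 x) := hx
  have hxT : x ∈ ulim U A := mem_ulim_of_seq (hev.mono fun i hi => hi.1) hux
  have h3 := (Metric.tendsto_nhds.mp (hg u x hux)) η hη
  obtain ⟨i, hi1, hi2⟩ := (h3.and hev).exists
  have := hi2.2 x hxT
  linarith

/-- coloured covers pass to the limit -/
lemma Col.ulim {U : Ultrafilter ℕ} (hU : (U : Filter ℕ) ≤ atTop) {A : ℕ → Set X} {m : ℕ}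
    {d e : ℝ} (h : ∀ᶠ i in (U : Filter ℕ), Col (A i) m d e) : Col (ulim U A) m d e := by
  classical
  by_cases hX : Nonempty X
  swap
  · refine ⟨fun _ => 0, fun x => x, ?_⟩
    intro x
    exact absurd ⟨x⟩ hX
  have h1 : ∀ i, ∃ (κ : X → Fin (m + 1)) (l : X → X), Col (A i) m d e →
      ∀ x ∈ A i, ∀ y ∈ A i, κ x = κ y →
        (dist x y < d → l x = l y) ∧ (l x = l y → dist x y ≤ e) := by
    intro i
    by_cases hi : Col (A i) m d e
    · obtain ⟨κ, l, hkl⟩ := hi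
      exact ⟨κ, l, fun _ => hkl⟩
    · exact ⟨fun _ => 0, fun x => x, fun h => absurd h hi⟩
  choose κ l hkl using h1
  have h2 : ∀ x ∈ Pool.Agent.Work.MP_0f0f21_an.ulim U A, ∃ a : ℕ → X,
      (∀ᶠ i in (U : Filter ℕ), a i ∈ A i) ∧ Tendsto a U (𝓝 x) := fun x hx => exists_seq hU hx
  choose! a ha1 ha2 using h2
  have h3 : ∀ x, ∃ k : Fin (m + 1), ∀ᶠ i in (U : Filter ℕ), κ i (a x i) = k := by
    intro x
    have := (Ultrafilter.eventually_exists_iff (f := U)
      (P := fun (k : Fin (m + 1)) i => κ i (a x i) = k)).mp (Eventually.of_forall fun i => ⟨_, rfl⟩)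
    exact this
  choose k hk using h3
  apply Col.of_label (L := Filter.Germ (U : Filter ℕ) X) k
    (fun x => ((fun i => l i (a x i) : ℕ → X) : Filter.Germ (U : Filter ℕ) X))
  intro x hx y hy hxy
  have e1 : ∀ᶠ i in (U : Filter ℕ), κ i (a x i) = κ i (a y i) := by
    filter_upwards [hk x, hk y] with i h5 h6
    rw [h5, h6, hxy]
  have e2 : ∀ᶠ i in (U : Filter ℕ), (dist (a x i) (a y i) < d → l i (a x i) = l i (a y i)) ∧
      (l i (a x i) = l i (a y i) → dist (a x i) (a y i) ≤ e) := by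
    filter_upwards [h, e1, ha1 x hx, ha1 y hy] with i h5 h6 h7 h8
    exact hkl i h5 _ h7 _ h8 h6
  have e3 : Tendsto (fun i => dist (a x i) (a y i)) U (𝓝 (dist x y)) :=
    (ha2 x hx).dist (ha2 y hy)
  constructor
  · intro hd
    rw [Filter.Germ.coe_eq]
    filter_upwards [e2, e3.eventually (gt_mem_nhds hd)] with i h5 h6
    exact h5.1 h6
  · intro hl
    rw [Filter.Germ.coe_eq] at hl
    apply le_of_tendsto e3
    filter_upwards [e2, hl] with i h5 h6
    exact h5.2 h6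

end Sets

end Pool.Agent.Work.MP_0f0f21_an
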